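import Pool.Agent.Helper11.Restr

/-!
# From modules killed by `g₁, …, g_r` to modules killed by `∑ xᵢ gᵢ`
-/

namespace Pool.Agent.Helper11

universe u

open Function MvPolynomial TensorProduct

variable {R : Type u} [CommRing R] [IsNoetherianRing R] {σ : Type} [Fintype σ]
  {Γ : Type*} [AddCommGroup Γ]

/-- the polynomial `∑ xⱼ gⱼ` -/
noncomputable def bigF (g : σ → R) : MvPolynomial σ R := ∑ j, X j * C (g j)

omit [IsNoetherianRing R] in
lemma curv_lst (g : σ → R) : curv (lst g Finset.univ.toList) = bigF g := by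
  rw [curv, lst, List.map_map, bigF, ← Finset.sum_map_toList]
  rfl

omit [IsNoetherianRing R] [Fintype σ] in
lemma comap_le (I : Ideal (MvPolynomial σ R)) (K : Ideal R) (h : K ≤ I.comap C)
    (hX : ∀ j, (X j : MvPolynomial σ R) ∈ I) : K.comap constantCoeff ≤ I := by
  intro t ht
  have e : (Ideal.Quotient.mk I) =
      ((Ideal.Quotient.mk I).comp (C (σ := σ) (R := R))).comp constantCoeff := by
    apply MvPolynomial.ringHom_ext
    · intro r
      simp
    · intro j
      simp [Ideal.Quotient.eq_zero_iff_mem.mpr (hX j)]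
  rw [← Ideal.Quotient.eq_zero_iff_mem, e]
  simp only [RingHom.comp_apply]
  rw [Ideal.Quotient.eq_zero_iff_mem]
  exact h ht

theorem kos_step (g : σ → R) {χ : FGMod R → Γ}
    (hχ : IsAdd (KilledBy (Ideal.span (Set.range g))) χ) :
    ∃ χ' : FGMod (MvPolynomial σ R) → Γ,
      IsAdd (KilledBy (Ideal.span {bigF g})) χ' ∧
      ∀ N : FGMod R, KilledBy (Ideal.span (Set.range g)) N →
        ∃ M : FGMod (MvPolynomial σ R), KilledBy (Ideal.span {bigF g}) M ∧ χ' M = χ N := by
  classical
  have hπ : Surjective (constantCoeff : MvPolynomial σ R →+* R) := fun r => ⟨C r, by simp⟩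
  set π : MvPolynomial σ R →+* R := constantCoeff with hπdef
  set K₀ : Ideal R := Ideal.span (Set.range g) with hK₀
  set l := lst g Finset.univ.toList with hl
  have hcurv : curv l = bigF g := curv_lst g
  obtain ⟨ι₀, ι₁, _, _, _, _, φ, ψ, e, h1, h2, h3, h4⟩ := exists_kos l
  rw [hcurv] at h1 h2
  have hmem : ∀ p ∈ l, ∃ j, p = (X j, C (g j)) := by
    intro p hp
    rw [hl, lst, List.mem_map] at hp
    obtain ⟨j, -, rfl⟩ := hp
    exact ⟨j, rfl⟩
  have hmem' : ∀ j, ((X j, C (g j)) : MvPolynomial σ R × MvPolynomial σ R) ∈ l := by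
    intro j
    rw [hl, lst, List.mem_map]
    exact ⟨j, by simp, rfl⟩
  obtain ⟨I, hI⟩ := nullK_ideal (Ideal.span {bigF g}) φ ψ
  have hJ : ∀ t ∈ K₀.comap π, NullK (Ideal.span {bigF g}) φ ψ t := by
    intro t ht
    rw [← hI]
    refine comap_le I K₀ ?_ (fun j => ?_) ht
    · rw [hK₀, Ideal.span_le]
      rintro _ ⟨j, rfl⟩
      exact (hI _).mpr ((h3 _ (hmem' j)).2.nullK)
    · exact (hI _).mpr ((h3 _ (hmem' j)).1.nullK)
  have hχ' := isAdd_desc π hπ hχ
  refine ⟨perχ (fun M => χ (desc π hπ M)) φ ψ,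
    isAdd_perχ hχ' φ ψ hJ (compK_of_mul h1 h2), ?_⟩
  intro N hN
  let M : FGMod (MvPolynomial σ R) := FGMod.of _ (MvPolynomial σ R ⊗[R] N)
  have hgM : ∀ (j : σ) (m : M), (C (g j) : MvPolynomial σ R) • m = 0 := by
    intro j m
    induction m using TensorProduct.induction_on with
    | zero => exact smul_zero _
    | tmul p n =>
        have : (C (g j) : MvPolynomial σ R) • (p ⊗ₜ[R] (n : N)) = p ⊗ₜ[R] (g j • n) := by
          rw [TensorProduct.smul_tmul', smul_eq_mul, ← MvPolynomial.smul_eq_C_mul,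
            TensorProduct.smul_tmul]
        refine this.trans ?_
        rw [hN (g j) (Ideal.subset_span ⟨j, rfl⟩) n, TensorProduct.tmul_zero]
    | add x y hx hy =>
        refine (smul_add (C (g j) : MvPolynomial σ R) x y).trans ?_
        rw [hx, hy, add_zero]
  have hFM : KilledBy (Ideal.span {bigF g}) M := by
    intro s hs m
    obtain ⟨a, rfl⟩ := Ideal.mem_span_singleton'.mp hs
    rw [mul_smul, bigF, Finset.sum_smul]
    have : ∑ j, (X j * C (g j) : MvPolynomial σ R) • m = 0 :=
      Finset.sum_eq_zero (fun j _ => by rw [mul_smul, hgM, smul_zero])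
    rw [this, smul_zero]
  refine ⟨M, hFM, ?_⟩
  obtain ⟨k1, k2, k3, k4⟩ := h4 M (fun p hp m => by
    obtain ⟨j, rfl⟩ := hmem p hp
    exact hgM j m) (reg_lst g _ (Finset.nodup_toList _))
  let q : M →ₗ[MvPolynomial σ R] restr π hπ N :=
    { toFun := fun z => (restrEquiv π hπ N).symm (cfEquiv R σ N z 0)
      map_add' := fun x y => by
        rw [← map_add]
        exact congrArg _ (cf_add _ _ _)
      map_smul' := fun p z => by
        apply (restrEquiv π hπ N).injective
        rw [RingHom.id_apply, restrEquiv_smul, AddEquiv.apply_symm_apply,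
          AddEquiv.apply_symm_apply]
        exact cf_zero_smul p z }
  have hq : ∀ z, q z = (restrEquiv π hπ N).symm (cfEquiv R σ N z 0) := fun _ => rfl
  rw [perχ_eq hχ' φ ψ hJ l e M (restr π hπ N) hFM k1 k2 k3 k4 q ?_ ?_, desc_restr π hπ hχ N hN]
  · intro x
    refine ⟨(1 : MvPolynomial σ R) ⊗ₜ[R] (restrEquiv π hπ N x), ?_⟩
    rw [hq, AddEquiv.symm_apply_eq, cfEquiv_tmul]
    simp
  · intro m
    rw [hl, hq]
    have := mem_XM (N := N) g Finset.univ.toList m
    rw [this, AddEquiv.map_eq_zero_iff]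
    constructor
    · intro h0 α hα
      have : α = 0 := by
        ext j
        exact hα j (by simp)
      rw [this, h0]
    · intro h
      exact h 0 (fun j _ => rfl)

end Pool.Agent.Helper11
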