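import Pool.Agent.Helper11.FFR

/-!
# An induction principle for modules over polynomial rings
-/

namespace Pool.Agent.Helper11

universe u

open Function Polynomial

/-- A class of finitely generated modules closed under isomorphisms, extensions and cokernels of
injections. -/
structure ResClass {A : Type u} [CommRing A] (P : FGMod A → Prop) : Prop where
  iso : ∀ (M N : FGMod A) (_ : M ≃ₗ[A] N), P M → P N
  ext : ∀ (M' M M'' : FGMod A) (f : M' →ₗ[A] M) (g : M →ₗ[A] M''), Injective f →
    Surjective g → Exact f g → P M' → P M'' → P M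
  coker : ∀ (M' M M'' : FGMod A) (f : M' →ₗ[A] M) (g : M →ₗ[A] M''), Injective f →
    Surjective g → Exact f g → P M' → P M → P M''

/-- Noetherian induction on the annihilator together with prime filtrations: to prove that all
finitely generated modules over a noetherian ring `A` lie in an extension closed class, it is
enough to treat `A ⧸ 𝔮` for primes `𝔮`, knowing the class contains all modules killed by a strictly
larger ideal from a given family. -/
lemma prime_reduction {A : Type u} [CommRing A] [IsNoetherianRing A] {P : FGMod A → Prop}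
    (hP : ResClass P) (h0 : P (FGMod.of A (A ⧸ (⊤ : Ideal A)))) (I : Ideal A)
    (hprime : ∀ 𝔮 : Ideal A, 𝔮.IsPrime → I ≤ 𝔮 → P (FGMod.of A (A ⧸ 𝔮)))
    (M : FGMod A) (hM : KilledBy I M) : P M := by
  have key : ∀ (N : Type u) [AddCommGroup N] [Module A N] [hfin : Module.Finite A N],
      KilledBy I (FGMod.of A N) → P (FGMod.of A N) := by
    intro N _ _ hfin
    induction hfin using IsNoetherianRing.induction_on_isQuotientEquivQuotientPrime A with
    | subsingleton N =>
        intro _
        have : Subsingleton (A ⧸ (⊤ : Ideal A)) := Ideal.Quotient.subsingleton_iff.mpr rfl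
        refine hP.iso _ _ ?_ h0
        exact { toFun := fun _ => 0, invFun := fun _ => 0, map_add' := fun _ _ => by simp,
                map_smul' := fun _ _ => by simp, left_inv := fun _ => Subsingleton.elim _ _,
                right_inv := fun _ => Subsingleton.elim _ _ }
    | quotient N p e =>
        intro hN
        have hI : I ≤ p.1 := by
          intro s hs
          have h1 := hN s hs (e.symm 1)
          have h2 : e (s • e.symm 1) = 0 := by
            have : (s • e.symm 1 : N) = 0 := h1
            rw [this, map_zero]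
          rw [map_smul, e.apply_symm_apply] at h2
          have h3 : (Ideal.Quotient.mk p.1 s) = 0 := by
            have : (s • (1 : A ⧸ p.1)) = Ideal.Quotient.mk p.1 s := by
              rw [Algebra.smul_def, mul_one]; rfl
            rw [← this]; exact h2
          exact Ideal.Quotient.eq_zero_iff_mem.mp h3
        exact hP.iso (FGMod.of A (A ⧸ p.1)) (FGMod.of A N) e.symm (hprime p.1 p.2 hI)
    | exact N₁ N₂ N₃ f g hf hg hfg h₁ h₃ =>
        intro hN
        refine hP.ext (FGMod.of A N₁) (FGMod.of A N₂) (FGMod.of A N₃) f g hf hg hfg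
          (h₁ ?_) (h₃ ?_)
        · exact (subQuot_killedBy I).sub (FGMod.of A N₁) (FGMod.of A N₂) f hf hN
        · exact (subQuot_killedBy I).quot (FGMod.of A N₂) (FGMod.of A N₃) g hg hN
  exact key M hM

/-- division with remainder modulo an ideal of the base -/
lemma pow_mul_mem_of_minimal {R : Type u} [CommRing R] (I : Ideal R) (𝔮 : Ideal R[X])
    (f : R[X]) (hf : f ∈ 𝔮) (a : R) (ha : a = f.coeff f.natDegree)
    (hmin : ∀ g ∈ 𝔮, g.natDegree < f.natDegree → g ∈ I.map C) :
    ∀ (n : ℕ) (g : R[X]), g ∈ 𝔮 → (∀ m, n ≤ m → g.coeff m = 0) →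
      ∃ k : ℕ, C (a ^ k) * g ∈ Ideal.span {f} ⊔ I.map C := by
  intro n
  induction n with
  | zero =>
      intro g _ hg0
      have : g = 0 := by
        ext m
        rw [hg0 m (Nat.zero_le m), coeff_zero]
      subst this
      exact ⟨0, by simp⟩
  | succ n ih =>
      intro g hg hgn
      by_cases hn : n < f.natDegree
      · have hgd : g.natDegree < f.natDegree := by
          rcases eq_or_ne g 0 with rfl | hne
          · simpa using lt_of_le_of_lt (Nat.zero_le n) hn
          · refine lt_of_le_of_lt ?_ hn
            rw [natDegree_le_iff_coeff_eq_zero]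
            intro N hN
            exact hgn N hN
        refine ⟨0, ?_⟩
        have := hmin g hg hgd
        rw [pow_zero, map_one, one_mul]
        exact Ideal.mem_sup_right this
      · push Not at hn
        let g' : R[X] := C a * g - C (g.coeff n) * X ^ (n - f.natDegree) * f
        have hg' : g' ∈ 𝔮 := by
          refine 𝔮.sub_mem (𝔮.mul_mem_left _ hg) (𝔮.mul_mem_left _ hf)
        have hcoeff : ∀ m, n ≤ m → g'.coeff m = 0 := by
          intro m hm
          have h1 : (C (g.coeff n) * X ^ (n - f.natDegree) * f).coeff m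
              = g.coeff n * f.coeff (m - (n - f.natDegree)) := by
            rw [mul_assoc, coeff_C_mul, coeff_X_pow_mul', if_pos (by omega)]
          simp only [g', coeff_sub, coeff_C_mul, h1]
          rcases Nat.eq_or_lt_of_le hm with rfl | hlt
          · rw [show n - (n - f.natDegree) = f.natDegree by omega, ← ha]
            ring
          · rw [hgn m (by omega), coeff_eq_zero_of_natDegree_lt (n := m - (n - f.natDegree))
              (p := f) (by omega)]
            ring
        obtain ⟨k, hk⟩ := ih g' hg' hcoeff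
        refine ⟨k + 1, ?_⟩
        have : C (a ^ (k + 1)) * g
            = C (a ^ k) * g' + (C (a ^ k) * (C (g.coeff n) * X ^ (n - f.natDegree))) * f := by
          simp only [g', map_mul, map_pow, pow_succ]
          ring
        rw [this]
        refine Ideal.add_mem _ hk (Ideal.mem_sup_left ?_)
        exact Ideal.mul_mem_left _ _ (Ideal.mem_span_singleton_self f)

theorem poly_induction {R : Type u} [CommRing R] [IsNoetherianRing R] {P : FGMod R[X] → Prop}
    (hP : ResClass P)
    (hbase : ∀ I : Ideal R, P (FGMod.of R[X] (R[X] ⧸ (I.map C : Ideal R[X])))) :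
    ∀ M : FGMod R[X], P M := by
  have htop : P (FGMod.of R[X] (R[X] ⧸ (⊤ : Ideal R[X]))) := by
    have := hbase ⊤
    rwa [Ideal.map_top] at this
  have main : ∀ I : Ideal R, ∀ M : FGMod R[X], KilledBy (I.map C) M → P M := by
    intro I
    induction I using WellFoundedGT.induction with
    | ind I ih =>
    intro M hM
    refine prime_reduction hP htop (I.map C) ?_ M hM
    intro 𝔮 h𝔮 hI𝔮
    have hIp : I ≤ 𝔮.comap C := Ideal.map_le_iff_le_comap.mp hI𝔮
    rcases eq_or_lt_of_le hIp with hIeq | hlt
    swap
    · -- larger contraction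
      refine ih _ hlt _ ?_
      intro s hs m
      obtain ⟨m, rfl⟩ := Ideal.Quotient.mk_surjective m
      have hs' : s ∈ 𝔮 := (Ideal.map_comap_le (f := (C : R →+* R[X])) (K := 𝔮)) hs
      change Ideal.Quotient.mk 𝔮 (s * m) = 0
      exact Ideal.Quotient.eq_zero_iff_mem.mpr (𝔮.mul_mem_right _ hs')
    have hIprime : I.IsPrime := by
      rw [hIeq]; exact Ideal.comap_isPrime C 𝔮
    by_cases hq : 𝔮 = I.map C
    · rw [hq]; exact hbase I
    -- choose `f` of minimal degree
    have hex : ∃ n : ℕ, ∃ f ∈ 𝔮, f ∉ I.map C ∧ f.natDegree = n := by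
      have : ¬ 𝔮 ≤ I.map C := fun h => hq (le_antisymm h hI𝔮)
      obtain ⟨f, hf, hf'⟩ := SetLike.not_le_iff_exists.mp this
      exact ⟨_, f, hf, hf', rfl⟩
    classical
    obtain ⟨f, hf, hfI, hfd⟩ := Nat.find_spec hex
    have hmin : ∀ g ∈ 𝔮, g.natDegree < f.natDegree → g ∈ I.map C := by
      intro g hg hlt
      by_contra hgI
      rw [hfd] at hlt
      exact Nat.find_min hex hlt ⟨g, hg, hgI, rfl⟩
    set a := f.coeff f.natDegree with ha
    have haI : a ∉ I := by
      intro haI
      have hmem : C a * X ^ f.natDegree ∈ I.map C :=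
        Ideal.mul_mem_right _ _ (Ideal.mem_map_of_mem C haI)
      have h1 : f - C a * X ^ f.natDegree ∉ I.map C := by
        intro h
        apply hfI
        have := Ideal.add_mem _ h hmem
        simpa using this
      have h2 : f - C a * X ^ f.natDegree ∈ 𝔮 := 𝔮.sub_mem hf (hI𝔮 hmem)
      rcases Nat.eq_zero_or_pos f.natDegree with h0 | hpos
      · apply h1
        have : f - C a * X ^ f.natDegree = 0 := by
          rw [ha, h0, pow_zero, mul_one, ← eq_C_of_natDegree_eq_zero h0, sub_self]
        rw [this]; exact Ideal.zero_mem _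
      · apply h1
        refine hmin _ h2 ?_
        have hle : (f - C a * X ^ f.natDegree).natDegree ≤ f.natDegree - 1 := by
          rw [natDegree_le_iff_coeff_eq_zero]
          intro N hN
          rw [coeff_sub, coeff_C_mul, coeff_X_pow]
          rcases Nat.eq_or_lt_of_le (show f.natDegree ≤ N by omega) with rfl | hlt
          · simp [ha]
          · rw [if_neg (by omega), coeff_eq_zero_of_natDegree_lt hlt]; simp
        omega
    set J : Ideal R[X] := Ideal.span {f} ⊔ I.map C with hJ
    have hJq : J ≤ 𝔮 := sup_le ((Ideal.span_singleton_le_iff_mem _).mpr hf) hI𝔮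
    have hexk : ∀ g ∈ 𝔮, ∃ k : ℕ, C (a ^ k) * g ∈ J := fun g hg =>
      pow_mul_mem_of_minimal I 𝔮 f hf a ha hmin (g.natDegree + 1) g hg
        (fun m hm => coeff_eq_zero_of_natDegree_lt (by omega))
    obtain ⟨K, hK⟩ : ∃ K : ℕ, ∀ g ∈ 𝔮, C (a ^ K) * g ∈ J := by
      obtain ⟨s, hs⟩ := (isNoetherianRing_iff_ideal_fg R[X]).mp inferInstance 𝔮
      choose! k hk using hexk
      refine ⟨s.sup k, fun g hg => ?_⟩
      rw [← hs] at hg
      induction hg using Submodule.span_induction with
      | mem x hx =>
          have hxs : x ∈ s := hx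
          have hx𝔮 : x ∈ 𝔮 := by rw [← hs]; exact Submodule.subset_span hx
          have hle : k x ≤ s.sup k := Finset.le_sup hxs
          have : C (a ^ s.sup k) * x = C (a ^ (s.sup k - k x)) * (C (a ^ k x) * x) := by
            rw [← mul_assoc, ← map_mul, ← pow_add, Nat.sub_add_cancel hle]
          rw [this]
          exact J.mul_mem_left _ (hk x hx𝔮)
      | zero => simp
      | add x y _ _ hx hy => rw [mul_add]; exact J.add_mem hx hy
      | smul r x _ hx =>
          rw [smul_eq_mul, mul_left_comm]; exact J.mul_mem_left _ hx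
    -- the exact sequence `0 → A/I' → A/I' → A/J → 0`
    have hI' : (I.map C : Ideal R[X]).IsPrime := Ideal.isPrime_map_C_of_isPrime
    have hPJ : P (FGMod.of R[X] (R[X] ⧸ J)) := by
      let mf : (R[X] ⧸ (I.map C : Ideal R[X])) →ₗ[R[X]] (R[X] ⧸ (I.map C : Ideal R[X])) :=
        LinearMap.lsmul R[X] _ f
      have hle : (I.map C : Ideal R[X]) ≤ J := le_sup_right
      let qf : (R[X] ⧸ (I.map C : Ideal R[X])) →ₗ[R[X]] (R[X] ⧸ J) := Submodule.factor hle
      have hmf : ∀ x : R[X], mf (Ideal.Quotient.mk _ x) = Ideal.Quotient.mk _ (f * x) :=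
        fun x => rfl
      have hqf : ∀ x : R[X], qf (Ideal.Quotient.mk _ x) = Ideal.Quotient.mk _ x := fun x => rfl
      refine hP.coker (FGMod.of R[X] (R[X] ⧸ (I.map C : Ideal R[X])))
        (FGMod.of R[X] (R[X] ⧸ (I.map C : Ideal R[X]))) (FGMod.of R[X] (R[X] ⧸ J)) mf qf
        ?_ ?_ ?_ (hbase I) (hbase I)
      · rw [injective_iff_map_eq_zero]
        intro x hx
        obtain ⟨x, rfl⟩ := Ideal.Quotient.mk_surjective x
        rw [hmf] at hx
        rw [Ideal.Quotient.eq_zero_iff_mem] at hx ⊢
        exact (hI'.mem_or_mem hx).resolve_left hfI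
      · intro y
        obtain ⟨y, rfl⟩ := Ideal.Quotient.mk_surjective y
        exact ⟨Ideal.Quotient.mk _ y, rfl⟩
      · intro y
        obtain ⟨y, rfl⟩ := Ideal.Quotient.mk_surjective y
        rw [hqf, Ideal.Quotient.eq_zero_iff_mem]
        constructor
        · intro hy
          obtain ⟨u, hu, v, hv, rfl⟩ := Submodule.mem_sup.mp hy
          obtain ⟨w, rfl⟩ := Ideal.mem_span_singleton'.mp hu
          refine ⟨Ideal.Quotient.mk _ w, ?_⟩
          rw [hmf, map_add, Ideal.Quotient.eq_zero_iff_mem.mpr hv, add_zero, mul_comm]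
        · rintro ⟨x, hx⟩
          obtain ⟨x, rfl⟩ := Ideal.Quotient.mk_surjective x
          rw [hmf, Ideal.Quotient.eq] at hx
          have h1 : f * x ∈ J :=
            Ideal.mem_sup_left (Ideal.mul_mem_right _ _ (Ideal.mem_span_singleton_self f))
          have h2 : f * x - y ∈ J := Ideal.mem_sup_right hx
          have := J.sub_mem h1 h2
          simpa using this
    -- the exact sequence `0 → 𝔮/J → A/J → A/𝔮 → 0`
    let N : Submodule R[X] (R[X] ⧸ J) := Submodule.map J.mkQ 𝔮
    have hN : P (FGMod.of R[X] N) := by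
      have hgt : I < I ⊔ Ideal.span {a ^ K} := by
        refine lt_of_le_of_ne le_sup_left (fun h => haI ?_)
        have : a ^ K ∈ I := by
          rw [h]; exact Ideal.mem_sup_right (Ideal.mem_span_singleton_self _)
        exact hIprime.mem_of_pow_mem K this
      refine ih _ hgt _ ?_
      -- it is killed by the bigger ideal
      have hk : (Ideal.map C (I ⊔ Ideal.span {a ^ K}) : Ideal R[X]) ≤
          Module.annihilator R[X] N := by
        rw [Ideal.map_sup, sup_le_iff, Ideal.map_span, Set.image_singleton,
          Ideal.span_singleton_le_iff_mem]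
        constructor
        · intro s hs
          rw [Module.mem_annihilator]
          rintro ⟨y, g, hg, rfl⟩
          apply Subtype.ext
          change J.mkQ (s * g) = 0
          rw [Submodule.mkQ_apply, Submodule.Quotient.mk_eq_zero]
          exact Ideal.mul_mem_right _ _ (Ideal.mem_sup_right hs)
        · rw [Module.mem_annihilator]
          rintro ⟨y, g, hg, rfl⟩
          apply Subtype.ext
          change J.mkQ (C (a ^ K) * g) = 0
          rw [Submodule.mkQ_apply, Submodule.Quotient.mk_eq_zero]
          exact hK g hg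
      intro s hs m
      exact Module.mem_annihilator.mp (hk hs) m
    refine hP.coker (FGMod.of R[X] N) (FGMod.of R[X] (R[X] ⧸ J)) (FGMod.of R[X] (R[X] ⧸ 𝔮))
      N.subtype (Submodule.factor hJq) N.subtype_injective ?_ ?_ hN hPJ
    · intro y
      obtain ⟨y, rfl⟩ := Ideal.Quotient.mk_surjective y
      exact ⟨Ideal.Quotient.mk _ y, rfl⟩
    · intro y
      obtain ⟨y, rfl⟩ := Ideal.Quotient.mk_surjective y
      have : (Submodule.factor hJq) (Ideal.Quotient.mk J y) = Ideal.Quotient.mk 𝔮 y := rfl
      rw [this, Ideal.Quotient.eq_zero_iff_mem]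
      constructor
      · intro hy
        exact ⟨⟨Ideal.Quotient.mk J y, y, hy, rfl⟩, rfl⟩
      · rintro ⟨⟨z, g, hg, rfl⟩, hz⟩
        have hz' : Ideal.Quotient.mk J g = Ideal.Quotient.mk J y := hz
        rw [Ideal.Quotient.eq] at hz'
        have := 𝔮.sub_mem hg (hJq hz')
        simpa using this
  intro M
  refine main ⊥ M ?_
  intro s hs m
  rw [Ideal.map_bot, Ideal.mem_bot] at hs
  rw [hs, zero_smul]

end Pool.Agent.Helper11
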