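import Mathlib

/-!
# Presentations by bilinear relations
-/

namespace Pool.Agent.Helper11

open MvPolynomial Function

section

variable {B : Type} [CommRing B] {r b : ℕ} (π : MvPolynomial (Fin r) ℤ →+* B)
  (m : Fin b → (Fin r →₀ ℕ))

/-- the evaluation homomorphism -/
noncomputable def evB : MvPolynomial (Fin b ⊕ Fin b) ℤ →+* B :=
  eval₂Hom (Int.castRingHom B) (Sum.elim (fun j => π (monomial (m j) 1))
    (fun j => π (monomial (m j) 1)))

@[simp] lemma evB_inl (j : Fin b) : evB π m (X (Sum.inl j)) = π (monomial (m j) 1) := by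
  simp [evB]

@[simp] lemma evB_inr (j : Fin b) : evB π m (X (Sum.inr j)) = π (monomial (m j) 1) := by
  simp [evB]

/-- the product `yⱼ zₖ` -/
noncomputable def yz (b : ℕ) (p : Fin b × Fin b) : MvPolynomial (Fin b ⊕ Fin b) ℤ :=
  X (Sum.inl p.1) * X (Sum.inr p.2)

/-- bilinear forms vanishing in `B` -/
def bil : Set (MvPolynomial (Fin b ⊕ Fin b) ℤ) :=
  {p | p ∈ Submodule.span ℤ (Set.range (yz b)) ∧ evB π m p = 0}

theorem ker_evB (H : Set (MvPolynomial (Fin r) ℤ)) (hH : RingHom.ker π = Ideal.span H)
    (j₀ : Fin b) (hj₀ : m j₀ = 0) (jj : Fin r → Fin b)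
    (hjj : ∀ i, m (jj i) = Finsupp.single i 1)
    (hdown : ∀ j i, m j i ≠ 0 → ∃ j', m j' = m j - Finsupp.single i 1)
    (hsupp : ∀ h ∈ H, ∀ α ∈ h.support, ∃ j, m j = α) :
    RingHom.ker (evB π m) = Ideal.span (bil π m) ⊔ Ideal.span {X (Sum.inl j₀) - 1} ⊔
      Ideal.span {X (Sum.inr j₀) - 1} := by
  classical
  set I : Ideal (MvPolynomial (Fin b ⊕ Fin b) ℤ) := Ideal.span (bil π m) ⊔
    Ideal.span {X (Sum.inl j₀) - 1} ⊔ Ideal.span {X (Sum.inr j₀) - 1} with hI
  have hπ1 : π (monomial (m j₀) 1) = 1 := by
    rw [hj₀]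
    exact map_one π
  apply le_antisymm
  · -- the hard inclusion
    let q := Ideal.Quotient.mk I
    have hbil : ∀ p ∈ bil π m, q p = 0 := fun p hp =>
      Ideal.Quotient.eq_zero_iff_mem.mpr
        (Ideal.mem_sup_left (Ideal.mem_sup_left (Ideal.subset_span hp)))
    have hY0 : q (X (Sum.inl j₀)) = 1 := by
      rw [← sub_eq_zero, ← map_one q, ← map_sub]
      exact Ideal.Quotient.eq_zero_iff_mem.mpr
        (Ideal.mem_sup_left (Ideal.mem_sup_right (Ideal.mem_span_singleton_self _)))
    have hZ0 : q (X (Sum.inr j₀)) = 1 := by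
      rw [← sub_eq_zero, ← map_one q, ← map_sub]
      exact Ideal.Quotient.eq_zero_iff_mem.mpr
        (Ideal.mem_sup_right (Ideal.mem_span_singleton_self _))
    have hyz : ∀ j k, yz b (j, k) ∈ Submodule.span ℤ (Set.range (yz b)) :=
      fun j k => Submodule.subset_span ⟨_, rfl⟩
    have hYZ : ∀ j, q (X (Sum.inl j)) = q (X (Sum.inr j)) := by
      intro j
      have : q (yz b (j, j₀) - yz b (j₀, j)) = 0 := by
        apply hbil
        refine ⟨Submodule.sub_mem _ (hyz _ _) (hyz _ _), ?_⟩
        simp [yz, hπ1]
      rw [map_sub, sub_eq_zero] at this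
      simpa [yz, hY0, hZ0] using this
    have hadd : ∀ j j' j'', m j = m j' + m j'' →
        q (X (Sum.inl j)) = q (X (Sum.inl j')) * q (X (Sum.inl j'')) := by
      intro j j' j'' h
      have : q (yz b (j, j₀) - yz b (j', j'')) = 0 := by
        apply hbil
        refine ⟨Submodule.sub_mem _ (hyz _ _) (hyz _ _), ?_⟩
        simp only [yz, map_sub, map_mul, evB_inl, evB_inr, hπ1, mul_one]
        rw [← map_mul, monomial_mul, one_mul, ← h, sub_self]
      rw [map_sub, sub_eq_zero] at this
      simp only [yz, map_mul, hZ0, mul_one] at this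
      rw [this, hYZ j'']
    let θ : MvPolynomial (Fin r) ℤ →+* (MvPolynomial (Fin b ⊕ Fin b) ℤ ⧸ I) :=
      eval₂Hom (Int.castRingHom _) (fun i => q (X (Sum.inl (jj i))))
    have hθX : ∀ i, θ (X i) = q (X (Sum.inl (jj i))) := by
      intro i
      simp [θ]
    have hθ : ∀ (d : ℕ) (j : Fin b), (m j).degree = d → θ (monomial (m j) 1) = q (X (Sum.inl j)) := by
      intro d
      induction d with
      | zero =>
          intro j hj
          have hj' : m j = 0 := (Finsupp.degree_eq_zero_iff _).mp hj
          have h1 := hadd j j₀ j₀ (by rw [hj', hj₀, add_zero])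
          rw [hY0, mul_one] at h1
          rw [h1, hj']
          exact map_one θ
      | succ d ih =>
          intro j hj
          have hne : m j ≠ 0 := by
            intro h0
            rw [h0, map_zero] at hj
            omega
          obtain ⟨i, hi⟩ := Finsupp.ne_iff.mp hne
          obtain ⟨j', hj'⟩ := hdown j i hi
          have hsum : m j = m (jj i) + m j' := by
            rw [hjj, hj', add_comm, tsub_add_cancel_of_le]
            rw [Finsupp.single_le_iff]
            have : m j i ≠ 0 := hi
            omega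
          have hdeg : (m j').degree = d := by
            have := congrArg Finsupp.degree hsum
            rw [map_add, hj, hjj, Finsupp.degree_single] at this
            omega
          rw [hadd j (jj i) j' hsum, ← ih j' hdeg, ← hθX, ← map_mul, X, monomial_mul, one_mul,
            ← hjj, ← hsum]
    have hθ' : ∀ j, θ (monomial (m j) 1) = q (X (Sum.inl j)) := fun j => hθ _ j rfl
    -- the relations
    have hθH : ∀ h ∈ H, θ h = 0 := by
      intro h hh
      haveI : Nonempty (Fin b) := ⟨j₀⟩
      choose! f hf using hsupp h hh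
      let p : MvPolynomial (Fin b ⊕ Fin b) ℤ := ∑ α ∈ h.support, (coeff α h) • yz b (f α, j₀)
      have e1 : ∀ {T : Type} [CommRing T] (ψ : MvPolynomial (Fin r) ℤ →+* T),
          ψ h = ∑ α ∈ h.support, (coeff α h) • ψ (monomial α 1) := by
        intro T _ ψ
        conv_lhs => rw [h.as_sum, map_sum]
        refine Finset.sum_congr rfl (fun α _ => ?_)
        rw [← map_zsmul, smul_monomial, smul_eq_mul, mul_one]
      have hp : p ∈ bil π m := by
        refine ⟨Submodule.sum_mem _ (fun α _ => Submodule.smul_mem _ _ (hyz _ _)), ?_⟩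
        have h0 : π h = 0 := by
          have : h ∈ RingHom.ker π := by rw [hH]; exact Ideal.subset_span hh
          exact this
        rw [e1 π] at h0
        rw [map_sum, ← h0]
        refine Finset.sum_congr rfl (fun α hα => ?_)
        rw [map_zsmul]
        simp only [yz, map_mul, evB_inl, evB_inr, hπ1, mul_one]
        rw [hf α hα]
      have h2 := hbil p hp
      rw [e1 θ, ← h2, map_sum]
      refine Finset.sum_congr rfl (fun α hα => ?_)
      rw [map_zsmul]
      simp only [yz, map_mul, hZ0, mul_one]
      rw [← hθ', hf α hα]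
    have hker : ∀ p, π p = 0 → θ p = 0 := by
      intro p hp
      have : p ∈ Ideal.span H := by rw [← hH]; exact hp
      have h2 : Ideal.span H ≤ RingHom.ker θ := Ideal.span_le.mpr (fun h hh => hθH h hh)
      exact h2 this
    let σ : MvPolynomial (Fin b ⊕ Fin b) ℤ →+* MvPolynomial (Fin r) ℤ :=
      eval₂Hom (Int.castRingHom _) (Sum.elim (fun j => monomial (m j) 1)
        (fun j => monomial (m j) 1))
    have hσ : q = θ.comp σ := by
      apply MvPolynomial.ringHom_ext
      · intro n
        simp
      · rintro (j | j)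
        · simp [σ, hθ']
        · simp [σ, hθ', hYZ]
    have hσ' : evB π m = π.comp σ := by
      apply MvPolynomial.ringHom_ext
      · intro n
        simp
      · rintro (j | j)
        · simp [σ]
        · simp [σ]
    intro p hp
    rw [← Ideal.Quotient.eq_zero_iff_mem]
    change q p = 0
    rw [hσ]
    apply hker
    rw [RingHom.mem_ker, hσ'] at hp
    exact hp
  · rw [hI]
    refine sup_le (sup_le ?_ ?_) ?_
    · rw [Ideal.span_le]
      exact fun p hp => hp.2
    · rw [Ideal.span_le, Set.singleton_subset_iff]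
      simp [RingHom.mem_ker, hπ1]
    · rw [Ideal.span_le, Set.singleton_subset_iff]
      simp [RingHom.mem_ker, hπ1]

end

end Pool.Agent.Helper11
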