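import Pool.Agent.Helper11.Pipeline
import Pool.Agent.Helper11.Present

/-!
# Complements of trilinear hypersurfaces
-/

namespace Pool.Agent.Helper11

open MvPolynomial Function

lemma bigF_ne_zero {R : Type} [CommRing R] {σ : Type} [Fintype σ] (g : σ → R) (j : σ)
    (hj : g j ≠ 0) : bigF g ≠ 0 := by
  classical
  intro h
  have := congrArg (eval₂Hom (RingHom.id R) (Pi.single j 1)) h
  rw [bigF, map_sum, map_zero] at this
  simp [Pi.single_apply] at this
  exact hj this

lemma homog_bil {b : ℕ} (w : Fin b ⊕ Fin b → ℕ)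
    (hw : ∀ j k, w (Sum.inl j) + w (Sum.inr k) = 1) (p : MvPolynomial (Fin b ⊕ Fin b) ℤ)
    (hp : p ∈ Submodule.span ℤ (Set.range (yz b))) :
    homog w p = Polynomial.C p * Polynomial.X ^ 1 := by
  induction hp using Submodule.span_induction with
  | mem x h =>
      obtain ⟨⟨j, k⟩, rfl⟩ := h
      simp only [yz, map_mul, homog_X]
      rw [← hw j k, pow_add]
      ring
  | zero => simp
  | add x y _ _ hx hy => rw [map_add, hx, hy, map_add, add_mul]
  | smul n x _ hx => rw [map_zsmul, hx, map_zsmul, smul_mul_assoc]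

theorem tri_universal (B : Type) [CommRing B] [Algebra.FiniteType ℤ B] :
    ∃ (a b : ℕ) (t : Fin a → Fin b → Fin b → ℤ), triForm t ≠ 0 ∧
      ∃ f : K1 (Localization.Away (triForm t)) →+ G0 B, Surjective f := by
  classical
  obtain ⟨n, f, hf⟩ := Algebra.FiniteType.iff_quotient_mvPolynomial''.mp
    (inferInstance : Algebra.FiniteType ℤ B)
  -- presentation with at least one variable
  let π : MvPolynomial (Fin (n + 1)) ℤ →+* B :=
    eval₂Hom (Int.castRingHom B) (Fin.cases 0 (fun i => f (X i)))
  have hπ : Surjective π := by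
    intro x
    obtain ⟨p, rfl⟩ := hf x
    refine ⟨rename Fin.succ p, ?_⟩
    have : π.comp (rename Fin.succ : MvPolynomial (Fin n) ℤ →ₐ[ℤ] _).toRingHom = f.toRingHom := by
      apply MvPolynomial.ringHom_ext
      · intro r; simp
      · intro i; simp [π]
    exact RingHom.congr_fun this p
  obtain ⟨H, hH⟩ := IsNoetherian.noetherian (RingHom.ker π)
  -- the degree bound
  let D : ℕ := 1 + ∑ h ∈ H, h.totalDegree
  let A : Finset (Fin (n + 1) →₀ ℕ) := (Finsupp.finite_of_degree_le (σ := Fin (n + 1)) D).toFinset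
  have hA : ∀ α : Fin (n + 1) →₀ ℕ, α ∈ A ↔ α.degree ≤ D := by
    intro α
    simp [A]
  let e : Fin A.card ≃ A := A.equivFin.symm
  let m : Fin A.card → (Fin (n + 1) →₀ ℕ) := fun j => (e j).val
  have hm : ∀ j, (m j).degree ≤ D := fun j => (hA _).mp (e j).2
  have hm' : ∀ α : Fin (n + 1) →₀ ℕ, α.degree ≤ D → ∃ j, m j = α := by
    intro α hα
    exact ⟨e.symm ⟨α, (hA _).mpr hα⟩, by simp [m]⟩
  obtain ⟨j₀, hj₀⟩ := hm' 0 (by rw [map_zero]; exact Nat.zero_le _)
  have hjj' : ∀ i : Fin (n + 1), ∃ j, m j = Finsupp.single i 1 := fun i =>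
    hm' _ (by rw [Finsupp.degree_single]; exact Nat.le_add_right _ _)
  choose jj hjj using hjj'
  have hdown : ∀ j i, m j i ≠ 0 → ∃ j', m j' = m j - Finsupp.single i 1 := by
    intro j i _
    refine hm' _ (le_trans ?_ (hm j))
    exact Finsupp.degree_mono tsub_le_self
  have hsupp : ∀ h ∈ (H : Set (MvPolynomial (Fin (n + 1)) ℤ)), ∀ α ∈ h.support, ∃ j, m j = α := by
    intro h hh α hα
    refine hm' _ ?_
    have h1 : α.degree ≤ h.totalDegree := le_totalDegree hα
    have h2 : h.totalDegree ≤ ∑ h ∈ H, h.totalDegree :=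
      Finset.single_le_sum (f := fun h => h.totalDegree) (fun _ _ => Nat.zero_le _)
        (Finset.mem_coe.mp hh)
    exact h1.trans (h2.trans (Nat.le_add_left _ _))
  have hker := ker_evB π m (H : Set (MvPolynomial (Fin (n + 1)) ℤ)) hH.symm j₀ hj₀ jj hjj
    hdown hsupp
  have hev : Surjective (evB π m) := by
    intro x
    obtain ⟨p, rfl⟩ := hπ x
    let σ : MvPolynomial (Fin (n + 1)) ℤ →+* MvPolynomial (Fin A.card ⊕ Fin A.card) ℤ :=
      eval₂Hom (Int.castRingHom _) (fun i => X (Sum.inl (jj i)))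
    refine ⟨σ p, ?_⟩
    have : (evB π m).comp σ = π := by
      apply MvPolynomial.ringHom_ext
      · intro r; simp
      · intro i
        simp only [RingHom.comp_apply, σ, coe_eval₂Hom, eval₂_X, evB_inl, hjj]
        rfl
    exact RingHom.congr_fun this p
  -- finitely many bilinear forms
  obtain ⟨s, hs, hs'⟩ := (Submodule.fg_span_iff_fg_span_finset_subset
    (R := MvPolynomial (Fin A.card ⊕ Fin A.card) ℤ) (bil π m)).mp
    (IsNoetherian.noetherian (Ideal.span (bil π m)))
  let g : Fin s.card → MvPolynomial (Fin A.card ⊕ Fin A.card) ℤ := fun i => (s.equivFin.symm i).val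
  have hg : Set.range g = (s : Set (MvPolynomial (Fin A.card ⊕ Fin A.card) ℤ)) := by
    ext p
    constructor
    · rintro ⟨i, rfl⟩
      exact (s.equivFin.symm i).2
    · intro hp
      exact ⟨s.equivFin ⟨p, hp⟩, by simp [g]⟩
  have hgs : ∀ i, g i ∈ bil π m := fun i => hs (s.equivFin.symm i).2
  have hspan : Ideal.span (bil π m) = Ideal.span (Set.range g) := by
    rw [hg]; exact hs'
  rw [hspan] at hker
  have hc : ∀ i, ∃ c : Fin A.card × Fin A.card → ℤ, ∑ p, c p • yz A.card p = g i := fun i =>
    (Submodule.mem_span_range_iff_exists_fun ℤ).mp (hgs i).1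
  choose c hc using hc
  let t : Fin s.card → Fin A.card → Fin A.card → ℤ := fun i j k => c i (j, k)
  -- some form is nonzero
  have hne : ∃ i, g i ≠ 0 := by
    by_contra hcon
    push Not at hcon
    have hbot : Ideal.span (bil π m) = ⊥ := by
      rw [hspan, Ideal.span_eq_bot]
      rintro _ ⟨i, rfl⟩
      exact hcon i
    have hmem : yz A.card (jj 0, j₀) - yz A.card (j₀, jj 0) ∈ bil π m := by
      refine ⟨Submodule.sub_mem _ (Submodule.subset_span ⟨_, rfl⟩)
        (Submodule.subset_span ⟨_, rfl⟩), ?_⟩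
      simp only [yz, map_sub, map_mul, evB_inl, evB_inr]
      rw [mul_comm, sub_self]
    have h0 := Ideal.span_eq_bot.mp hbot _ hmem
    have hjne : jj 0 ≠ j₀ := by
      intro h
      have := hjj 0
      rw [h, hj₀] at this
      exact one_ne_zero (Finsupp.single_eq_zero.mp this.symm)
    have := congrArg (eval₂Hom (RingHom.id ℤ)
      (Sum.elim (Pi.single (jj 0) 1) (Pi.single j₀ 1) : Fin A.card ⊕ Fin A.card → ℤ)) h0
    simp [yz, hjne, hjne.symm] at this
  obtain ⟨i, hi⟩ := hne
  have hF : bigF g ≠ 0 := bigF_ne_zero g i hi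
  -- transport
  let E := sumRingEquiv ℤ (Fin s.card) (Fin A.card ⊕ Fin A.card)
  have hE : E (triForm t) = bigF g := by
    rw [triForm, bigF, map_sum]
    refine Finset.sum_congr rfl (fun i _ => ?_)
    rw [← hc i, map_sum, map_sum, Finset.mul_sum, Fintype.sum_prod_type]
    refine Finset.sum_congr rfl (fun j _ => ?_)
    rw [map_sum]
    refine Finset.sum_congr rfl (fun k _ => ?_)
    simp only [map_mul, E, sumRingEquiv_C, sumRingEquiv_X_inl, sumRingEquiv_X_inr, t, yz,
      zsmul_eq_mul, map_intCast]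
    have hCC : ∀ z : ℤ, (C (C z) : MvPolynomial (Fin s.card)
        (MvPolynomial (Fin A.card ⊕ Fin A.card) ℤ)) = (z : _) := fun z => by simp
    rw [hCC]
    ring
  refine ⟨s.card, A.card, t, ?_, ?_⟩
  · intro h0
    rw [h0, map_zero] at hE
    exact hF hE.symm
  · letI : Algebra (MvPolynomial (Fin s.card) (MvPolynomial (Fin A.card ⊕ Fin A.card) ℤ))
      (Localization.Away (triForm t)) :=
      ((algebraMap _ (Localization.Away (triForm t))).comp E.symm.toRingHom).toAlgebra
    haveI : IsLocalization.Away (bigF g) (Localization.Away (triForm t)) := by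
      have := IsLocalization.isLocalization_of_base_ringEquiv (Submonoid.powers (triForm t))
        (Localization.Away (triForm t)) E
      rw [IsLocalization.Away, ← hE]
      convert this using 1
      exact (Submonoid.map_powers _ _).symm
    exact pipeline (evB π m) hev g (Sum.inl j₀) (Sum.inr j₀) (Sum.elim (fun _ => 1) (fun _ => 0))
      (Sum.elim (fun _ => 0) (fun _ => 1)) rfl rfl rfl
      (fun i => homog_bil _ (fun _ _ => rfl) _ (hgs i).1)
      (fun i => homog_bil _ (fun _ _ => rfl) _ (hgs i).1) hker hF (Localization.Away (triForm t))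

end Pool.Agent.Helper11
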