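import Pool.Agent.Helper11.PolyInd

/-!
# Finite free resolutions over polynomial rings
-/

namespace Pool.Agent.Helper11

universe u

open Function Polynomial TensorProduct

/-- every finitely generated module has a finite free resolution -/
def AllFFR (R : Type u) [CommRing R] : Prop := ∀ M : FGMod R, ∃ n : ℕ, FFR n M

lemma FFR.baseChange {R A : Type u} [CommRing R] [CommRing A] [Algebra R A] [Module.Flat R A] :
    ∀ (n : ℕ) (M : FGMod R), FFR n M → FFR n (FGMod.of A (A ⊗[R] M))
  | 0, M, h => by
      have : Module.Free R M := h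
      change Module.Free A (A ⊗[R] M)
      infer_instance
  | n + 1, M, ⟨k, K, i, p, hi, hp, hex, hK⟩ => by
      let e : A ⊗[R] (Fin k → R) ≃ₗ[A] (Fin k → A) := piScalarRight R A A (Fin k)
      refine ⟨k, FGMod.of A (A ⊗[R] K), e.toLinearMap ∘ₗ i.baseChange A,
        p.baseChange A ∘ₗ e.symm.toLinearMap, ?_, ?_, ?_, FFR.baseChange n K hK⟩
      · exact e.injective.comp (Module.Flat.lTensor_preserves_injective_linearMap i hi)
      · exact (LinearMap.lTensor_surjective A hp).comp e.symm.surjective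
      · intro x
        have h1 := (Module.Flat.lTensor_exact A hex) (e.symm x)
        have h2 : (p.baseChange A ∘ₗ e.symm.toLinearMap) x = (p.lTensor A) (e.symm x) := rfl
        rw [h2, h1]
        constructor
        · rintro ⟨y, hy⟩
          refine ⟨y, ?_⟩
          change e ((i.lTensor A) y) = x
          rw [hy, e.apply_symm_apply]
        · rintro ⟨y, hy⟩
          refine ⟨y, ?_⟩
          have : e ((i.lTensor A) y) = x := hy
          rw [← this, e.symm_apply_apply]

lemma resClass_FFR {A : Type u} [CommRing A] [IsNoetherianRing A] :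
    ResClass (fun M : FGMod A => ∃ n : ℕ, FFR n M) where
  iso M N e := fun ⟨n, h⟩ => ⟨n, FFR.iso n e h⟩
  ext M' M M'' f g hf hg hfg := fun ⟨n, h⟩ ⟨m, h'⟩ =>
    ⟨max n m, FFR.ext _ M' M M'' f g hf hg hfg (FFR.mono (le_max_left n m) _ h)
      (FFR.mono (le_max_right n m) _ h')⟩
  coker M' M M'' f g hf hg hfg := fun ⟨n, h⟩ ⟨m, h'⟩ =>
    ⟨max n m + 1, FFR.coker _ M' M M'' f g hf hg hfg (FFR.mono (le_max_left n m) _ h)
      (FFR.mono (by omega) _ h')⟩

theorem AllFFR.polynomial {R : Type u} [CommRing R] [IsNoetherianRing R] (h : AllFFR R) :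
    AllFFR R[X] := by
  refine poly_induction resClass_FFR (fun I => ?_)
  obtain ⟨n, hn⟩ := h (FGMod.of R (R ⧸ I))
  refine ⟨n, FFR.iso n ?_ (FFR.baseChange (A := R[X]) n _ hn)⟩
  exact (Algebra.TensorProduct.quotIdealMapEquivTensorQuot R[X] I).symm.toLinearEquiv

theorem AllFFR.pid (R : Type u) [CommRing R] [IsDomain R] [IsPrincipalIdealRing R] :
    AllFFR R := by
  intro M
  obtain ⟨k, p, hp⟩ := Module.Finite.exists_fin' R M
  refine ⟨1, (FFR.succ_iff 0 M).mpr ⟨k, p, hp, ?_⟩⟩
  change Module.Free R (LinearMap.ker p)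
  infer_instance

theorem AllFFR.of_equiv {R R' : Type u} [CommRing R] [CommRing R'] (e : R ≃+* R')
    (h : AllFFR R) : AllFFR R' := by
  intro M
  algebraize [e.toRingHom]
  let _ : Module R M := Module.compHom M e.toRingHom
  have : IsScalarTower R R' M := ⟨fun x y z => by
    rw [Algebra.smul_def, mul_smul]; rfl⟩
  have hsmul : ∀ (r : R) (m : M), r • m = e r • m := fun r m => rfl
  have : Module.Finite R M := by
    have : Module.Finite R R' := Module.Finite.of_surjective (Algebra.linearMap R R')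
      (fun x => ⟨e.symm x, e.apply_symm_apply x⟩)
    exact Module.Finite.trans R' M
  have : Module.Flat R R' := by
    have e' : R ≃ₗ[R] R' :=
      LinearEquiv.ofBijective (Algebra.linearMap R R') e.bijective
    exact Module.Flat.of_linearEquiv e'.symm
  obtain ⟨n, hn⟩ := h (FGMod.of R M)
  refine ⟨n, FFR.iso n ?_ (FFR.baseChange (A := R') n _ hn)⟩
  have hb : IsBaseChange R' (LinearMap.id : M →ₗ[R] M) := by
    refine IsBaseChange.of_lift_unique _ (fun Q _ _ _ _ g => ?_)
    refine ⟨{ toFun := g, map_add' := map_add g, map_smul' := fun r m => ?_ }, ?_, ?_⟩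
    · obtain ⟨s, rfl⟩ := e.surjective r
      rw [← hsmul, map_smul, RingHom.id_apply]
      change s • g m = (algebraMap R R' s) • g m
      rw [algebraMap_smul]
    · ext x; rfl
    · intro g' hg'
      ext x
      exact LinearMap.congr_fun hg' x
  exact hb.equiv

theorem AllFFR.mvPolynomial_fin (n : ℕ) : AllFFR (MvPolynomial (Fin n) ℤ) := by
  induction n with
  | zero => exact AllFFR.of_equiv (MvPolynomial.isEmptyRingEquiv ℤ (Fin 0)).symm (AllFFR.pid ℤ)
  | succ n ih =>
      exact AllFFR.of_equiv (MvPolynomial.finSuccEquiv ℤ n).toRingEquiv.symm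
        (AllFFR.polynomial ih)

theorem AllFFR.mvPolynomial (σ : Type) [Finite σ] : AllFFR (MvPolynomial σ ℤ) := by
  obtain ⟨n, ⟨e⟩⟩ := Finite.exists_equiv_fin σ
  exact AllFFR.of_equiv (MvPolynomial.renameEquiv ℤ e).toRingEquiv.symm
    (AllFFR.mvPolynomial_fin n)

end Pool.Agent.Helper11
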