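import Pool.Agent.Helper11.Boundary

/-!
# Surjectivity of the boundary map
-/

namespace Pool.Agent.Helper11

universe u

open Function Matrix

variable {S : Type u} [CommRing S] [IsDomain S] [IsNoetherianRing S]
  {Γ : Type*} [AddCommGroup Γ] {χ : FGMod S → Γ}
  {L : Type u} [CommRing L] [Algebra S L] (F : S) (hF : F ≠ 0) [IsLocalization.Away F L]
  (hχ : IsAdd (KilledPow F) χ)

include hF hχ in
lemma ffr_one_mem_range (T : FGMod S) (hT : KilledPow F T) (h : FFR 1 T) :
    χ T ∈ (bdryHom L F hF χ hχ).range := by
  obtain ⟨k, p, hp, hK⟩ := (FFR.succ_iff 0 T).mp h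
  have hfree : Module.Free S (LinearMap.ker p) := hK
  obtain ⟨e, he⟩ := hT
  have hFe : F ^ e ≠ 0 := pow_ne_zero _ hF
  have hmem : ∀ v : Fin k → S, F ^ e • v ∈ LinearMap.ker p := fun v => by
    rw [LinearMap.mem_ker, map_smul, he]
  have hrank : Module.finrank S (LinearMap.ker p) = k := by
    apply le_antisymm
    · have := LinearMap.finrank_le_finrank_of_injective
        (f := (LinearMap.ker p).subtype) (LinearMap.ker p).subtype_injective
      simpa using this
    · let j : (Fin k → S) →ₗ[S] LinearMap.ker p :=
        LinearMap.codRestrict _ (LinearMap.lsmul S (Fin k → S) (F ^ e)) hmem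
      have hj : Injective j := by
        rw [injective_iff_map_eq_zero]
        intro v hv
        have : F ^ e • v = 0 := congrArg Subtype.val hv
        exact (smul_eq_zero.mp this).resolve_left hFe
      have := LinearMap.finrank_le_finrank_of_injective (f := j) hj
      simpa using this
  let b := Module.finBasisOfFinrankEq S (LinearMap.ker p) hrank
  let eq : (Fin k → S) ≃ₗ[S] LinearMap.ker p := b.equivFun.symm
  let a : Matrix (Fin k) (Fin k) S :=
    LinearMap.toMatrix' ((LinearMap.ker p).subtype ∘ₗ eq.toLinearMap)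
  have ha : a.mulVecLin = (LinearMap.ker p).subtype ∘ₗ eq.toLinearMap := by
    have := Matrix.toLin'_toMatrix' ((LinearMap.ker p).subtype ∘ₗ eq.toLinearMap)
    exact this
  have hrange : LinearMap.range a.mulVecLin = LinearMap.ker p := by
    rw [ha, LinearMap.range_comp, LinearEquiv.range, Submodule.map_top, Submodule.range_subtype]
  have hinv : FInv F a := by
    have hex : ∀ i : Fin k, ∃ w : Fin k → S, a.mulVecLin w = F ^ e • Pi.single i 1 := by
      intro i
      have : F ^ e • (Pi.single i (1 : S) : Fin k → S) ∈ LinearMap.range a.mulVecLin := by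
        rw [hrange]; exact hmem _
      exact this
    choose w hw using hex
    refine ⟨Matrix.of (fun i j => w j i), e, ?_⟩
    ext i j
    have := congrFun (hw j) i
    rw [mulVecLin_apply] at this
    rw [Matrix.mul_apply]
    change a.mulVec (w j) i = _
    rw [this]
    by_cases hij : i = j
    · subst hij; simp
    · simp [hij, Pi.single_apply]
  have hiso : (cokM a) ≃ₗ[S] T :=
    (Submodule.quotEquivOfEq _ _ hrange).trans (p.quotKerEquivOfSurjective hp)
  rw [← hχ.iso hiso hinv.killedPow]
  exact cokM_mem_range F hF hχ k a hinv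

include hF hχ in
theorem ffr_mem_range : ∀ (n : ℕ) (T : FGMod S) (_ : KilledPow F T) (_ : FFR (n + 1) T),
    χ T ∈ (bdryHom L F hF χ hχ).range
  | 0, T, hT, h => ffr_one_mem_range F hF hχ T hT h
  | n + 1, T, hT, h => by
      obtain ⟨k, p, hp, hK⟩ := (FFR.succ_iff (n + 1) T).mp h
      obtain ⟨e, he⟩ := hT
      have hFe : F ^ e ≠ 0 := pow_ne_zero _ hF
      set c : Matrix (Fin k) (Fin k) S := F ^ e • (1 : Matrix (Fin k) (Fin k) S) with hc
      have hcv : ∀ v, c.mulVecLin v = F ^ e • v := fun v => by
        rw [mulVecLin_apply, hc, smul_mulVec, one_mulVec]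
      have hle : LinearMap.range c.mulVecLin ≤ LinearMap.ker p := by
        rintro _ ⟨v, rfl⟩
        rw [hcv, LinearMap.mem_ker, map_smul, he]
      -- `T₁ = ker p / F^e S^k`
      let T₁ : FGMod S := FGMod.of S (LinearMap.ker p ⧸
        (LinearMap.range c.mulVecLin).submoduleOf (LinearMap.ker p))
      have hkp : KilledPow F (cokM c) := (finv_smul_one F e).killedPow
      let f₁ : T₁ →ₗ[S] cokM c := Submodule.mapQ _ _ (LinearMap.ker p).subtype (fun x hx => hx)
      let g₁ : cokM c →ₗ[S] T := (LinearMap.range c.mulVecLin).liftQ p hle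
      have hf₁ : Injective f₁ := by
        rw [injective_iff_map_eq_zero]
        intro x hx
        obtain ⟨x, rfl⟩ := Submodule.mkQ_surjective _ x
        rw [Submodule.mkQ_apply]
        rw [Submodule.Quotient.mk_eq_zero]
        have : (Submodule.Quotient.mk (x : Fin k → S) :
          (Fin k → S) ⧸ LinearMap.range c.mulVecLin) = 0 := hx
        rw [Submodule.Quotient.mk_eq_zero] at this
        exact this
      have hg₁ : Surjective g₁ := by
        intro t
        obtain ⟨v, rfl⟩ := hp t
        exact ⟨Submodule.Quotient.mk v, rfl⟩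
      have hex₁ : Exact f₁ g₁ := by
        intro x
        obtain ⟨x, rfl⟩ := Submodule.mkQ_surjective _ x
        constructor
        · intro hx
          have hx' : p x = 0 := hx
          exact ⟨Submodule.Quotient.mk ⟨x, hx'⟩, rfl⟩
        · rintro ⟨y, hy⟩
          obtain ⟨y, rfl⟩ := Submodule.mkQ_surjective _ y
          rw [← hy]
          exact y.2
      have hT₁ : KilledPow F T₁ := (subQuot_killedPow F).sub T₁ (cokM c) f₁ hf₁ hkp
      have hadd := hχ.add T₁ (cokM c) T f₁ g₁ hf₁ hg₁ hex₁ hkp
      -- finite free resolution of `T₁`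
      have hffr : FFR (n + 1) T₁ := by
        let f₂ : (FGMod.of S (Fin k → S)) →ₗ[S] FGMod.of S (LinearMap.ker p) :=
          LinearMap.codRestrict _ c.mulVecLin (fun v => hle ⟨v, rfl⟩)
        refine FFR.coker n (FGMod.of S (Fin k → S)) (FGMod.of S (LinearMap.ker p)) T₁ f₂
          (Submodule.mkQ _) ?_ (Submodule.mkQ_surjective _) ?_ ?_ hK
        · rw [injective_iff_map_eq_zero]
          intro v hv
          have : c.mulVecLin v = 0 := congrArg Subtype.val hv
          rw [hcv] at this
          exact (smul_eq_zero.mp this).resolve_left hFe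
        · intro x
          rw [Submodule.mkQ_apply, Submodule.Quotient.mk_eq_zero]
          constructor
          · rintro ⟨v, hv⟩
            exact ⟨v, Subtype.ext hv⟩
          · rintro ⟨v, hv⟩
            exact ⟨v, congrArg Subtype.val hv⟩
        · exact FFR.of_free n _ (inferInstanceAs (Module.Free S (Fin k → S)))
      have ih := ffr_mem_range n T₁ hT₁ hffr
      have h2 := cokM_mem_range (L := L) F hF hχ k c (finv_smul_one F e)
      have h3 : χ T = χ (cokM c) - χ T₁ := by rw [hadd]; abel
      rw [h3]
      exact AddSubgroup.sub_mem _ h2 ih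

include hF hχ in
theorem mem_range_of_allFFR (hS : AllFFR S) (T : FGMod S) (hT : KilledPow F T) :
    χ T ∈ (bdryHom L F hF χ hχ).range := by
  obtain ⟨n, hn⟩ := hS T
  exact ffr_mem_range F hF hχ n T hT (FFR.succ n T hn)

end Pool.Agent.Helper11
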