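import Pool.Agent.Helper11.KosStep

/-!
# Dehomogenisation
-/

namespace Pool.Agent.Helper11

universe u

open Function

section twist

variable {R : Type u} [CommRing R]

/-- the polynomial module with the action twisted by `ρ` -/
def Tw (_ρ : R →+* Polynomial R) (N : Type u) [AddCommGroup N] [Module R N] : Type u :=
  PolynomialModule R N

variable (ρ : R →+* Polynomial R) (N : Type u) [AddCommGroup N] [Module R N]

noncomputable instance : AddCommGroup (Tw ρ N) := inferInstanceAs (AddCommGroup (PolynomialModule R N))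

noncomputable instance : Module (Polynomial R) (Tw ρ N) :=
  inferInstanceAs (Module (Polynomial R) (PolynomialModule R N))

noncomputable instance : Module R (Tw ρ N) := Module.compHom _ ρ

variable {N}

/-- monomials -/
noncomputable def sgl (k : ℕ) (n : N) : Tw ρ N := PolynomialModule.single R k n

lemma tw_smul (r : R) (f : Tw ρ N) : r • f = ρ r • f := rfl

lemma mon_smul_sgl (r : R) (j k : ℕ) (n : N) :
    (Polynomial.C r * Polynomial.X ^ j : Polynomial R) • sgl ρ k n = sgl ρ (j + k) (r • n) := by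
  rw [Polynomial.C_mul_X_pow_eq_monomial]
  exact PolynomialModule.monomial_smul_single j r k n

/-- the sum of the coefficients -/
noncomputable def sumc : Tw ρ N →+ N :=
  (PolynomialModule.eval (R := R) (M := N) (1 : R)).toAddMonoidHom

lemma sumc_sgl (k : ℕ) (n : N) : sumc ρ (sgl ρ k n) = n := by
  refine (PolynomialModule.eval_single (1 : R) k n).trans ?_
  rw [one_pow, one_smul]

lemma sumc_smul (f : Polynomial R) (x : Tw ρ N) : sumc ρ (f • x) = f.eval 1 • sumc ρ x :=
  PolynomialModule.eval_smul f x 1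

lemma sgl_add (k : ℕ) (m n : N) : sgl ρ k (m + n) = sgl ρ k m + sgl ρ k n :=
  PolynomialModule.single_add k m n

lemma sgl_zero (k : ℕ) : sgl ρ k (0 : N) = 0 :=
  PolynomialModule.single_zero k

lemma sgl_neg (k : ℕ) (n : N) : sgl ρ k (-n) = - sgl ρ k n := by
  rw [eq_neg_iff_add_eq_zero, ← sgl_add, neg_add_cancel, sgl_zero]

lemma C_smul_eq_zero {r : R} (hr : ∀ n : N, r • n = 0) (x : Tw ρ N) (d : ℕ) :
    (Polynomial.C r * Polynomial.X ^ d : Polynomial R) • x = 0 := by
  have : ∀ y : PolynomialModule R N,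
      (Polynomial.C r * Polynomial.X ^ d : Polynomial R) • y = 0 := by
    intro y
    induction y using PolynomialModule.induction_linear with
    | zero => rw [smul_zero]
    | add p q hp hq => rw [smul_add, hp, hq, add_zero]
    | single n m =>
        refine (mon_smul_sgl ρ r d n m).trans ?_
        rw [hr, sgl_zero]
        rfl
  exact this x

/-- the action of a variable of weight one which acts as the identity is a nonzerodivisor
minus one -/
lemma tw_inj {u : R} (hu : ρ u = Polynomial.C u * Polynomial.X ^ 1) (hN : ∀ n : N, u • n = n)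
    (x : Tw ρ N) (hx : (u - 1) • x = 0) : x = 0 := by
  have h1 : (Polynomial.C u * Polynomial.X ^ 1 : Polynomial R) • x = x := by
    rw [sub_smul, one_smul, sub_eq_zero, tw_smul, hu] at hx
    exact hx
  have h2 : ∀ k, (show PolynomialModule R N from x).coeff k = 0 := by
    intro k
    have h3 : ∀ k, ((Polynomial.monomial 1 u) • (show PolynomialModule R N from x)).coeff k =
        (show PolynomialModule R N from x).coeff k := by
      intro k
      rw [← Polynomial.C_mul_X_pow_eq_monomial]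
      exact congrArg (fun y : PolynomialModule R N => y.coeff k) h1
    induction k with
    | zero =>
        rw [← h3, PolynomialModule.monomial_smul_apply, if_neg (by omega)]
    | succ k ih =>
        rw [← h3, PolynomialModule.monomial_smul_apply, if_pos (by omega), hN,
          Nat.add_sub_cancel, ih]
  apply PolynomialModule.coeff_injective
  ext k
  exact h2 k

end twist

section lift

open MvPolynomial

variable {k : Type u} [CommRing k] {τ : Type} (w : τ → ℕ)

/-- the homogenising homomorphism `Xᵢ ↦ Xᵢ T ^ {wᵢ}` -/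
noncomputable def homog : MvPolynomial τ k →+* Polynomial (MvPolynomial τ k) :=
  eval₂Hom (Polynomial.C.comp C) (fun i => Polynomial.C (X i) * Polynomial.X ^ (w i))

lemma homog_C (a : k) : homog w (C a : MvPolynomial τ k) = Polynomial.C (C a) := by
  simp [homog]

lemma homog_X (i : τ) : homog w (X i : MvPolynomial τ k) = Polynomial.C (X i) * Polynomial.X ^ (w i) := by
  simp [homog]

lemma homog_eval (p : MvPolynomial τ k) : (homog w p).eval 1 = p := by
  have : ((Polynomial.evalRingHom (1 : MvPolynomial τ k)).comp (homog w)) = RingHom.id _ := by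
    apply MvPolynomial.ringHom_ext
    · intro r; simp [homog]
    · intro i; simp [homog]
  exact RingHom.congr_fun this p

theorem exists_dehom_lift' (i₀ : τ) (hw : w i₀ = 1)
    (ρ : MvPolynomial τ k →+* Polynomial (MvPolynomial τ k))
    (hρC : ∀ a : k, ρ (C a) = Polynomial.C (C a))
    (hρX : ∀ i : τ, ρ (X i) = Polynomial.C (X i) * Polynomial.X ^ (w i))
    (hρe : ∀ p, (ρ p).eval 1 = p)
    (G : Set (MvPolynomial τ k))
    (hG : ∀ g ∈ G, ∃ d, ρ g = Polynomial.C g * Polynomial.X ^ d)
    (N : FGMod (MvPolynomial τ k)) (hN : KilledBy (Ideal.span G) N)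
    (hN' : ∀ n : N, (X i₀ : MvPolynomial τ k) • n = n) :
    ∃ (M : FGMod (MvPolynomial τ k)) (q : M →ₗ[MvPolynomial τ k] N), KilledBy (Ideal.span G) M ∧
      (∀ m : M, (X i₀ - 1 : MvPolynomial τ k) • m = 0 → m = 0) ∧ Surjective q ∧
      (∀ m : M, q m = 0 → ∃ m', m = (X i₀ - 1 : MvPolynomial τ k) • m') := by
  classical
  let R := MvPolynomial τ k
  obtain ⟨u, hu⟩ : ∃ u : R, u = X i₀ := ⟨_, rfl⟩
  rw [← hu] at hN' ⊢
  have hρu : ρ u = Polynomial.C u * Polynomial.X ^ 1 := by rw [hu, hρX, hw]
  obtain ⟨s, hs⟩ := (inferInstance : Module.Finite R N).fg_top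
  let gen : Finset (Tw ρ N) := s.image (sgl ρ 0)
  let P : Submodule R (Tw ρ N) := Submodule.span R (gen : Set (Tw ρ N))
  haveI : Module.Finite R P := Module.Finite.span_finset R gen
  have husgl : ∀ (j : ℕ) (n : N), u • sgl ρ j n = sgl ρ (j + 1) n := by
    intro j n
    rw [tw_smul, hρu, mon_smul_sgl, hN' n, add_comm]
  -- homogeneous elements
  let Hom : Set (Tw ρ N) := {y | y ∈ P ∧ ∃ (j : ℕ) (n : N), y = sgl ρ j n}
  have hsm : ∀ (r : R) (x : Tw ρ N), x ∈ AddSubgroup.closure Hom →
      r • x ∈ AddSubgroup.closure Hom := by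
    intro r x hx
    have hC : ∀ (c : R) (d : ℕ), ρ c = Polynomial.C c * Polynomial.X ^ d → ∀ x,
        x ∈ AddSubgroup.closure Hom → c • x ∈ AddSubgroup.closure Hom := by
      intro c d hc x hx
      induction hx using AddSubgroup.closure_induction with
      | mem y hy =>
          obtain ⟨hyP, j, n, rfl⟩ := hy
          refine AddSubgroup.subset_closure ⟨P.smul_mem c hyP, d + j, c • n, ?_⟩
          rw [tw_smul, hc, mon_smul_sgl]
      | zero => rw [smul_zero]; exact zero_mem _
      | add y z _ _ hy hz => rw [smul_add]; exact add_mem hy hz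
      | neg y _ hy => rw [smul_neg]; exact neg_mem hy
    induction r using MvPolynomial.induction_on generalizing x with
    | C a => exact hC (C a) 0 (by rw [hρC, pow_zero, mul_one]) x hx
    | add p q hp hq => rw [add_smul]; exact add_mem (hp x hx) (hq x hx)
    | mul_X p i hp =>
        rw [mul_smul]
        exact hp _ (hC (X i) (w i) (hρX i) x hx)
  have hPH : ∀ x ∈ P, x ∈ AddSubgroup.closure Hom := by
    intro x hx
    induction hx using Submodule.span_induction with
    | mem x h =>
        refine AddSubgroup.subset_closure ⟨Submodule.subset_span h, 0, ?_⟩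
        obtain ⟨n, -, rfl⟩ := Finset.mem_image.mp (Finset.mem_coe.mp h)
        exact ⟨n, rfl⟩
    | zero => exact zero_mem _
    | add x y _ _ hx hy => exact add_mem hx hy
    | smul r x _ hx => exact hsm r x hx
  have hB : ∀ x ∈ AddSubgroup.closure Hom, ∃ d₀ : ℕ, ∀ d, d₀ ≤ d →
      ∃ m ∈ P, x - sgl ρ d (sumc ρ x) = (u - 1) • m := by
    intro x hx
    induction hx using AddSubgroup.closure_induction with
    | mem y hy =>
        obtain ⟨hyP, j, n, rfl⟩ := hy
        refine ⟨j, fun d hd => ?_⟩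
        obtain ⟨i, rfl⟩ := Nat.exists_eq_add_of_le hd
        rw [sumc_sgl]
        suffices h : sgl ρ (j + i) n ∈ P ∧ ∃ m ∈ P, sgl ρ j n - sgl ρ (j + i) n = (u - 1) • m from
          h.2
        clear hd
        induction i with
        | zero => exact ⟨hyP, 0, P.zero_mem, by simp⟩
        | succ i ih =>
            obtain ⟨h1, m, hm, h2⟩ := ih
            have h3 : sgl ρ (j + (i + 1)) n = u • sgl ρ (j + i) n := by
              rw [husgl, add_assoc]
            refine ⟨by rw [h3]; exact P.smul_mem _ h1, m - sgl ρ (j + i) n, P.sub_mem hm h1, ?_⟩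
            rw [smul_sub, ← h2, sub_smul u 1 (sgl ρ (j + i) n), one_smul, h3]
            abel
    | zero => exact ⟨0, fun d _ => ⟨0, P.zero_mem, by rw [map_zero, sgl_zero]; simp⟩⟩
    | add y z _ _ hy hz =>
        obtain ⟨d₁, h₁⟩ := hy
        obtain ⟨d₂, h₂⟩ := hz
        refine ⟨max d₁ d₂, fun d hd => ?_⟩
        obtain ⟨m₁, hm₁, e₁⟩ := h₁ d (le_trans (le_max_left _ _) hd)
        obtain ⟨m₂, hm₂, e₂⟩ := h₂ d (le_trans (le_max_right _ _) hd)
        refine ⟨m₁ + m₂, P.add_mem hm₁ hm₂, ?_⟩
        rw [smul_add, ← e₁, ← e₂, map_add, sgl_add]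
        abel
    | neg y _ hy =>
        obtain ⟨d₁, h₁⟩ := hy
        refine ⟨d₁, fun d hd => ?_⟩
        obtain ⟨m₁, hm₁, e₁⟩ := h₁ d hd
        refine ⟨-m₁, P.neg_mem hm₁, ?_⟩
        rw [smul_neg, ← e₁, map_neg, sgl_neg]
        abel
  let q : P →ₗ[R] N :=
    { toFun := fun x => sumc ρ (x : Tw ρ N)
      map_add' := fun x y => by rw [Submodule.coe_add, map_add]
      map_smul' := fun r x => by
        rw [Submodule.coe_smul, tw_smul, sumc_smul, hρe]
        rfl }
  refine ⟨FGMod.of R P, q, ?_, ?_, ?_, ?_⟩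
  · -- killed by the homogeneous ideal
    intro r hr m
    induction hr using Submodule.span_induction with
    | mem g hg =>
        obtain ⟨d, hd⟩ := hG g hg
        apply Subtype.ext
        rw [Submodule.coe_smul, tw_smul, hd]
        exact C_smul_eq_zero _ (fun n => hN g (Ideal.subset_span hg) n) _ d
    | zero => exact zero_smul _ _
    | add x y _ _ hx hy => rw [add_smul, hx, hy, add_zero]
    | smul a x _ hx => rw [smul_eq_mul, mul_smul, hx, smul_zero]
  · intro m hm
    apply Subtype.ext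
    have := congrArg Subtype.val hm
    rw [Submodule.coe_smul] at this
    exact tw_inj ρ hρu hN' _ this
  · rw [← LinearMap.range_eq_top, eq_top_iff, ← hs, Submodule.span_le]
    intro n hn
    refine ⟨⟨sgl ρ 0 n, Submodule.subset_span ?_⟩, sumc_sgl ρ 0 n⟩
    exact Finset.mem_coe.mpr (Finset.mem_image_of_mem _ hn)
  · rintro ⟨x, hx⟩ hq
    have hq' : sumc ρ x = 0 := hq
    obtain ⟨d₀, hd₀⟩ := hB x (hPH x hx)
    obtain ⟨m, hm, e⟩ := hd₀ d₀ le_rfl
    rw [hq', sgl_zero, sub_zero] at e
    exact ⟨⟨m, hm⟩, Subtype.ext e⟩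

theorem exists_dehom_lift (i₀ : τ) (hw : w i₀ = 1)
    (G : Set (MvPolynomial τ k))
    (hG : ∀ g ∈ G, ∃ d, homog w g = Polynomial.C g * Polynomial.X ^ d)
    (N : FGMod (MvPolynomial τ k)) (hN : KilledBy (Ideal.span G) N)
    (hN' : ∀ n : N, (X i₀ : MvPolynomial τ k) • n = n) :
    ∃ (M : FGMod (MvPolynomial τ k)) (q : M →ₗ[MvPolynomial τ k] N), KilledBy (Ideal.span G) M ∧
      (∀ m : M, (X i₀ - 1 : MvPolynomial τ k) • m = 0 → m = 0) ∧ Surjective q ∧
      (∀ m : M, q m = 0 → ∃ m', m = (X i₀ - 1 : MvPolynomial τ k) • m') :=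
  exists_dehom_lift' w i₀ hw (homog w) (homog_C w) (homog_X w) (homog_eval w) G hG N hN hN'

end lift

section step

variable {R : Type u} [CommRing R] [IsNoetherianRing R] {Γ : Type*} [AddCommGroup Γ]

/-- passing from modules killed by `K` and `t` to modules killed by `K` -/
theorem elem_step (K : Ideal R) (t : R) {χ : FGMod R → Γ}
    (hχ : IsAdd (KilledBy (K ⊔ Ideal.span {t})) χ) :
    ∃ χ' : FGMod R → Γ, IsAdd (KilledBy K) χ' ∧
      ∀ (M N : FGMod R) (q : M →ₗ[R] N), KilledBy K M → (∀ m : M, t • m = 0 → m = 0) →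
        Surjective q → (∀ m : M, q m = 0 ↔ ∃ m', m = t • m') → χ' M = χ N := by
  let φ : Matrix Unit Unit R := t • 1
  let ψ : Matrix Unit Unit R := 0
  have hφ : ∀ (M : FGMod R) (v : Unit → M), act φ M v = t • v := fun M v => act_smul_one t v
  have hψ : ∀ (M : FGMod R) (v : Unit → M), act ψ M v = 0 := fun M v => act_zero v
  have hc : CompK K ψ φ := by
    intro M _
    refine ⟨fun y => ?_, fun y => ?_⟩
    · rw [hψ]
    · rw [hψ, map_zero]
  obtain ⟨I, hI⟩ := nullK_ideal K ψ φ
  have hJ : ∀ s ∈ K ⊔ Ideal.span {t}, NullK K ψ φ s := by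
    intro s hs
    rw [← hI]
    refine (sup_le (fun s hs => ?_) ?_ : K ⊔ Ideal.span {t} ≤ I) hs
    · rw [hI]
      refine ⟨0, 0, fun M hM => ⟨fun y => ?_, fun y => ?_⟩⟩
      · rw [act_zero, hψ, add_zero]
        ext i
        exact hM s hs _
      · rw [act_zero, act_zero, map_zero, add_zero]
        ext i
        exact hM s hs _
    · rw [Ideal.span_le, Set.singleton_subset_iff, SetLike.mem_coe, hI]
      refine NullH.nullK ⟨1, 0, ?_, ?_⟩
      · simp [φ, ψ]
      · simp [φ, ψ]
  refine ⟨perχ χ ψ φ, isAdd_perχ hχ ψ φ hJ hc, ?_⟩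
  intro M N q hM hinj hq hker
  unfold perχ
  rw [χ_perH_zero hχ φ ψ M (fun v hv => ⟨0, ?_⟩)
    (perH_killed φ ψ (fun s hs => (hJ s hs).symm) M hM), sub_zero]
  · refine χ_perH_eq hχ ψ φ M N (LinearMap.pi (fun _ => LinearMap.id)) (fun m => hψ M _) ?_ q hq ?_
      (perH_killed ψ φ hJ M hM)
    · intro v _
      refine ⟨v (), 0, ?_⟩
      rw [map_zero, add_zero]
      rfl
    · intro m
      rw [hker]
      constructor
      · rintro ⟨v, hv⟩
        rw [hφ] at hv
        exact ⟨v (), (congrFun hv ()).symm⟩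
      · rintro ⟨m', rfl⟩
        exact ⟨fun _ => m', by rw [hφ]; rfl⟩
  · rw [map_zero]
    rw [hφ] at hv
    ext i
    exact (hinj _ (congrFun hv i)).symm

open MvPolynomial in
theorem dehom_step {k : Type u} [CommRing k] [IsNoetherianRing k] {τ : Type} [Finite τ]
    (w : τ → ℕ) (i₀ : τ) (hw : w i₀ = 1) (G : Set (MvPolynomial τ k))
    (hG : ∀ g ∈ G, ∃ d, homog w g = Polynomial.C g * Polynomial.X ^ d)
    {χ : FGMod (MvPolynomial τ k) → Γ}
    (hχ : IsAdd (KilledBy (Ideal.span G ⊔ Ideal.span {X i₀ - 1})) χ) :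
    ∃ χ' : FGMod (MvPolynomial τ k) → Γ, IsAdd (KilledBy (Ideal.span G)) χ' ∧
      ∀ N : FGMod (MvPolynomial τ k), KilledBy (Ideal.span G ⊔ Ideal.span {X i₀ - 1}) N →
        ∃ M : FGMod (MvPolynomial τ k), KilledBy (Ideal.span G) M ∧ χ' M = χ N := by
  obtain ⟨χ', hχ', h⟩ := elem_step (Ideal.span G) (X i₀ - 1 : MvPolynomial τ k) hχ
  refine ⟨χ', hχ', fun N hN => ?_⟩
  have hk : ∀ n : N, (X i₀ - 1 : MvPolynomial τ k) • n = 0 := fun n =>
    hN _ (Ideal.mem_sup_right (Ideal.mem_span_singleton_self _)) n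
  obtain ⟨M, q, h1, h2, h3, h4⟩ := exists_dehom_lift w i₀ hw G hG N
    (fun s hs => hN s (Ideal.mem_sup_left hs))
    (fun n => by
      have := hk n
      rw [sub_smul, one_smul, sub_eq_zero] at this
      exact this)
  refine ⟨M, h1, h M N q h1 h2 h3 (fun m => ⟨h4 m, ?_⟩)⟩
  rintro ⟨m', rfl⟩
  rw [map_smul, hk]

end step

end Pool.Agent.Helper11
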