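import Pool.Agent.Helper11.SubQ

/-!
# Two-periodic homology of a module with respect to a pair of matrices
-/

namespace Pool.Agent.Helper11

universe u

open Function

section act

variable {S : Type u} [CommRing S] {ι κ μ : Type} [Fintype ι] [Fintype κ] [Fintype μ]

/-- the action of a matrix on tuples of module elements -/
def act (a : Matrix κ ι S) (M : Type u) [AddCommGroup M] [Module S M] :
    (ι → M) →ₗ[S] (κ → M) where
  toFun v i := ∑ j, a i j • v j
  map_add' v w := by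
    ext i
    simp [Finset.sum_add_distrib]
  map_smul' r v := by
    ext i
    simp only [Pi.smul_apply, RingHom.id_apply, Finset.smul_sum]
    exact Finset.sum_congr rfl (fun j _ => smul_comm _ _ _)

variable {M N : Type u} [AddCommGroup M] [Module S M] [AddCommGroup N] [Module S N]

omit [Fintype κ] in
lemma act_apply (a : Matrix κ ι S) (v : ι → M) (i : κ) : act a M v i = ∑ j, a i j • v j := rfl

omit [Fintype μ] in
lemma act_mul (a : Matrix μ κ S) (b : Matrix κ ι S) (v : ι → M) :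
    act (a * b) M v = act a M (act b M v) := by
  ext i
  simp only [act_apply, Matrix.mul_apply, Finset.sum_smul, Finset.smul_sum, mul_smul]
  exact Finset.sum_comm

omit [Fintype κ] in
lemma act_add (a b : Matrix κ ι S) (v : ι → M) :
    act (a + b) M v = act a M v + act b M v := by
  ext i
  simp [act_apply, add_smul, Finset.sum_add_distrib]

omit [Fintype κ] in
lemma act_neg (a : Matrix κ ι S) (v : ι → M) :
    act (-a) M v = - act a M v := by
  ext i
  simp [act_apply, neg_smul]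

lemma act_smul_one [DecidableEq ι] (r : S) (v : ι → M) :
    act (r • (1 : Matrix ι ι S)) M v = r • v := by
  ext i
  simp [act_apply, Matrix.one_apply]

/-- the induced map on tuples -/
def tup (ι : Type) (f : M →ₗ[S] N) : (ι → M) →ₗ[S] (ι → N) := f.compLeft ι

omit [Fintype ι] in
lemma tup_apply (f : M →ₗ[S] N) (v : ι → M) (i : ι) : tup ι f v i = f (v i) := rfl

omit [Fintype κ] in
lemma act_tup (a : Matrix κ ι S) (f : M →ₗ[S] N) (v : ι → M) :
    act a N (tup ι f v) = tup κ f (act a M v) := by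
  ext i
  simp [act_apply, tup_apply]

end act

variable {S : Type u} [CommRing S] [IsNoetherianRing S]
  {ι₀ ι₁ : Type} [Fintype ι₀] [Fintype ι₁] [DecidableEq ι₀] [DecidableEq ι₁]

/-- one of the two homology modules of the two-periodic complex -/
abbrev perH (φ : Matrix ι₁ ι₀ S) (ψ : Matrix ι₀ ι₁ S) (M : FGMod S) : FGMod S :=
  qt (T := FGMod.of S (ι₀ → M)) (LinearMap.ker (act φ M)) (LinearMap.range (act ψ M))

/-- multiplication by `t` is null homotopic -/
def NullH (φ : Matrix ι₁ ι₀ S) (ψ : Matrix ι₀ ι₁ S) (t : S) : Prop :=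
  ∃ (A : Matrix ι₁ ι₀ S) (B : Matrix ι₀ ι₁ S), A * ψ + φ * B = t • (1 : Matrix ι₁ ι₁ S) ∧
    B * φ + ψ * A = t • (1 : Matrix ι₀ ι₀ S)

/-- multiplication by `t` is null homotopic on modules killed by `K` -/
def NullK (K : Ideal S) (φ : Matrix ι₁ ι₀ S) (ψ : Matrix ι₀ ι₁ S) (t : S) : Prop :=
  ∃ (A : Matrix ι₁ ι₀ S) (B : Matrix ι₀ ι₁ S), ∀ M : FGMod S, KilledBy K M →
    (∀ y : ι₁ → M, t • y = act A M (act ψ M y) + act φ M (act B M y)) ∧
    (∀ y : ι₀ → M, t • y = act B M (act φ M y) + act ψ M (act A M y))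

/-- the two compositions vanish on modules killed by `K` -/
def CompK (K : Ideal S) (φ : Matrix ι₁ ι₀ S) (ψ : Matrix ι₀ ι₁ S) : Prop :=
  ∀ M : FGMod S, KilledBy K M →
    (∀ y : ι₁ → M, act φ M (act ψ M y) = 0) ∧ (∀ y : ι₀ → M, act ψ M (act φ M y) = 0)

omit [IsNoetherianRing S] [DecidableEq ι₀] [DecidableEq ι₁] in
lemma NullK.symm {K : Ideal S} {φ : Matrix ι₁ ι₀ S} {ψ : Matrix ι₀ ι₁ S} {t : S}
    (h : NullK K φ ψ t) : NullK K ψ φ t := by
  obtain ⟨A, B, h⟩ := h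
  exact ⟨B, A, fun M hM => ⟨(h M hM).2, (h M hM).1⟩⟩

omit [IsNoetherianRing S] [DecidableEq ι₀] [DecidableEq ι₁] in
lemma CompK.symm {K : Ideal S} {φ : Matrix ι₁ ι₀ S} {ψ : Matrix ι₀ ι₁ S}
    (h : CompK K φ ψ) : CompK K ψ φ := fun M hM => ⟨(h M hM).2, (h M hM).1⟩

omit [IsNoetherianRing S] in
lemma NullH.nullK {K : Ideal S} {φ : Matrix ι₁ ι₀ S} {ψ : Matrix ι₀ ι₁ S} {t : S}
    (h : NullH φ ψ t) : NullK K φ ψ t := by
  obtain ⟨A, B, h1, h2⟩ := h
  refine ⟨A, B, fun M _ => ⟨fun y => ?_, fun y => ?_⟩⟩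
  · rw [← act_mul, ← act_mul, ← act_add, h1, act_smul_one]
  · rw [← act_mul, ← act_mul, ← act_add, h2, act_smul_one]

omit [IsNoetherianRing S] in
lemma compK_of_mul {c : S} {φ : Matrix ι₁ ι₀ S} {ψ : Matrix ι₀ ι₁ S}
    (hc : φ * ψ = c • (1 : Matrix ι₁ ι₁ S)) (hc' : ψ * φ = c • (1 : Matrix ι₀ ι₀ S)) :
    CompK (Ideal.span {c}) φ ψ := by
  intro M hM
  have hcM : ∀ m : M, c • m = 0 := fun m => hM c (Ideal.mem_span_singleton_self c) m
  refine ⟨fun y => ?_, fun y => ?_⟩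
  · rw [← act_mul, hc, act_smul_one]
    ext i
    exact hcM _
  · rw [← act_mul, hc', act_smul_one]
    ext i
    exact hcM _

omit [IsNoetherianRing S] [DecidableEq ι₀] [DecidableEq ι₁] in
/-- the null homotopic elements form an ideal -/
lemma nullK_ideal (K : Ideal S) (φ : Matrix ι₁ ι₀ S) (ψ : Matrix ι₀ ι₁ S) :
    ∃ I : Ideal S, ∀ t, t ∈ I ↔ NullK K φ ψ t := by
  refine ⟨{ carrier := {t | NullK K φ ψ t}, add_mem' := ?_, zero_mem' := ?_, smul_mem' := ?_ },
    fun t => Iff.rfl⟩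
  · rintro t t' ⟨A, B, h⟩ ⟨A', B', h'⟩
    refine ⟨A + A', B + B', fun M hM => ⟨fun y => ?_, fun y => ?_⟩⟩
    · rw [add_smul, (h M hM).1, (h' M hM).1, act_add, act_add, map_add]; abel
    · rw [add_smul, (h M hM).2, (h' M hM).2, act_add, act_add, map_add]; abel
  · refine ⟨0, 0, fun M hM => ⟨fun y => ?_, fun y => ?_⟩⟩
    · have h0 : ∀ y : ι₁ → M, act (0 : Matrix ι₀ ι₁ S) M y = 0 := fun y => by
        ext i; simp [act_apply]
      have h0' : ∀ y : ι₀ → M, act (0 : Matrix ι₁ ι₀ S) M y = 0 := fun y => by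
        ext i; simp [act_apply]
      rw [h0, h0', map_zero, add_zero, zero_smul]
    · have h0 : ∀ y : ι₁ → M, act (0 : Matrix ι₀ ι₁ S) M y = 0 := fun y => by
        ext i; simp [act_apply]
      have h0' : ∀ y : ι₀ → M, act (0 : Matrix ι₁ ι₀ S) M y = 0 := fun y => by
        ext i; simp [act_apply]
      rw [h0, h0', map_zero, add_zero, zero_smul]
  · rintro r t ⟨A, B, h⟩
    have hr : ∀ {M : FGMod S} {κ ι : Type} [Fintype ι] (A : Matrix κ ι S) (y : ι → M),
        act (r • A) M y = r • act A M y := by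
      intro M κ ι _ A y
      ext i
      simp [act_apply, Finset.smul_sum, mul_smul]
    refine ⟨r • A, r • B, fun M hM => ⟨fun y => ?_, fun y => ?_⟩⟩
    · rw [smul_eq_mul, mul_smul, (h M hM).1, hr, hr, map_smul, smul_add]
    · rw [smul_eq_mul, mul_smul, (h M hM).2, hr, hr, map_smul, smul_add]

section

variable {Γ : Type*} [AddCommGroup Γ] {J K : Ideal S} {χ : FGMod S → Γ}
  (hχ : IsAdd (KilledBy J) χ)
  (φ : Matrix ι₁ ι₀ S) (ψ : Matrix ι₀ ι₁ S)

omit [DecidableEq ι₀] [DecidableEq ι₁] in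
lemma perH_killed (hJ : ∀ t ∈ J, NullK K φ ψ t) (M : FGMod S) (hM : KilledBy K M) :
    KilledBy J (perH φ ψ M) := by
  rw [killedBy_qt_iff]
  intro s hs x hx
  obtain ⟨A, B, h⟩ := hJ s hs
  have := (h M hM).2 x
  rw [this, LinearMap.mem_ker.mp hx, map_zero, zero_add]
  exact ⟨_, rfl⟩

variable {M' M M'' : FGMod S} (f : M' →ₗ[S] M) (g : M →ₗ[S] M'') (hf : Injective f)
  (hg : Surjective g) (hfg : Exact f g)

omit [IsNoetherianRing S] [DecidableEq ι₀] [Fintype ι₀] in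
include hf in
lemma tup_inj : Injective (tup ι₀ f) := fun v w h => by
  ext i
  exact hf (congrFun h i)

omit [IsNoetherianRing S] [DecidableEq ι₀] [Fintype ι₀] in
include hg in
lemma tup_surj : Surjective (tup ι₀ g) := fun v => by
  choose w hw using fun i => hg (v i)
  exact ⟨w, funext hw⟩

omit [IsNoetherianRing S] [DecidableEq ι₀] [Fintype ι₀] in
include hfg in
lemma tup_exact (v : ι₀ → M) : tup ι₀ g v = 0 ↔ ∃ w, tup ι₀ f w = v := by
  constructor
  · intro h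
    have : ∀ i, ∃ w, f w = v i := fun i => (hfg (v i)).mp (congrFun h i)
    choose w hw using this
    exact ⟨w, funext hw⟩
  · rintro ⟨w, rfl⟩
    ext i
    exact hfg.apply_apply_eq_zero _

omit [DecidableEq ι₀] [DecidableEq ι₁] in
include hχ hf hg hfg in
/-- first half of the hexagon -/
lemma hex_A (hJ : ∀ t ∈ J, NullK K φ ψ t) (hc : CompK K φ ψ) (hM : KilledBy K M) :
    χ (perH φ ψ M') + χ (perH φ ψ M'') = χ (perH φ ψ M) +
      χ (qt (T := FGMod.of S (ι₀ → M))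
        (LinearMap.range (act ψ M) ⊓ LinearMap.ker (tup ι₀ g))
        ((LinearMap.ker (tup ι₁ g)).map (act ψ M))) +
      χ (qt (T := FGMod.of S (ι₀ → M'')) (LinearMap.ker (act φ M''))
        ((LinearMap.ker (act φ M)).map (tup ι₀ g))) := by
  -- notation
  let T₀ : FGMod S := FGMod.of S (ι₀ → M)
  let T₀'' : FGMod S := FGMod.of S (ι₀ → M'')
  let Z : Submodule S T₀ := LinearMap.ker (act φ M)
  let B : Submodule S T₀ := LinearMap.range (act ψ M)
  let U : Submodule S T₀ := LinearMap.ker (tup ι₀ g)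
  let U₁ : Submodule S (ι₁ → M) := LinearMap.ker (tup ι₁ g)
  let V : Submodule S T₀ := U₁.map (act ψ M)
  have hM' : KilledBy K M' := (subQuot_killedBy K).sub M' M f hf hM
  have hM'' : KilledBy K M'' := (subQuot_killedBy K).quot M M'' g hg hM
  have hkilled : KilledBy J (perH φ ψ M) := perH_killed φ ψ hJ M hM
  have hBZ : B ≤ Z := by
    rintro _ ⟨y, rfl⟩
    exact (hc M hM).1 y
  -- the image of `M'`
  have e1 : χ (perH φ ψ M') = χ (qt (T := T₀) (Z ⊓ U) V) := by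
    have h1 := q_map hχ (T := T₀) (T' := FGMod.of S (ι₀ → M')) (tup ι₀ f) (tup_inj f hf)
      (LinearMap.ker (act φ M')) (LinearMap.range (act ψ M')) (perH_killed φ ψ hJ M' hM')
    rw [h1]
    congr 1
    have hZ : (LinearMap.ker (act φ M')).map (tup ι₀ f) = Z ⊓ U := by
      ext v
      constructor
      · rintro ⟨w, hw, rfl⟩
        refine ⟨?_, (tup_exact f g hfg _).mpr ⟨w, rfl⟩⟩
        change act φ M (tup ι₀ f w) = 0
        rw [act_tup, LinearMap.mem_ker.mp hw, map_zero]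
      · rintro ⟨hv, hv'⟩
        obtain ⟨w, rfl⟩ := (tup_exact f g hfg _).mp hv'
        refine ⟨w, ?_, rfl⟩
        apply tup_inj (ι₀ := ι₁) f hf
        rw [← act_tup, map_zero]
        exact hv
    have hV : (LinearMap.range (act ψ M')).map (tup ι₀ f) = V := by
      ext v
      constructor
      · rintro ⟨_, ⟨w, rfl⟩, rfl⟩
        refine ⟨tup ι₁ f w, (tup_exact f g hfg _).mpr ⟨w, rfl⟩, ?_⟩
        rw [act_tup]
      · rintro ⟨w, hw, rfl⟩
        obtain ⟨w, rfl⟩ := (tup_exact f g hfg _).mp hw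
        exact ⟨_, ⟨w, rfl⟩, by rw [act_tup]⟩
    rw [hZ, hV]
  have hVB : V ≤ B ⊓ U := by
    rintro _ ⟨y, hy, rfl⟩
    refine ⟨⟨y, rfl⟩, ?_⟩
    change tup ι₀ g (act ψ M y) = 0
    rw [← act_tup, LinearMap.mem_ker.mp hy, map_zero]
  have hkZU : KilledBy J (qt (T := T₀) (Z ⊓ U) V) := by
    rw [killedBy_qt_iff]
    rintro s hs x ⟨hx, hx'⟩
    obtain ⟨A, B', h⟩ := hJ s hs
    rw [(h M hM).2 x,
      show act φ M x = 0 from hx, map_zero, zero_add]
    refine ⟨act A M x, ?_, rfl⟩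
    change tup ι₁ g (act A M x) = 0
    rw [← act_tup, show tup ι₀ g x = 0 from hx', map_zero]
  have e2 : χ (qt (T := T₀) (Z ⊓ U) V) =
      χ (qt (T := T₀) (B ⊓ U) V) + χ (qt (T := T₀) (Z ⊓ U) (B ⊓ U)) :=
    q_add hχ (inf_le_inf_right _ hBZ) hVB hkZU
  have e3 : χ (perH φ ψ M) = χ (qt (T := T₀) (Z ⊓ U) (B ⊓ U)) +
      χ (qt (T := T₀'') (Z.map (tup ι₀ g)) (B.map (tup ι₀ g))) :=
    q_quot hχ (T := T₀) (T'' := T₀'') (tup ι₀ g) Z B hBZ hkilled
  have hB'' : B.map (tup ι₀ g) = LinearMap.range (act ψ M'') := by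
    ext v
    constructor
    · rintro ⟨_, ⟨w, rfl⟩, rfl⟩
      exact ⟨tup ι₁ g w, by rw [act_tup]⟩
    · rintro ⟨w, rfl⟩
      obtain ⟨w, rfl⟩ := tup_surj (ι₀ := ι₁) g hg w
      exact ⟨_, ⟨w, rfl⟩, by rw [act_tup]⟩
  have hZ'' : Z.map (tup ι₀ g) ≤ LinearMap.ker (act φ M'') := by
    rintro _ ⟨w, hw, rfl⟩
    rw [LinearMap.mem_ker, act_tup, show act φ M w = 0 from hw, map_zero]
  have e4 : χ (perH φ ψ M'') = χ (qt (T := T₀'') (Z.map (tup ι₀ g)) (B.map (tup ι₀ g))) +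
      χ (qt (T := T₀'') (LinearMap.ker (act φ M'')) (Z.map (tup ι₀ g))) := by
    have := q_add hχ (T := T₀'') (A := LinearMap.ker (act φ M'')) (B := Z.map (tup ι₀ g))
      (C := B.map (tup ι₀ g)) hZ'' (Submodule.map_mono hBZ)
      (by rw [hB'']; exact perH_killed φ ψ hJ M'' hM'')
    rw [← this, hB'']
  rw [e1, e2, e3, e4]
  abel

omit [DecidableEq ι₀] [DecidableEq ι₁] in
include hχ hg in
/-- second half of the hexagon -/
lemma hex_B (hJ : ∀ t ∈ J, NullK K φ ψ t) (hc : CompK K φ ψ) (hM : KilledBy K M) :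
      χ (qt (T := FGMod.of S (ι₀ → M))
        (LinearMap.range (act ψ M) ⊓ LinearMap.ker (tup ι₀ g))
        ((LinearMap.ker (tup ι₁ g)).map (act ψ M))) =
      χ (qt (T := FGMod.of S (ι₁ → M'')) (LinearMap.ker (act ψ M''))
        ((LinearMap.ker (act ψ M)).map (tup ι₁ g))) := by
  let T₀ : FGMod S := FGMod.of S (ι₀ → M)
  let T₁ : FGMod S := FGMod.of S (ι₁ → M)
  let T₁'' : FGMod S := FGMod.of S (ι₁ → M'')
  let Z₁ : Submodule S T₁ := LinearMap.ker (act ψ M)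
  let U : Submodule S T₀ := LinearMap.ker (tup ι₀ g)
  let U₁ : Submodule S T₁ := LinearMap.ker (tup ι₁ g)
  let W : Submodule S T₁ := U.comap (act ψ M)
  have hU₁W : U₁ ≤ W := by
    intro y hy
    change tup ι₀ g (act ψ M y) = 0
    rw [← act_tup, show tup ι₁ g y = 0 from hy, map_zero]
  have hZ₁W : Z₁ ≤ W := by
    intro y hy
    change tup ι₀ g (act ψ M y) = 0
    rw [show act ψ M y = 0 from hy, map_zero]
  have hle : Z₁ ⊔ U₁ ≤ W := sup_le hZ₁W hU₁W
  have hk : KilledBy J (qt (T := T₁) W (Z₁ ⊔ U₁)) := by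
    rw [killedBy_qt_iff]
    intro s hs y hy
    obtain ⟨A, B', h⟩ := hJ s hs
    rw [(h M hM).1 y]
    refine Submodule.add_mem _ (Submodule.mem_sup_right ?_) (Submodule.mem_sup_left ?_)
    · change tup ι₁ g (act A M (act ψ M y)) = 0
      rw [← act_tup, show tup ι₀ g (act ψ M y) = 0 from hy, map_zero]
    · change act ψ M (act φ M (act B' M y)) = 0
      exact (hc M hM).2 _
  have e1 := q_quot hχ (T := T₁) (T'' := T₁'') (tup ι₁ g) W (Z₁ ⊔ U₁) hle hk
  have e2 := q_quot hχ (T := T₁) (T'' := T₀) (act ψ M) W (Z₁ ⊔ U₁) hle hk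
  have z1 : χ (qt (T := T₁) (W ⊓ LinearMap.ker (tup ι₁ g))
      ((Z₁ ⊔ U₁) ⊓ LinearMap.ker (tup ι₁ g))) = 0 := by
    refine q_self hχ _ _ ?_ ?_
    · rintro x ⟨_, hx⟩
      exact ⟨Submodule.mem_sup_right hx, hx⟩
    · rw [killedBy_qt_iff]
      rintro s _ x ⟨_, hx⟩
      exact ⟨Submodule.mem_sup_right (Submodule.smul_mem _ _ hx), Submodule.smul_mem _ _ hx⟩
  have z2 : χ (qt (T := T₁) (W ⊓ LinearMap.ker (act ψ M))
      ((Z₁ ⊔ U₁) ⊓ LinearMap.ker (act ψ M))) = 0 := by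
    refine q_self hχ _ _ ?_ ?_
    · rintro x ⟨_, hx⟩
      exact ⟨Submodule.mem_sup_left hx, hx⟩
    · rw [killedBy_qt_iff]
      rintro s _ x ⟨_, hx⟩
      exact ⟨Submodule.mem_sup_left (Submodule.smul_mem _ _ hx), Submodule.smul_mem _ _ hx⟩
  rw [z1, zero_add] at e1
  rw [z2, zero_add] at e2
  have h1 : W.map (tup ι₁ g) = LinearMap.ker (act ψ M'') := by
    ext v
    constructor
    · rintro ⟨w, hw, rfl⟩
      rw [LinearMap.mem_ker, act_tup]
      exact hw
    · intro hv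
      obtain ⟨w, rfl⟩ := tup_surj (ι₀ := ι₁) g hg v
      refine ⟨w, ?_, rfl⟩
      change tup ι₀ g (act ψ M w) = 0
      rw [← act_tup]
      exact hv
  have h2 : (Z₁ ⊔ U₁).map (tup ι₁ g) = Z₁.map (tup ι₁ g) := by
    rw [Submodule.map_sup]
    apply sup_eq_left.mpr
    rintro _ ⟨w, hw, rfl⟩
    rw [show tup ι₁ g w = 0 from hw]
    exact Submodule.zero_mem _
  have h3 : W.map (act ψ M) = LinearMap.range (act ψ M) ⊓ LinearMap.ker (tup ι₀ g) := by
    ext v
    constructor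
    · rintro ⟨w, hw, rfl⟩
      exact ⟨⟨w, rfl⟩, hw⟩
    · rintro ⟨⟨w, rfl⟩, hw⟩
      exact ⟨w, hw, rfl⟩
  have h4 : (Z₁ ⊔ U₁).map (act ψ M) = U₁.map (act ψ M) := by
    rw [Submodule.map_sup]
    apply sup_eq_right.mpr
    rintro _ ⟨w, hw, rfl⟩
    rw [show act ψ M w = 0 from hw]
    exact Submodule.zero_mem _
  rw [h1, h2] at e1
  rw [h3, h4] at e2
  rw [← e1, ← e2]

end

/-- the difference of the classes of the two homology modules -/
noncomputable def perχ {Γ : Type*} [AddCommGroup Γ] (χ : FGMod S → Γ) (φ : Matrix ι₁ ι₀ S)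
    (ψ : Matrix ι₀ ι₁ S) (M : FGMod S) : Γ :=
  χ (perH φ ψ M) - χ (perH ψ φ M)

omit [DecidableEq ι₀] [DecidableEq ι₁] in
theorem isAdd_perχ {Γ : Type*} [AddCommGroup Γ] {J K : Ideal S} {χ : FGMod S → Γ}
    (hχ : IsAdd (KilledBy J) χ) (φ : Matrix ι₁ ι₀ S) (ψ : Matrix ι₀ ι₁ S)
    (hJ : ∀ t ∈ J, NullK K φ ψ t) (hc : CompK K φ ψ) :
    IsAdd (KilledBy K) (perχ χ φ ψ) where
  sq := subQuot_killedBy _
  add M' M M'' f g hf hg hfg hM := by
    have hJ' : ∀ t ∈ J, NullK K ψ φ t := fun t ht => (hJ t ht).symm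
    have a0 := hex_A hχ φ ψ f g hf hg hfg hJ hc hM
    have a1 := hex_A hχ ψ φ f g hf hg hfg hJ' hc.symm hM
    have b0 := hex_B hχ φ ψ g hg hJ hc hM
    have b1 := hex_B hχ ψ φ g hg hJ' hc.symm hM
    unfold perχ
    rw [b0] at a0
    rw [b1] at a1
    have := congrArg₂ (· - ·) a0 a1
    simp only at this
    have h2 : χ (perH φ ψ M) - χ (perH ψ φ M) =
      (χ (perH φ ψ M') + χ (perH φ ψ M'')) - (χ (perH ψ φ M') + χ (perH ψ φ M'')) := by
      rw [this]; abel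
    rw [h2]; abel

end Pool.Agent.Helper11
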