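import Pool.Agent.Helper11.KDefs

/-!
# The group `K₁` of a commutative ring
-/

namespace Pool.Agent.Helper11

universe u

open Matrix

namespace K1

variable {A : Type u} [CommRing A]

/-- the class of a matrix in `K₁` -/
def mk (n : ℕ) (α : GL (Fin n) A) : K1 A :=
  QuotientAddGroup.mk (FreeAbelianGroup.of ⟨n, α⟩)

variable {Γ : Type*} [AddCommGroup Γ]

/-- homomorphisms out of `K₁` -/
noncomputable def lift (d : ∀ n : ℕ, GL (Fin n) A → Γ) (hmul : ∀ n α β, d n (α * β) = d n α + d n β)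
    (hstab : ∀ n α, d (n + 1) (stab A n α) = d n α) : K1 A →+ Γ :=
  QuotientAddGroup.lift _ (FreeAbelianGroup.lift fun x : (Σ n : ℕ, GL (Fin n) A) => d x.1 x.2) (by
    rw [AddSubgroup.closure_le]
    rintro x (⟨n, α, β, rfl⟩ | ⟨n, α, rfl⟩)
    · simp [hmul]
    · simp [hstab])

@[simp] lemma lift_mk (d : ∀ n : ℕ, GL (Fin n) A → Γ)
    (hmul : ∀ n α β, d n (α * β) = d n α + d n β)
    (hstab : ∀ n α, d (n + 1) (stab A n α) = d n α) (n : ℕ) (α : GL (Fin n) A) :
    lift d hmul hstab (mk n α) = d n α := by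
  change (FreeAbelianGroup.lift fun x : (Σ n : ℕ, GL (Fin n) A) => d x.1 x.2)
    (FreeAbelianGroup.of ⟨n, α⟩) = _
  rw [FreeAbelianGroup.lift_apply_of]

end K1

end Pool.Agent.Helper11
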