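import Pool.Agent.Helper11.Devissage
import Pool.Agent.Helper11.FFRPoly
import Pool.Agent.Helper11.K1

/-!
# The boundary map from `K₁` of a localisation
-/

namespace Pool.Agent.Helper11

universe u

open Function Matrix

variable {S : Type u} [CommRing S]

/-- cokernel of a square matrix -/
abbrev cokM {ι : Type} [Finite ι] [Fintype ι] (a : Matrix ι ι S) : FGMod S :=
  FGMod.of S ((ι → S) ⧸ LinearMap.range a.mulVecLin)

/-- `a` becomes invertible after inverting `F` -/
def FInv {ι : Type} [Fintype ι] [DecidableEq ι] (F : S) (a : Matrix ι ι S) : Prop :=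
  ∃ (b : Matrix ι ι S) (k : ℕ), a * b = F ^ k • (1 : Matrix ι ι S)

section

variable {ι : Type} [Fintype ι] [DecidableEq ι] {F : S}

lemma FInv.killedPow {a : Matrix ι ι S} (h : FInv F a) : KilledPow F (cokM a) := by
  obtain ⟨b, k, hb⟩ := h
  refine ⟨k, fun m => ?_⟩
  obtain ⟨v, rfl⟩ := Submodule.mkQ_surjective _ m
  rw [← map_smul, Submodule.mkQ_apply, Submodule.Quotient.mk_eq_zero]
  refine ⟨b.mulVec v, ?_⟩
  rw [mulVecLin_apply, mulVec_mulVec, hb, smul_mulVec, one_mulVec]

lemma finv_smul_one (F : S) (k : ℕ) : FInv F (F ^ k • (1 : Matrix ι ι S)) :=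
  ⟨1, k, by rw [mul_one]⟩

lemma finv_one (F : S) : FInv F (1 : Matrix ι ι S) := ⟨1, 0, by simp⟩

variable [IsDomain S]

lemma FInv.injective {a : Matrix ι ι S} (h : FInv F a) (hF : F ≠ 0) :
    Injective a.mulVecLin := by
  obtain ⟨b, k, hb⟩ := h
  have hdet : a.det ≠ 0 := by
    intro h0
    have := congrArg Matrix.det hb
    rw [det_mul, h0, zero_mul, det_smul, det_one, mul_one] at this
    exact pow_ne_zero _ (pow_ne_zero _ hF) this.symm
  rw [injective_iff_map_eq_zero]
  intro v hv
  exact eq_zero_of_mulVec_eq_zero hdet hv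

lemma FInv.mul {a b : Matrix ι ι S} (ha : FInv F a) (hb : FInv F b) : FInv F (a * b) := by
  obtain ⟨a', k, ha'⟩ := ha
  obtain ⟨b', l, hb'⟩ := hb
  refine ⟨b' * a', k + l, ?_⟩
  rw [mul_assoc, ← mul_assoc b, hb', smul_mul_assoc, one_mul, mul_smul_comm, ha', smul_smul,
    ← pow_add, add_comm]

end

variable {Γ : Type*} [AddCommGroup Γ] {F : S} {χ : FGMod S → Γ}

section

variable [IsDomain S] (hχ : IsAdd (KilledPow F) χ) (hF : F ≠ 0)
include hχ hF

lemma theta_mul {ι : Type} [Fintype ι] [DecidableEq ι] {a b : Matrix ι ι S} (ha : FInv F a)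
    (hb : FInv F b) : χ (cokM (a * b)) = χ (cokM a) + χ (cokM b) := by
  rw [add_comm]
  have h1 : LinearMap.range b.mulVecLin ≤
      (LinearMap.range (a * b).mulVecLin).comap a.mulVecLin := by
    rintro _ ⟨w, rfl⟩
    exact ⟨w, by rw [mulVecLin_mul]; rfl⟩
  have h2 : LinearMap.range (a * b).mulVecLin ≤ LinearMap.range a.mulVecLin := by
    rintro _ ⟨w, rfl⟩
    exact ⟨b.mulVec w, by rw [mulVecLin_mul]; rfl⟩
  refine hχ.add (cokM b) (cokM (a * b)) (cokM a) (Submodule.mapQ _ _ a.mulVecLin h1)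
    (Submodule.factor h2) ?_ ?_ ?_ (FInv.mul ha hb).killedPow
  · rw [injective_iff_map_eq_zero]
    intro x hx
    obtain ⟨x, rfl⟩ := Submodule.mkQ_surjective _ x
    rw [Submodule.mkQ_apply, Submodule.mapQ_apply, Submodule.Quotient.mk_eq_zero] at hx
    rw [Submodule.mkQ_apply, Submodule.Quotient.mk_eq_zero]
    obtain ⟨w, hw⟩ := hx
    rw [mulVecLin_mul] at hw
    exact ⟨w, ha.injective hF hw⟩
  · intro x
    obtain ⟨x, rfl⟩ := Submodule.mkQ_surjective _ x
    exact ⟨Submodule.Quotient.mk x, rfl⟩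
  · intro x
    obtain ⟨x, rfl⟩ := Submodule.mkQ_surjective _ x
    have h3 : (Submodule.factor h2) (Submodule.mkQ _ x) =
      (Submodule.Quotient.mk x : (ι → S) ⧸ LinearMap.range a.mulVecLin) := rfl
    rw [h3, Submodule.Quotient.mk_eq_zero]
    constructor
    · rintro ⟨w, rfl⟩
      exact ⟨Submodule.Quotient.mk w, rfl⟩
    · rintro ⟨y, hy⟩
      obtain ⟨y, rfl⟩ := Submodule.mkQ_surjective _ y
      rw [Submodule.mkQ_apply, Submodule.mapQ_apply, Submodule.mkQ_apply,
        Submodule.Quotient.eq] at hy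
      have h4 : a.mulVecLin y ∈ LinearMap.range a.mulVecLin := ⟨y, rfl⟩
      have := Submodule.sub_mem _ h4 (h2 hy)
      simpa using this

omit hF [IsDomain S] in
lemma theta_one {ι : Type} [Fintype ι] [DecidableEq ι] : χ (cokM (1 : Matrix ι ι S)) = 0 := by
  have : Subsingleton (cokM (1 : Matrix ι ι S)) := by
    refine Submodule.Quotient.subsingleton_iff.mpr ?_
    rw [LinearMap.range_eq_top]
    intro v
    exact ⟨v, by simp⟩
  exact hχ.zero _ (finv_one F).killedPow

omit hF [IsDomain S] in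
lemma theta_reindex {ι κ : Type} [Fintype ι] [DecidableEq ι] [Fintype κ] [DecidableEq κ]
    (e : κ ≃ ι) {a : Matrix ι ι S} (ha : FInv F a) :
    χ (cokM (a.submatrix e e)) = χ (cokM a) := by
  refine (hχ.iso ?_ ha.killedPow).symm
  refine Submodule.Quotient.equiv _ _ (LinearEquiv.funCongrLeft S S e) ?_
  ext x
  constructor
  · rintro ⟨_, ⟨w, rfl⟩, rfl⟩
    refine ⟨w ∘ e, ?_⟩
    ext i
    simp only [mulVecLin_apply, LinearEquiv.coe_coe, LinearEquiv.funCongrLeft_apply,
      LinearMap.funLeft_apply, mulVec, dotProduct, submatrix_apply, Function.comp]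
    exact Equiv.sum_comp e (fun j => a (e i) j * w j)
  · rintro ⟨w, rfl⟩
    refine ⟨a.mulVecLin (w ∘ e.symm), ⟨_, rfl⟩, ?_⟩
    ext i
    simp only [mulVecLin_apply, LinearEquiv.coe_coe, LinearEquiv.funCongrLeft_apply,
      LinearMap.funLeft_apply, mulVec, dotProduct, submatrix_apply, Function.comp]
    rw [← Equiv.sum_comp e (fun j => a (e i) j * w (e.symm j))]
    simp

omit hF [IsDomain S] in
lemma theta_blocks {ι κ : Type} [Fintype ι] [DecidableEq ι] [Fintype κ] [DecidableEq κ]
    {a : Matrix ι ι S} {c : Matrix κ κ S} (h : FInv F (fromBlocks a 0 0 c)) :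
    χ (cokM (fromBlocks a 0 0 c)) = χ (cokM a) + χ (cokM c) := by
  let inj : (ι → S) →ₗ[S] (ι ⊕ κ → S) :=
    { toFun := fun v => Sum.elim v 0
      map_add' := fun v w => by ext (i | i) <;> simp
      map_smul' := fun r w => by ext (i | i) <;> simp }
  let prj : (ι ⊕ κ → S) →ₗ[S] (κ → S) := LinearMap.funLeft S S Sum.inr
  have hmv : ∀ w : ι ⊕ κ → S, (fromBlocks a 0 0 c).mulVec w =
      Sum.elim (a.mulVec (w ∘ Sum.inl)) (c.mulVec (w ∘ Sum.inr)) := by
    intro w
    rw [fromBlocks_mulVec]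
    simp
  have h1 : LinearMap.range a.mulVecLin ≤
      (LinearMap.range (fromBlocks a 0 0 c).mulVecLin).comap inj := by
    rintro _ ⟨w, rfl⟩
    refine ⟨Sum.elim w 0, ?_⟩
    rw [mulVecLin_apply, hmv]
    simp only [Sum.elim_comp_inl, Sum.elim_comp_inr, mulVec_zero]
    rfl
  have h2 : LinearMap.range (fromBlocks a 0 0 c).mulVecLin ≤
      (LinearMap.range c.mulVecLin).comap prj := by
    rintro _ ⟨w, rfl⟩
    refine ⟨w ∘ Sum.inr, ?_⟩
    rw [mulVecLin_apply, mulVecLin_apply, hmv]
    rfl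
  refine hχ.add (cokM a) (cokM (fromBlocks a 0 0 c)) (cokM c)
    (Submodule.mapQ _ _ inj h1) (Submodule.mapQ _ _ prj h2) ?_ ?_ ?_ h.killedPow
  · rw [injective_iff_map_eq_zero]
    intro x hx
    obtain ⟨x, rfl⟩ := Submodule.mkQ_surjective _ x
    rw [Submodule.mkQ_apply, Submodule.mapQ_apply, Submodule.Quotient.mk_eq_zero] at hx
    rw [Submodule.mkQ_apply, Submodule.Quotient.mk_eq_zero]
    obtain ⟨w, hw⟩ := hx
    rw [mulVecLin_apply, hmv] at hw
    exact ⟨w ∘ Sum.inl, by rw [mulVecLin_apply]; exact congrArg (fun z => z ∘ Sum.inl) hw⟩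
  · intro x
    obtain ⟨x, rfl⟩ := Submodule.mkQ_surjective _ x
    exact ⟨Submodule.Quotient.mk (Sum.elim 0 x), rfl⟩
  · intro x
    obtain ⟨x, rfl⟩ := Submodule.mkQ_surjective _ x
    rw [Submodule.mkQ_apply, Submodule.mapQ_apply, Submodule.Quotient.mk_eq_zero]
    constructor
    · rintro ⟨w, hw⟩
      refine ⟨Submodule.Quotient.mk (x ∘ Sum.inl), ?_⟩
      rw [Submodule.mapQ_apply, Submodule.Quotient.eq]
      refine ⟨Sum.elim 0 (-w), ?_⟩
      rw [mulVecLin_apply, hmv]
      ext (i | i)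
      · simp [inj]
      · have := congrFun hw i
        simp only [mulVecLin_apply] at this
        have hp : prj x i = x (Sum.inr i) := rfl
        rw [hp] at this
        simp [inj, mulVec_neg, this]
    · rintro ⟨y, hy⟩
      obtain ⟨y, rfl⟩ := Submodule.mkQ_surjective _ y
      rw [Submodule.mkQ_apply, Submodule.mapQ_apply, Submodule.Quotient.eq] at hy
      have h3 : prj (inj y - x) ∈ LinearMap.range c.mulVecLin := h2 hy
      have h4 : prj (inj y - x) = - prj x := by
        ext i
        simp [inj, prj, LinearMap.funLeft_apply]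
      rw [h4] at h3
      exact (Submodule.neg_mem_iff _).mp h3

end

/-! ### clearing denominators -/

section loc

variable {L : Type u} [CommRing L] [Algebra S L]

lemma exists_clear {ι κ : Type} [Fintype ι] [Fintype κ] (F : S) [IsLocalization.Away F L]
    (α : Matrix ι κ L) :
    ∃ (k : ℕ) (a : Matrix ι κ S), a.map (algebraMap S L) = (algebraMap S L F) ^ k • α := by
  classical
  have h : ∀ i j, ∃ (n : ℕ) (a : S), α i j * algebraMap S L F ^ n = algebraMap S L a := by
    intro i j
    exact IsLocalization.Away.surj F (α i j)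
  choose n a hna using h
  let k := ∑ i, ∑ j, n i j
  have hk : ∀ i j, n i j ≤ k := by
    intro i j
    exact (Finset.single_le_sum (f := fun j => n i j) (fun _ _ => Nat.zero_le _)
      (Finset.mem_univ j)).trans
      (Finset.single_le_sum (f := fun i => ∑ j, n i j) (fun _ _ => Nat.zero_le _)
        (Finset.mem_univ i))
  refine ⟨k, fun i j => a i j * F ^ (k - n i j), ?_⟩
  ext i j
  simp only [map_apply, Matrix.smul_apply, smul_eq_mul, map_mul, map_pow]
  rw [← hna, mul_assoc, ← pow_add, Nat.add_sub_cancel' (hk i j), mul_comm]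

variable [IsDomain S] (F : S) (hF : F ≠ 0) [IsLocalization.Away F L]

include hF in
lemma algebraMap_inj : Injective (algebraMap S L) :=
  IsLocalization.injective L (M := Submonoid.powers F) (by
    rintro _ ⟨n, rfl⟩
    exact mem_nonZeroDivisors_of_ne_zero (pow_ne_zero _ hF))

include hF in
lemma finv_of_unit {ι : Type} [Fintype ι] [DecidableEq ι] (α : GL ι L) (k : ℕ)
    (a : Matrix ι ι S) (ha : a.map (algebraMap S L) = (algebraMap S L F) ^ k • α.val) :
    FInv F a := by
  obtain ⟨l, b, hb⟩ := exists_clear F (α⁻¹).val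
  refine ⟨b, k + l, ?_⟩
  have hinj : Injective (fun m : Matrix ι ι S => m.map (algebraMap S L)) := by
    intro m m' h
    ext i j
    exact algebraMap_inj F hF (congrFun (congrFun h i) j)
  apply hinj
  change (a * b).map (algebraMap S L) = (F ^ (k + l) • (1 : Matrix ι ι S)).map (algebraMap S L)
  have h1 : (a * b).map (algebraMap S L) = a.map (algebraMap S L) * b.map (algebraMap S L) :=
    Matrix.map_mul
  rw [h1, ha, hb, smul_mul_smul_comm]
  have : α.val * (α⁻¹).val = 1 := by
    rw [← Units.val_mul, mul_inv_cancel, Units.val_one]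
  rw [this, ← pow_add]
  ext i j
  by_cases hij : i = j
  · subst hij; simp
  · simp [hij]

variable (hχ : IsAdd (KilledPow F) χ)
include hF hχ

lemma theta_indep {ι : Type} [Fintype ι] [DecidableEq ι] (α : GL ι L) (k k' : ℕ)
    (a a' : Matrix ι ι S) (ha : a.map (algebraMap S L) = (algebraMap S L F) ^ k • α.val)
    (ha' : a'.map (algebraMap S L) = (algebraMap S L F) ^ k' • α.val) :
    χ (cokM a) - χ (cokM (F ^ k • (1 : Matrix ι ι S))) =
      χ (cokM a') - χ (cokM (F ^ k' • (1 : Matrix ι ι S))) := by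
  have hinj : Injective (fun m : Matrix ι ι S => m.map (algebraMap S L)) := by
    intro m m' h
    ext i j
    exact algebraMap_inj F hF (congrFun (congrFun h i) j)
  have h1 : (F ^ k' • (1 : Matrix ι ι S)) * a = (F ^ k • (1 : Matrix ι ι S)) * a' := by
    apply hinj
    change ((F ^ k' • (1 : Matrix ι ι S)) * a).map (algebraMap S L) =
      ((F ^ k • (1 : Matrix ι ι S)) * a').map (algebraMap S L)
    rw [smul_mul_assoc, one_mul, smul_mul_assoc, one_mul]
    have h2 : ∀ (r : S) (m : Matrix ι ι S), (r • m).map (algebraMap S L) =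
        (algebraMap S L r) • m.map (algebraMap S L) := by
      intro r m
      ext i j
      simp
    rw [h2, h2, ha, ha', smul_smul, smul_smul, map_pow, map_pow, mul_comm]
  have fa := finv_of_unit F hF α k a ha
  have fa' := finv_of_unit F hF α k' a' ha'
  have e1 := theta_mul hχ hF (finv_smul_one F k') fa
  have e2 := theta_mul hχ hF (finv_smul_one F k) fa'
  rw [h1, e2] at e1
  rw [sub_eq_sub_iff_add_eq_add, add_comm, ← e1, add_comm]

omit hχ in
/-- the boundary map on `GL_n` -/
noncomputable def bdry (χ : FGMod S → Γ) (n : ℕ) (α : GL (Fin n) L) : Γ :=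
  χ (cokM (exists_clear F α.val).choose_spec.choose) -
    χ (cokM (F ^ (exists_clear F α.val).choose • (1 : Matrix (Fin n) (Fin n) S)))

lemma bdry_eq (n : ℕ) (α : GL (Fin n) L) (k : ℕ) (a : Matrix (Fin n) (Fin n) S)
    (ha : a.map (algebraMap S L) = (algebraMap S L F) ^ k • α.val) :
    bdry F χ n α = χ (cokM a) - χ (cokM (F ^ k • (1 : Matrix (Fin n) (Fin n) S))) :=
  theta_indep F hF hχ α _ _ _ _ (exists_clear F α.val).choose_spec.choose_spec ha

lemma bdry_mul (n : ℕ) (α β : GL (Fin n) L) :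
    bdry F χ n (α * β) = bdry F χ n α + bdry F χ n β := by
  obtain ⟨k, a, ha⟩ := exists_clear F α.val
  obtain ⟨l, b, hb⟩ := exists_clear F β.val
  have hab : (a * b).map (algebraMap S L) = (algebraMap S L F) ^ (k + l) • (α * β).val := by
    have h1 : (a * b).map (algebraMap S L) = a.map (algebraMap S L) * b.map (algebraMap S L) :=
      Matrix.map_mul
    rw [h1, ha, hb, smul_mul_smul_comm, ← pow_add, Units.val_mul]
  rw [bdry_eq F hF hχ n (α * β) (k + l) (a * b) hab, bdry_eq F hF hχ n α k a ha,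
    bdry_eq F hF hχ n β l b hb,
    theta_mul hχ hF (finv_of_unit F hF α k a ha) (finv_of_unit F hF β l b hb)]
  have h2 : F ^ (k + l) • (1 : Matrix (Fin n) (Fin n) S) =
      (F ^ k • (1 : Matrix (Fin n) (Fin n) S)) * (F ^ l • (1 : Matrix (Fin n) (Fin n) S)) := by
    rw [smul_mul_smul_comm, ← pow_add, mul_one]
  rw [h2, theta_mul hχ hF (finv_smul_one F k) (finv_smul_one F l)]
  abel

lemma bdry_stab (n : ℕ) (α : GL (Fin n) L) :
    bdry F χ (n + 1) (stab L n α) = bdry F χ n α := by
  obtain ⟨k, a, ha⟩ := exists_clear F α.val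
  let b : Matrix (Fin n ⊕ Fin 1) (Fin n ⊕ Fin 1) S :=
    fromBlocks a 0 0 (F ^ k • (1 : Matrix (Fin 1) (Fin 1) S))
  have hb : (b.submatrix finSumFinEquiv.symm finSumFinEquiv.symm).map (algebraMap S L) =
      (algebraMap S L F) ^ k • (stab L n α).val := by
    have h1 : (stab L n α).val = (fromBlocks α.val 0 0 (1 : Matrix (Fin 1) (Fin 1) L)).submatrix
      finSumFinEquiv.symm finSumFinEquiv.symm := rfl
    have h2 : b.map (algebraMap S L) =
        (algebraMap S L F) ^ k • fromBlocks α.val 0 0 (1 : Matrix (Fin 1) (Fin 1) L) := by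
      rw [fromBlocks_map, ha, fromBlocks_smul]
      congr 1
      · ext i j; simp
      · ext i j; simp
      · ext i j
        have : i = j := Subsingleton.elim _ _
        subst this
        simp
    have h3 : (algebraMap S L F) ^ k • (fromBlocks α.val 0 0
        (1 : Matrix (Fin 1) (Fin 1) L)).submatrix finSumFinEquiv.symm finSumFinEquiv.symm =
        ((algebraMap S L F) ^ k • (fromBlocks α.val 0 0
        (1 : Matrix (Fin 1) (Fin 1) L))).submatrix finSumFinEquiv.symm finSumFinEquiv.symm := rfl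
    rw [h1, h3, ← h2]
    rfl
  have fb : FInv F (b.submatrix finSumFinEquiv.symm finSumFinEquiv.symm) :=
    finv_of_unit F hF _ k _ hb
  have fb' : FInv F b := by
    obtain ⟨c, l, hc⟩ := fb
    refine ⟨c.submatrix finSumFinEquiv finSumFinEquiv, l, ?_⟩
    have := congrArg (fun m => m.submatrix (finSumFinEquiv : Fin n ⊕ Fin 1 ≃ _)
      (finSumFinEquiv : Fin n ⊕ Fin 1 ≃ _)) hc
    simp only [submatrix_smul, Pi.smul_apply, submatrix_one_equiv] at this
    rw [← this, ← submatrix_mul_equiv _ _ _ finSumFinEquiv _]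
    simp [submatrix_submatrix]
  rw [bdry_eq F hF hχ (n + 1) _ k _ hb, bdry_eq F hF hχ n α k a ha,
    theta_reindex hχ finSumFinEquiv.symm fb', theta_blocks hχ fb']
  have h3 : F ^ k • (1 : Matrix (Fin (n + 1)) (Fin (n + 1)) S) =
      (fromBlocks (F ^ k • (1 : Matrix (Fin n) (Fin n) S)) 0 0
        (F ^ k • (1 : Matrix (Fin 1) (Fin 1) S))).submatrix
        finSumFinEquiv.symm finSumFinEquiv.symm := by
    have h4 : fromBlocks (F ^ k • (1 : Matrix (Fin n) (Fin n) S)) 0 0
        (F ^ k • (1 : Matrix (Fin 1) (Fin 1) S)) =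
        F ^ k • (1 : Matrix (Fin n ⊕ Fin 1) (Fin n ⊕ Fin 1) S) := by
      rw [← fromBlocks_one, fromBlocks_smul, smul_zero, smul_zero]
    have h5 : (F ^ k • (1 : Matrix (Fin n ⊕ Fin 1) (Fin n ⊕ Fin 1) S)).submatrix
        finSumFinEquiv.symm finSumFinEquiv.symm = F ^ k •
        (1 : Matrix (Fin n ⊕ Fin 1) (Fin n ⊕ Fin 1) S).submatrix
        finSumFinEquiv.symm finSumFinEquiv.symm := rfl
    rw [h4, h5, submatrix_one_equiv]
  have f4 : FInv F (fromBlocks (F ^ k • (1 : Matrix (Fin n) (Fin n) S)) 0 0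
        (F ^ k • (1 : Matrix (Fin 1) (Fin 1) S))) := by
    refine ⟨1, k, ?_⟩
    rw [mul_one, ← fromBlocks_one, fromBlocks_smul, smul_zero, smul_zero]
  rw [h3, theta_reindex hχ finSumFinEquiv.symm f4, theta_blocks hχ f4]
  abel

omit hF hχ in
/-- the boundary map `K₁(S_F) → Γ` -/
noncomputable def bdryHom (L : Type u) [CommRing L] [Algebra S L] (F : S) (hF : F ≠ 0)
    [IsLocalization.Away F L] (χ : FGMod S → Γ) (hχ : IsAdd (KilledPow F) χ) : K1 L →+ Γ :=
  K1.lift (bdry F χ) (bdry_mul F hF hχ) (bdry_stab F hF hχ)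

lemma bdryHom_mk (n : ℕ) (α : GL (Fin n) L) (k : ℕ) (a : Matrix (Fin n) (Fin n) S)
    (ha : a.map (algebraMap S L) = (algebraMap S L F) ^ k • α.val) :
    bdryHom L F hF χ hχ (K1.mk n α) =
      χ (cokM a) - χ (cokM (F ^ k • (1 : Matrix (Fin n) (Fin n) S))) := by
  rw [bdryHom, K1.lift_mk]
  exact bdry_eq F hF hχ n α k a ha

/-- cokernels of matrices that are invertible over `S_F` are in the image of the boundary -/
lemma cokM_mem_range (n : ℕ) (a : Matrix (Fin n) (Fin n) S) (ha : FInv F a) :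
    χ (cokM a) ∈ (bdryHom L F hF χ hχ).range := by
  obtain ⟨b, k, hb⟩ := ha
  have hu : IsUnit (algebraMap S L F) := IsLocalization.Away.algebraMap_isUnit F
  have hA : IsUnit (a.map (algebraMap S L)) := by
    rw [Matrix.isUnit_iff_isUnit_det]
    have := congrArg (fun m : Matrix (Fin n) (Fin n) S => (m.map (algebraMap S L)).det) hb
    have h1 : (a * b).map (algebraMap S L) = a.map (algebraMap S L) * b.map (algebraMap S L) :=
      Matrix.map_mul
    have h2 : (F ^ k • (1 : Matrix (Fin n) (Fin n) S)).map (algebraMap S L) =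
        (algebraMap S L F) ^ k • (1 : Matrix (Fin n) (Fin n) L) := by
      ext i j
      by_cases hij : i = j
      · subst hij; simp
      · simp [hij]
    simp only [h1, h2, det_mul, det_smul, det_one, mul_one] at this
    exact isUnit_of_mul_isUnit_left (this ▸ (hu.pow k).pow _)
  refine ⟨K1.mk n hA.unit, ?_⟩
  rw [bdryHom_mk F hF hχ n hA.unit 0 a (by simp), pow_zero, one_smul, theta_one hχ, sub_zero]

end loc

end Pool.Agent.Helper11
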