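import Pool.Agent.Helper11.FGMod

/-!
# Devissage: from modules killed by `F` to modules killed by a power of `F`
-/

namespace Pool.Agent.Helper11

universe u

open Function

variable {R : Type u} [CommRing R] [IsNoetherianRing R]

/-- the subquotient `A / (A ∩ B)` -/
abbrev qt {T : FGMod R} (A B : Submodule R T) : FGMod R := FGMod.of R (A ⧸ B.submoduleOf A)

/-- multiplication by `F ^ j` on submodules -/
def fil {T : FGMod R} (F : R) (j : ℕ) (A : Submodule R T) : Submodule R T :=
  A.map (LinearMap.lsmul R T (F ^ j))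

lemma mem_fil {T : FGMod R} {F : R} {j : ℕ} {A : Submodule R T} {x : T} :
    x ∈ fil F j A ↔ ∃ a ∈ A, F ^ j • a = x := Iff.rfl

lemma fil_zero {T : FGMod R} (F : R) (A : Submodule R T) : fil F 0 A = A := by
  ext x
  rw [mem_fil]
  simp

lemma fil_succ_le {T : FGMod R} (F : R) (j : ℕ) (A : Submodule R T) :
    fil F (j + 1) A ≤ fil F j A := by
  intro x hx
  obtain ⟨a, ha, rfl⟩ := mem_fil.mp hx
  exact mem_fil.mpr ⟨F • a, A.smul_mem _ ha, by rw [← mul_smul, pow_succ]⟩

lemma smul_mem_fil_succ {T : FGMod R} (F : R) (j : ℕ) (A : Submodule R T) (x : T)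
    (hx : x ∈ fil F j A) : F • x ∈ fil F (j + 1) A := by
  obtain ⟨a, ha, rfl⟩ := mem_fil.mp hx
  exact mem_fil.mpr ⟨a, ha, by rw [← mul_smul, pow_succ']⟩

lemma fil_mono {T : FGMod R} (F : R) (j : ℕ) {A B : Submodule R T} (h : A ≤ B) :
    fil F j A ≤ fil F j B := Submodule.map_mono h

variable {Γ : Type*} [AddCommGroup Γ] {F : R} {χ : FGMod R → Γ}

lemma killedBy_qt {T : FGMod R} {A B : Submodule R T} (h : ∀ x ∈ A, F • x ∈ B) :
    KilledBy (Ideal.span {F}) (qt A B) := by
  intro s hs m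
  obtain ⟨r, rfl⟩ := Ideal.mem_span_singleton'.mp hs
  obtain ⟨⟨m, hm⟩, rfl⟩ := Submodule.mkQ_surjective _ m
  rw [← map_smul, Submodule.mkQ_apply, Submodule.Quotient.mk_eq_zero]
  change (r * F) • m ∈ B
  rw [mul_smul]
  exact B.smul_mem _ (h m hm)

section

variable (hχ : IsAdd (KilledBy (Ideal.span {F})) χ)
include hχ

lemma c_add {T : FGMod R} {A B C : Submodule R T} (hBA : B ≤ A) (hCB : C ≤ B)
    (h : ∀ x ∈ A, F • x ∈ C) : χ (qt A C) = χ (qt B C) + χ (qt A B) := by
  refine hχ.add (qt B C) (qt A C) (qt A B)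
    (Submodule.mapQ _ _ (Submodule.inclusion hBA) ?_)
    (Submodule.factor ?_) ?_ ?_ ?_ (killedBy_qt h)
  · intro x hx
    exact hx
  · intro x hx
    exact hCB hx
  · rw [injective_iff_map_eq_zero]
    intro x hx
    obtain ⟨x, rfl⟩ := Submodule.mkQ_surjective _ x
    rw [Submodule.mkQ_apply, Submodule.mapQ_apply, Submodule.Quotient.mk_eq_zero] at hx
    rw [Submodule.mkQ_apply, Submodule.Quotient.mk_eq_zero]
    exact hx
  · intro x
    obtain ⟨x, rfl⟩ := Submodule.mkQ_surjective _ x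
    exact ⟨Submodule.Quotient.mk x, rfl⟩
  · intro x
    obtain ⟨x, rfl⟩ := Submodule.mkQ_surjective _ x
    constructor
    · intro hx
      have hx' : (x : T) ∈ B := by
        have : (Submodule.Quotient.mk x : A ⧸ B.submoduleOf A) = 0 := hx
        rw [Submodule.Quotient.mk_eq_zero] at this
        exact this
      exact ⟨Submodule.Quotient.mk ⟨x, hx'⟩, rfl⟩
    · rintro ⟨y, hy⟩
      obtain ⟨y, rfl⟩ := Submodule.mkQ_surjective _ y
      rw [← hy]
      change (Submodule.Quotient.mk _ : A ⧸ B.submoduleOf A) = 0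
      rw [Submodule.Quotient.mk_eq_zero]
      exact y.2

lemma c_self {T : FGMod R} (A B : Submodule R T) (h : A ≤ B) : χ (qt A B) = 0 := by
  have : Subsingleton (qt A B) := by
    refine Submodule.Quotient.subsingleton_iff.mpr ?_
    exact Submodule.submoduleOf_eq_top.mpr h
  refine hχ.zero _ ?_
  intro s _ m
  exact Subsingleton.elim _ _

lemma c_map {T T' : FGMod R} (f : T' →ₗ[R] T) (hf : Injective f) (A B : Submodule R T')
    (h : ∀ x ∈ A, F • x ∈ B) : χ (qt A B) = χ (qt (A.map f) (B.map f)) := by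
  refine hχ.iso ?_ (killedBy_qt h)
  refine Submodule.Quotient.equiv _ _ (Submodule.equivMapOfInjective f hf A) ?_
  ext x
  constructor
  · rintro ⟨y, hy, rfl⟩
    exact ⟨y, hy, rfl⟩
  · rintro ⟨y, hy, hyx⟩
    obtain ⟨x, a, ha, rfl⟩ := x
    have : y = a := hf hyx
    subst this
    exact ⟨⟨y, ha⟩, hy, rfl⟩

lemma c_quot {T T'' : FGMod R} (g : T →ₗ[R] T'') (A B : Submodule R T) (hBA : B ≤ A)
    (h : ∀ x ∈ A, F • x ∈ B) :
    χ (qt A B) = χ (qt (A ⊓ LinearMap.ker g) (B ⊓ LinearMap.ker g)) +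
      χ (qt (A.map g) (B.map g)) := by
  refine hχ.add (qt (A ⊓ LinearMap.ker g) (B ⊓ LinearMap.ker g)) (qt A B)
    (qt (A.map g) (B.map g))
    (Submodule.mapQ _ _ (Submodule.inclusion inf_le_left) ?_)
    (Submodule.mapQ _ _ (g.submoduleMap A) ?_) ?_ ?_ ?_ (killedBy_qt h)
  · intro x hx
    exact (show (x : T) ∈ B ⊓ LinearMap.ker g from hx).1
  · intro x hx
    exact ⟨x, hx, rfl⟩
  · rw [injective_iff_map_eq_zero]
    intro x hx
    obtain ⟨x, rfl⟩ := Submodule.mkQ_surjective _ x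
    rw [Submodule.mkQ_apply, Submodule.mapQ_apply, Submodule.Quotient.mk_eq_zero] at hx
    rw [Submodule.mkQ_apply, Submodule.Quotient.mk_eq_zero]
    exact ⟨hx, x.2.2⟩
  · intro x
    obtain ⟨⟨_, a, ha, rfl⟩, rfl⟩ := Submodule.mkQ_surjective _ x
    exact ⟨Submodule.Quotient.mk ⟨a, ha⟩, rfl⟩
  · intro x
    obtain ⟨x, rfl⟩ := Submodule.mkQ_surjective _ x
    constructor
    · intro hx
      rw [Submodule.mkQ_apply, Submodule.mapQ_apply, Submodule.Quotient.mk_eq_zero] at hx
      obtain ⟨b, hb, hbx⟩ := hx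
      have hbx' : g b = g x := hbx
      refine ⟨Submodule.Quotient.mk ⟨(x : T) - b, A.sub_mem x.2 (hBA hb), ?_⟩, ?_⟩
      · change g ((x : T) - b) = 0
        rw [map_sub, hbx', sub_self]
      · rw [Submodule.mapQ_apply, Submodule.mkQ_apply, Submodule.Quotient.eq]
        change ((x : T) - b) - x ∈ B
        have : (x : T) - b - x = -b := by abel
        rw [this]
        exact B.neg_mem hb
    · rintro ⟨y, hy⟩
      obtain ⟨y, rfl⟩ := Submodule.mkQ_surjective _ y
      rw [← hy]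
      rw [Submodule.mkQ_apply, Submodule.mapQ_apply, Submodule.mapQ_apply,
        Submodule.Quotient.mk_eq_zero]
      refine ⟨0, B.zero_mem, ?_⟩
      rw [map_zero]
      exact (LinearMap.mem_ker.mp y.2.2).symm

end

/-- sum of the graded pieces of the `F`-adic filtration of `A` -/
noncomputable def devS (F : R) (χ : FGMod R → Γ) {T : FGMod R} (e : ℕ) (A : Submodule R T) : Γ :=
  ∑ j ∈ Finset.range e, χ (qt (fil F j A) (fil F (j + 1) A))

section

variable (hχ : IsAdd (KilledBy (Ideal.span {F})) χ)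
include hχ

lemma dev_step {T : FGMod R} {A B : Submodule R T} (hBA : B ≤ A) (h : ∀ x ∈ A, F • x ∈ B)
    (e : ℕ) (he : ∀ x ∈ A, F ^ e • x = 0) :
    devS F χ e A = χ (qt A B) + devS F χ e B := by
  -- termwise identity
  have key : ∀ j : ℕ, χ (qt (fil F j A) (fil F (j + 1) A))
      = χ (qt (fil F j B) (fil F (j + 1) B)) +
        (χ (qt (fil F j A) (fil F j B)) - χ (qt (fil F (j + 1) A) (fil F (j + 1) B))) := by
    intro j
    have hAB : fil F (j + 1) A ≤ fil F j B := by
      intro x hx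
      obtain ⟨a, ha, rfl⟩ := mem_fil.mp hx
      exact mem_fil.mpr ⟨F • a, h a ha, by rw [← mul_smul, pow_succ]⟩
    have h1 := c_add hχ (A := fil F j A) (B := fil F j B) (C := fil F (j + 1) A)
      (fil_mono F j hBA) hAB (fun x hx => smul_mem_fil_succ F j A x hx)
    have h2 := c_add hχ (A := fil F j B) (B := fil F (j + 1) A) (C := fil F (j + 1) B)
      hAB (fil_mono F (j + 1) hBA) (fun x hx => smul_mem_fil_succ F j B x hx)
    rw [h1, h2]
    abel
  unfold devS
  rw [Finset.sum_congr rfl (fun j _ => key j), Finset.sum_add_distrib,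
    Finset.sum_range_sub' (fun j => χ (qt (fil F j A) (fil F j B))), fil_zero, fil_zero]
  have h0 : χ (qt (fil F e A) (fil F e B)) = 0 := by
    refine c_self hχ _ _ ?_
    intro x hx
    obtain ⟨a, ha, rfl⟩ := mem_fil.mp hx
    rw [he a ha]
    exact Submodule.zero_mem _
  rw [h0, sub_zero, add_comm]

lemma devS_zero {T : FGMod R} (e : ℕ) (A : Submodule R T) (hA : A ≤ ⊥) : devS F χ e A = 0 := by
  refine Finset.sum_eq_zero (fun j _ => c_self hχ _ _ ?_)
  intro x hx
  obtain ⟨a, ha, rfl⟩ := mem_fil.mp hx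
  have : a = 0 := (Submodule.mem_bot R).mp (hA ha)
  rw [this, smul_zero]
  exact Submodule.zero_mem _

lemma dev_chain {T : FGMod R} (G : ℕ → Submodule R T) (hG : ∀ j, G (j + 1) ≤ G j)
    (hF : ∀ j, ∀ x ∈ G j, F • x ∈ G (j + 1)) (e : ℕ) (he : ∀ x ∈ G 0, F ^ e • x = 0) (n : ℕ) :
    devS F χ e (G 0) = (∑ j ∈ Finset.range n, χ (qt (G j) (G (j + 1)))) + devS F χ e (G n) := by
  have hle : ∀ j, G j ≤ G 0 := by
    intro j
    induction j with
    | zero => exact le_refl _
    | succ j ih => exact (hG j).trans ih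
  induction n with
  | zero => simp
  | succ n ih =>
      rw [ih, Finset.sum_range_succ,
        dev_step hχ (hG n) (hF n) e (fun x hx => he x (hle n hx))]
      abel

lemma devS_map {T T' : FGMod R} (f : T' →ₗ[R] T) (hf : Injective f) (e : ℕ)
    (A : Submodule R T') : devS F χ e A = devS F χ e (A.map f) := by
  have hfil : ∀ j, fil F j (A.map f) = (fil F j A).map f := by
    intro j
    ext x
    constructor
    · rintro ⟨_, ⟨a, ha, rfl⟩, rfl⟩
      exact ⟨F ^ j • a, ⟨a, ha, rfl⟩, map_smul f _ _⟩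
    · rintro ⟨_, ⟨a, ha, rfl⟩, rfl⟩
      exact ⟨f a, ⟨a, ha, rfl⟩, (map_smul f _ _).symm⟩
  unfold devS
  refine Finset.sum_congr rfl (fun j _ => ?_)
  rw [hfil, hfil]
  exact c_map hχ f hf _ _ (fun x hx => smul_mem_fil_succ F j A x hx)

theorem devS_add (T' T T'' : FGMod R) (f : T' →ₗ[R] T) (g : T →ₗ[R] T'') (hf : Injective f)
    (hg : Surjective g) (hfg : Exact f g) (e : ℕ) (he : ∀ x : T, F ^ e • x = 0) :
    devS F χ e (⊤ : Submodule R T) = devS F χ e (⊤ : Submodule R T') +
      devS F χ e (⊤ : Submodule R T'') := by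
  have hker : LinearMap.ker g = (⊤ : Submodule R T').map f := by
    rw [Submodule.map_top]; exact LinearMap.exact_iff.mp hfg
  have h1 : devS F χ e (⊤ : Submodule R T) =
      (∑ j ∈ Finset.range e, χ (qt (fil F j ⊤ ⊓ LinearMap.ker g)
        (fil F (j + 1) ⊤ ⊓ LinearMap.ker g))) +
      devS F χ e (⊤ : Submodule R T'') := by
    unfold devS
    rw [← Finset.sum_add_distrib]
    refine Finset.sum_congr rfl (fun j _ => ?_)
    rw [c_quot hχ g _ _ (fil_succ_le F j ⊤) (fun x hx => smul_mem_fil_succ F j ⊤ x hx)]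
    have hm : ∀ i, (fil F i (⊤ : Submodule R T)).map g = fil F i (⊤ : Submodule R T'') := by
      intro i
      ext x
      constructor
      · rintro ⟨_, ⟨a, _, rfl⟩, rfl⟩
        exact ⟨g a, Submodule.mem_top, (map_smul g _ _).symm⟩
      · rintro ⟨a, _, rfl⟩
        obtain ⟨a, rfl⟩ := hg a
        exact ⟨F ^ i • a, ⟨a, Submodule.mem_top, rfl⟩, map_smul g _ _⟩
    rw [hm, hm]
  have h2 := dev_chain hχ (fun j => fil F j (⊤ : Submodule R T) ⊓ LinearMap.ker g)
    (fun j => inf_le_inf_right _ (fil_succ_le F j ⊤))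
    (fun j x hx => ⟨smul_mem_fil_succ F j ⊤ x hx.1, Submodule.smul_mem _ _ hx.2⟩)
    e (fun x _ => he x) e
  have h3 : devS F χ e (fil F e (⊤ : Submodule R T) ⊓ LinearMap.ker g) = 0 := by
    refine devS_zero hχ e _ ?_
    rintro x ⟨hx, _⟩
    obtain ⟨a, _, rfl⟩ := mem_fil.mp hx
    rw [he a]
    exact Submodule.zero_mem _
  simp only [fil_zero, top_inf_eq] at h2
  rw [h3, add_zero] at h2
  rw [h1, ← h2, devS_map hχ f hf e ⊤, hker]

lemma devS_stable {T : FGMod R} (e n : ℕ) (hn : e ≤ n) (he : ∀ x : T, F ^ e • x = 0) :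
    devS F χ n (⊤ : Submodule R T) = devS F χ e (⊤ : Submodule R T) := by
  induction hn with
  | refl => rfl
  | @step n hn ih =>
      unfold devS at *
      rw [Finset.sum_range_succ, ih, c_self hχ, add_zero]
      intro x hx
      obtain ⟨a, _, rfl⟩ := mem_fil.mp hx
      have : F ^ n • a = 0 := by
        rw [← Nat.sub_add_cancel hn, pow_add, mul_smul, he, smul_zero]
      rw [this]
      exact Submodule.zero_mem _

end

open Classical in
/-- the devissage extension of `χ` to modules killed by a power of `F` -/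
noncomputable def dev (F : R) (χ : FGMod R → Γ) (T : FGMod R) : Γ :=
  if h : KilledPow F T then devS F χ (Nat.find h) (⊤ : Submodule R T) else 0

lemma dev_eq (hχ : IsAdd (KilledBy (Ideal.span {F})) χ) (T : FGMod R) (e : ℕ)
    (he : ∀ x : T, F ^ e • x = 0) : dev F χ T = devS F χ e (⊤ : Submodule R T) := by
  classical
  have h : KilledPow F T := ⟨e, he⟩
  rw [dev, dif_pos h]
  exact (devS_stable hχ _ _ (Nat.find_min' h he) (Nat.find_spec h)).symm

theorem isAdd_dev (hχ : IsAdd (KilledBy (Ideal.span {F})) χ) :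
    IsAdd (KilledPow F) (dev F χ) where
  sq := subQuot_killedPow F
  add M' M M'' f g hf hg hfg hM := by
    obtain ⟨e, he⟩ := hM
    have he' : ∀ x : M', F ^ e • x = 0 := fun x => hf (by rw [map_smul, he, map_zero])
    have he'' : ∀ x : M'', F ^ e • x = 0 := fun x => by
      obtain ⟨m, rfl⟩ := hg x
      rw [← map_smul, he, map_zero]
    rw [dev_eq hχ M e he, dev_eq hχ M' e he', dev_eq hχ M'' e he'']
    exact devS_add hχ M' M M'' f g hf hg hfg e he

lemma dev_of_killedBy (hχ : IsAdd (KilledBy (Ideal.span {F})) χ) (T : FGMod R)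
    (hT : KilledBy (Ideal.span {F}) T) : dev F χ T = χ T := by
  have h1 : ∀ x : T, F ^ 1 • x = 0 := fun x => by
    rw [pow_one]; exact hT F (Ideal.mem_span_singleton_self F) x
  rw [dev_eq hχ T 1 h1, devS, Finset.sum_range_one]
  have h0 : fil F (0 + 1) (⊤ : Submodule R T) = ⊥ := by
    rw [eq_bot_iff]
    intro x hx
    obtain ⟨a, _, rfl⟩ := mem_fil.mp hx
    rw [zero_add, h1 a]
    exact Submodule.zero_mem _
  rw [h0, fil_zero]
  refine hχ.iso (M := qt ⊤ ⊥) (N := T) ?_ ?_
  · refine (Submodule.quotEquivOfEqBot _ ?_).trans Submodule.topEquiv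
    rw [eq_bot_iff]
    intro x hx
    have : (x : T) ∈ (⊥ : Submodule R T) := hx
    exact Subtype.ext this
  · exact killedBy_qt (fun x _ => by
      rw [hT F (Ideal.mem_span_singleton_self F) x]; exact Submodule.zero_mem _)

end Pool.Agent.Helper11
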