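import Pool.Agent.Helper11.FGMod

/-!
# Finite free resolutions
-/

namespace Pool.Agent.Helper11

universe u

variable {R : Type u} [CommRing R]

open Function

/-- `M` has a free resolution by finitely generated free modules of length at most `n`. -/
def FFR : ℕ → FGMod R → Prop
  | 0, M => Module.Free R M
  | n + 1, M => ∃ (k : ℕ) (K : FGMod R) (i : K →ₗ[R] (Fin k → R)) (p : (Fin k → R) →ₗ[R] M),
      Injective i ∧ Surjective p ∧ Exact i p ∧ FFR n K

lemma FFR.iso : ∀ (n : ℕ) {M N : FGMod R} (_ : M ≃ₗ[R] N), FFR n M → FFR n N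
  | 0, _, _, e, h => by
      have : Module.Free R _ := h
      exact Module.Free.of_equiv e
  | n + 1, M, N, e, ⟨k, K, i, p, hi, hp, hex, hK⟩ => by
      refine ⟨k, K, i, e.toLinearMap ∘ₗ p, hi, e.surjective.comp hp, ?_, hK⟩
      intro x
      rw [← hex x]
      simp

variable [IsNoetherianRing R]

lemma FFR.succ_iff (n : ℕ) (M : FGMod R) :
    FFR (n + 1) M ↔ ∃ (k : ℕ) (p : (Fin k → R) →ₗ[R] M), Surjective p ∧
      FFR n (FGMod.of R (LinearMap.ker p)) := by
  constructor
  · rintro ⟨k, K, i, p, hi, hp, hex, hK⟩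
    refine ⟨k, p, hp, ?_⟩
    have hr : LinearMap.range i = LinearMap.ker p := (LinearMap.exact_iff.mp hex).symm
    exact FFR.iso n ((LinearEquiv.ofInjective i hi).trans (LinearEquiv.ofEq _ _ hr)) hK
  · rintro ⟨k, p, hp, hK⟩
    refine ⟨k, FGMod.of R (LinearMap.ker p), (LinearMap.ker p).subtype, p,
      (LinearMap.ker p).subtype_injective, hp, ?_, hK⟩
    intro x
    simp

/-- arbitrary finite index sets -/
lemma FFR.succ_of_free (n : ℕ) (M : FGMod R) (L : Type u) [AddCommGroup L] [Module R L]
    [Module.Finite R L] [Module.Free R L] (p : L →ₗ[R] M) (hp : Surjective p)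
    (h : FFR n (FGMod.of R (LinearMap.ker p))) : FFR (n + 1) M := by
  rcases subsingleton_or_nontrivial R with hR | hR
  · refine (FFR.succ_iff n M).mpr ⟨0, 0, fun x => ?_, ?_⟩
    · have : Subsingleton M := Module.subsingleton R M
      exact ⟨0, Subsingleton.elim _ _⟩
    · have h1 : Subsingleton (LinearMap.ker p) := Module.subsingleton R _
      have h2 : Subsingleton (LinearMap.ker (0 : (Fin 0 → R) →ₗ[R] M)) := Module.subsingleton R _
      refine FFR.iso n ?_ h
      exact { toFun := fun _ => 0, invFun := fun _ => 0, map_add' := fun _ _ => by simp,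
              map_smul' := fun _ _ => by simp, left_inv := fun _ => Subsingleton.elim _ _,
              right_inv := fun _ => Subsingleton.elim _ _ }
  · let b := Module.finBasis R L
    let e : (Fin (Module.finrank R L) → R) ≃ₗ[R] L := b.equivFun.symm
    refine (FFR.succ_iff n M).mpr ⟨Module.finrank R L, p ∘ₗ e.toLinearMap,
      hp.comp e.surjective, ?_⟩
    refine FFR.iso n ?_ h
    have : LinearMap.ker (p ∘ₗ e.toLinearMap) = (LinearMap.ker p).comap e.toLinearMap := rfl
    exact (e.ofSubmodule' (LinearMap.ker p)).symm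

/-- free modules have resolutions of every length -/
lemma FFR.of_free : ∀ (n : ℕ) (M : FGMod R), Module.Free R M → FFR n M
  | 0, _, h => h
  | n + 1, M, h => by
      refine FFR.succ_of_free n M M LinearMap.id surjective_id ?_
      refine FFR.of_free n _ ?_
      have : Subsingleton (LinearMap.ker (LinearMap.id : M →ₗ[R] M)) := by
        rw [LinearMap.ker_id]; infer_instance
      exact Module.Free.of_subsingleton R _

lemma FFR.succ : ∀ (n : ℕ) (M : FGMod R), FFR n M → FFR (n + 1) M
  | 0, M, h => FFR.of_free 1 M h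
  | n + 1, _, ⟨k, K, i, p, hi, hp, hex, hK⟩ => ⟨k, K, i, p, hi, hp, hex, FFR.succ n K hK⟩

lemma FFR.mono {n m : ℕ} (h : n ≤ m) (M : FGMod R) (hM : FFR n M) : FFR m M := by
  induction h with
  | refl => exact hM
  | step _ ih => exact FFR.succ _ M ih

lemma FFR.ext : ∀ (n : ℕ) (M' M M'' : FGMod R) (f : M' →ₗ[R] M) (g : M →ₗ[R] M''),
    Injective f → Surjective g → Exact f g → FFR n M' → FFR n M'' → FFR n M
  | 0, M', M, M'', f, g, hf, hg, hfg, h', h'' => by
      have h1 : Module.Free R M' := h'
      have h2 : Module.Free R M'' := h''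
      obtain ⟨s, hs⟩ := Module.projective_lifting_property g LinearMap.id hg
      have e : M ≃ₗ[R] M' × M'' :=
        (hfg.splitSurjectiveEquiv hf ⟨s, hs⟩).1
      exact Module.Free.of_equiv e.symm
  | n + 1, M', M, M'', f, g, hf, hg, hfg, h', h'' => by
      obtain ⟨k', p', hp', hK'⟩ := (FFR.succ_iff n M').mp h'
      obtain ⟨k'', p'', hp'', hK''⟩ := (FFR.succ_iff n M'').mp h''
      obtain ⟨q, hq⟩ := Module.projective_lifting_property g p'' hg
      have hq' : ∀ b, g (q b) = p'' b := fun b => LinearMap.congr_fun hq b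
      let Pm : ((Fin k' → R) × (Fin k'' → R)) →ₗ[R] M :=
        (f ∘ₗ p').coprod q
      have hPm : ∀ a b, Pm (a, b) = f (p' a) + q b := fun a b => by simp [Pm]
      have hsurj : Surjective Pm := by
        intro m
        obtain ⟨b, hb⟩ := hp'' (g m)
        have : g (m - q b) = 0 := by rw [map_sub, hq', hb, sub_self]
        obtain ⟨m', hm'⟩ := (hfg _).mp this
        obtain ⟨a, ha⟩ := hp' m'
        exact ⟨(a, b), by rw [hPm, ha, hm']; abel⟩
      refine FFR.succ_of_free n M _ Pm hsurj ?_
      let i1 : LinearMap.ker p' →ₗ[R] LinearMap.ker Pm :=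
        LinearMap.codRestrict (LinearMap.ker Pm)
          ((LinearMap.inl R (Fin k' → R) (Fin k'' → R)) ∘ₗ (LinearMap.ker p').subtype)
          (fun x => by
            rw [LinearMap.mem_ker]
            have : p' x.1 = 0 := x.2
            simp [hPm, this])
      let i2 : LinearMap.ker Pm →ₗ[R] LinearMap.ker p'' :=
        LinearMap.codRestrict (LinearMap.ker p'')
          ((LinearMap.snd R (Fin k' → R) (Fin k'' → R)) ∘ₗ (LinearMap.ker Pm).subtype)
          (fun x => by
            rw [LinearMap.mem_ker]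
            obtain ⟨⟨a, b⟩, hx⟩ := x
            have hx' : f (p' a) + q b = 0 := by rw [← hPm]; exact hx
            have := congrArg g hx'
            rw [map_add, hfg.apply_apply_eq_zero, zero_add, hq', map_zero] at this
            simpa using this)
      refine FFR.ext n (FGMod.of R (LinearMap.ker p')) (FGMod.of R (LinearMap.ker Pm))
        (FGMod.of R (LinearMap.ker p'')) i1 i2 ?_ ?_ ?_ hK' hK''
      · intro x y hxy
        have := congrArg (fun z => (Subtype.val z).1) hxy
        exact Subtype.ext this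
      · rintro ⟨b, hb⟩
        have hb' : p'' b = 0 := hb
        have : g (q b) = 0 := by rw [hq', hb']
        obtain ⟨m', hm'⟩ := (hfg _).mp this
        obtain ⟨a, ha⟩ := hp' (-m')
        refine ⟨⟨(a, b), ?_⟩, ?_⟩
        · rw [LinearMap.mem_ker, hPm, ha, map_neg, hm']; abel
        · exact Subtype.ext rfl
      · rintro ⟨⟨a, b⟩, hx⟩
        have hx' : f (p' a) + q b = 0 := by rw [← hPm]; exact hx
        constructor
        · intro h
          have hb : b = 0 := congrArg Subtype.val h
          subst hb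
          refine ⟨⟨a, ?_⟩, ?_⟩
          · rw [map_zero, add_zero] at hx'
            exact hf (by rw [hx', map_zero])
          · exact Subtype.ext rfl
        · rintro ⟨y, hy⟩
          have : (0 : Fin k'' → R) = b := congrArg (fun z => (Subtype.val z).2) hy
          subst this
          exact Subtype.ext rfl

/-- cokernels -/
lemma FFR.coker (n : ℕ) (M' M M'' : FGMod R) (f : M' →ₗ[R] M) (g : M →ₗ[R] M'')
    (hf : Injective f) (hg : Surjective g) (hfg : Exact f g) (h' : FFR n M') (h : FFR (n + 1) M) :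
    FFR (n + 1) M'' := by
  obtain ⟨k, p, hp, hK⟩ := (FFR.succ_iff n M).mp h
  refine (FFR.succ_iff n M'').mpr ⟨k, g ∘ₗ p, hg.comp hp, ?_⟩
  -- `0 → ker p → ker (g p) → M' → 0`
  let i1 : LinearMap.ker p →ₗ[R] LinearMap.ker (g ∘ₗ p) :=
    Submodule.inclusion (LinearMap.ker_le_ker_comp p g)
  let e := LinearEquiv.ofInjective f hf
  have hr : LinearMap.range f = LinearMap.ker g := (LinearMap.exact_iff.mp hfg).symm
  let i2' : LinearMap.ker (g ∘ₗ p) →ₗ[R] LinearMap.range f :=
    LinearMap.codRestrict (LinearMap.range f) (p ∘ₗ (LinearMap.ker (g ∘ₗ p)).subtype)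
      (fun x => by
        rw [hr]
        exact x.2)
  refine FFR.ext n (FGMod.of R (LinearMap.ker p)) (FGMod.of R (LinearMap.ker (g ∘ₗ p)))
    (FGMod.of R (LinearMap.range f)) i1 i2' ?_ ?_ ?_ hK ?_
  · exact Submodule.inclusion_injective _
  · rintro ⟨y, m', rfl⟩
    obtain ⟨a, ha⟩ := hp (f m')
    refine ⟨⟨a, ?_⟩, Subtype.ext ha⟩
    rw [LinearMap.mem_ker, LinearMap.comp_apply, ha, hfg.apply_apply_eq_zero]
  · rintro ⟨a, ha⟩
    constructor
    · intro h
      have h1 : p a = 0 := congrArg Subtype.val h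
      exact ⟨⟨a, h1⟩, rfl⟩
    · rintro ⟨⟨y, hy⟩, hy'⟩
      have : y = a := congrArg Subtype.val hy'
      subst this
      exact Subtype.ext hy
  · exact FFR.iso n e h'

end Pool.Agent.Helper11
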