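import Pool.Agent.Helper11.KDefs

/-!
# Finitely generated modules and additive functions on them
-/

namespace Pool.Agent.Helper11

universe u

namespace FGMod

variable {R : Type u} [CommRing R]

/-- bundling -/
abbrev of (R : Type u) [CommRing R] (M : Type u) [AddCommGroup M] [Module R M]
    [Module.Finite R M] : FGMod R := ⟨M⟩

end FGMod

variable {R : Type u} [CommRing R]

/-- The module `M` is annihilated by the ideal `I`. -/
def KilledBy (I : Ideal R) (M : FGMod R) : Prop := ∀ s ∈ I, ∀ m : M, s • m = 0

/-- The module `M` is annihilated by a power of `F`. -/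
def KilledPow (F : R) (M : FGMod R) : Prop := ∃ k : ℕ, ∀ m : M, F ^ k • m = 0

/-- A class of modules closed under submodules, quotients (Serre type closure not needed). -/
structure SubQuot (P : FGMod R → Prop) : Prop where
  sub : ∀ (M N : FGMod R) (f : M →ₗ[R] N), Function.Injective f → P N → P M
  quot : ∀ (M N : FGMod R) (f : M →ₗ[R] N), Function.Surjective f → P M → P N

lemma subQuot_killedBy (I : Ideal R) : SubQuot (KilledBy I) where
  sub M N f hf hN s hs m := hf (by rw [map_smul, map_zero]; exact hN s hs _)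
  quot M N f hf hM s hs n := by
    obtain ⟨m, rfl⟩ := hf n
    rw [← map_smul, hM s hs m, map_zero]

lemma subQuot_killedPow (F : R) : SubQuot (KilledPow F) where
  sub M N f hf hN := by
    obtain ⟨k, hk⟩ := hN
    exact ⟨k, fun m => hf (by rw [map_smul, map_zero]; exact hk _)⟩
  quot M N f hf hM := by
    obtain ⟨k, hk⟩ := hM
    refine ⟨k, fun n => ?_⟩
    obtain ⟨m, rfl⟩ := hf n
    rw [← map_smul, hk m, map_zero]

/-- `χ` is additive on short exact sequences of modules whose middle term satisfies `P`. -/
structure IsAdd {Γ : Type*} [AddCommGroup Γ] (P : FGMod R → Prop) (χ : FGMod R → Γ) : Prop where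
  sq : SubQuot P
  add : ∀ (M' M M'' : FGMod R) (f : M' →ₗ[R] M) (g : M →ₗ[R] M''), Function.Injective f →
    Function.Surjective g → Function.Exact f g → P M → χ M = χ M' + χ M''

namespace IsAdd

variable {Γ : Type*} [AddCommGroup Γ] {P : FGMod R → Prop} {χ : FGMod R → Γ}

lemma zero (h : IsAdd P χ) (M : FGMod R) [Subsingleton M] (hM : P M) : χ M = 0 := by
  have := h.add M M M LinearMap.id LinearMap.id Function.injective_id Function.surjective_id
    (fun x => ⟨fun _ => ⟨x, rfl⟩, fun _ => Subsingleton.elim _ _⟩) hM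
  simpa using this

lemma iso (h : IsAdd P χ) {M N : FGMod R} (e : M ≃ₗ[R] N) (hM : P M) : χ M = χ N := by
  have hN : P N := h.sq.quot M N e.toLinearMap e.surjective hM
  have h0 : P (FGMod.of R PUnit.{u+1}) :=
    h.sq.quot M _ 0 (fun x => ⟨0, Subsingleton.elim _ _⟩) hM
  have := h.add M N (FGMod.of R PUnit.{u+1}) e.toLinearMap 0 e.injective
    (fun x => ⟨0, Subsingleton.elim _ _⟩)
    (fun x => ⟨fun _ => e.surjective x, fun _ => Subsingleton.elim _ _⟩) hN
  rw [this, h.zero _ h0, add_zero]

variable [IsNoetherianRing R]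

lemma submodule (h : IsAdd P χ) (M : FGMod R) (N : Submodule R M) (hM : P M) :
    χ M = χ (FGMod.of R N) + χ (FGMod.of R (M ⧸ N)) :=
  h.add (FGMod.of R N) M (FGMod.of R (M ⧸ N)) N.subtype N.mkQ N.subtype_injective
    N.mkQ_surjective (LinearMap.exact_subtype_mkQ N) hM

lemma ker_range (h : IsAdd P χ) {M N : FGMod R} (f : M →ₗ[R] N) (hM : P M) :
    χ M = χ (FGMod.of R (LinearMap.ker f)) + χ (FGMod.of R (LinearMap.range f)) := by
  refine h.add (FGMod.of R (LinearMap.ker f)) M (FGMod.of R (LinearMap.range f))
    (LinearMap.ker f).subtype f.rangeRestrict (LinearMap.ker f).subtype_injective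
    f.surjective_rangeRestrict ?_ hM
  intro x
  constructor
  · intro hx
    refine ⟨⟨x, ?_⟩, rfl⟩
    have := congrArg Subtype.val hx
    simpa using this
  · rintro ⟨y, rfl⟩
    apply Subtype.ext
    simp

end IsAdd

end Pool.Agent.Helper11
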