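import Pool.Agent.Helper11.FGMod

/-!
# The Grothendieck group of finitely generated modules
-/

namespace Pool.Agent.Helper11

universe u

open Function

namespace G0

variable {R : Type u} [CommRing R]

/-- the class of a module -/
def mk (M : FGMod R) : G0 R := QuotientAddGroup.mk (FreeAbelianGroup.of M)

lemma mk_add (M' M M'' : FGMod R) (f : M' →ₗ[R] M) (g : M →ₗ[R] M'') (hf : Injective f)
    (hg : Surjective g) (hfg : Function.Exact f g) : mk M = mk M' + mk M'' := by
  have h : (FreeAbelianGroup.of M - FreeAbelianGroup.of M' - FreeAbelianGroup.of M'') ∈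
      AddSubgroup.closure (G0Rel R) :=
    AddSubgroup.subset_closure ⟨M', M, M'', f, g, hf, hg, hfg, rfl⟩
  have h2 := (QuotientAddGroup.eq_zero_iff _).mpr h
  have h3 : mk M - mk M' - mk M'' = 0 := h2
  rw [sub_sub, sub_eq_zero] at h3
  exact h3

lemma isAdd_mk : IsAdd (KilledBy (⊥ : Ideal R)) (mk : FGMod R → G0 R) where
  sq := subQuot_killedBy _
  add M' M M'' f g hf hg hfg _ := mk_add M' M M'' f g hf hg hfg

lemma killedBy_bot (M : FGMod R) : KilledBy (⊥ : Ideal R) M := by
  intro s hs m
  rw [(Submodule.mem_bot R).mp hs, zero_smul]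

lemma closure_mk : AddSubgroup.closure (Set.range (mk : FGMod R → G0 R)) = ⊤ := by
  rw [eq_top_iff]
  rintro x -
  obtain ⟨x, rfl⟩ := QuotientAddGroup.mk_surjective x
  induction x using FreeAbelianGroup.induction_on with
  | zero => exact zero_mem _
  | of M => exact AddSubgroup.subset_closure ⟨M, rfl⟩
  | neg M hM => exact neg_mem hM
  | add x y hx hy => exact add_mem hx hy

lemma induction {p : G0 R → Prop} (hz : p 0) (hm : ∀ M, p (mk M)) (hn : ∀ x, p x → p (-x))
    (ha : ∀ x y, p x → p y → p (x + y)) (x : G0 R) : p x := by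
  have hx : x ∈ AddSubgroup.closure (Set.range (mk : FGMod R → G0 R)) := by
    rw [closure_mk]; trivial
  induction hx using AddSubgroup.closure_induction with
  | mem x h => obtain ⟨M, rfl⟩ := h; exact hm M
  | zero => exact hz
  | add x y _ _ hx hy => exact ha x y hx hy
  | neg x _ hx => exact hn x hx

variable {Γ : Type*} [AddCommGroup Γ]

/-- homomorphisms out of `G₀` -/
noncomputable def lift (χ : FGMod R → Γ) (h : ∀ (M' M M'' : FGMod R) (f : M' →ₗ[R] M)
    (g : M →ₗ[R] M''), Injective f → Surjective g → Function.Exact f g → χ M = χ M' + χ M'') :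
    G0 R →+ Γ :=
  QuotientAddGroup.lift _ (FreeAbelianGroup.lift χ) (by
    rw [AddSubgroup.closure_le]
    rintro x ⟨M', M, M'', f, g, hf, hg, hfg, rfl⟩
    simp [h M' M M'' f g hf hg hfg])

@[simp] lemma lift_mk (χ : FGMod R → Γ) (h : ∀ (M' M M'' : FGMod R) (f : M' →ₗ[R] M)
    (g : M →ₗ[R] M''), Injective f → Surjective g → Function.Exact f g → χ M = χ M' + χ M'')
    (M : FGMod R) : lift χ h (mk M) = χ M := by
  change (FreeAbelianGroup.lift χ) (FreeAbelianGroup.of M) = _
  rw [FreeAbelianGroup.lift_apply_of]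

end G0

end Pool.Agent.Helper11
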