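import Mathlib

/-!
# Definitions: the groups `G₀ = K'₀` and `K₁` of a commutative ring, and trilinear forms
-/

namespace Pool.Agent.Helper11

universe u

open Matrix Function

/-- A finitely generated module over the commutative ring `R`. -/
structure FGMod (R : Type u) [CommRing R] : Type (u + 1) where
  /-- the underlying type -/
  carrier : Type u
  [addCommGroup : AddCommGroup carrier]
  [module : Module R carrier]
  [finite : Module.Finite R carrier]

namespace FGMod

variable {R : Type u} [CommRing R]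

instance : CoeSort (FGMod R) (Type u) := ⟨FGMod.carrier⟩

attribute [instance] FGMod.addCommGroup FGMod.module FGMod.finite

end FGMod

/-- The relations of `G₀`: `[M] = [M'] + [M'']` for every short exact sequence
`0 → M' → M → M'' → 0`. -/
def G0Rel (R : Type u) [CommRing R] : Set (FreeAbelianGroup (FGMod R)) :=
  {x | ∃ (M' M M'' : FGMod R) (f : M' →ₗ[R] M) (g : M →ₗ[R] M''), Injective f ∧
    Surjective g ∧ Function.Exact f g ∧ x = FreeAbelianGroup.of M -
      FreeAbelianGroup.of M' - FreeAbelianGroup.of M''}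

/-- `G₀(R) = K'₀(Spec R)`: the Grothendieck group of finitely generated `R`-modules, i.e. the
abelian group generated by the symbols `[M]`, `M` a finitely generated `R`-module, with the
relations `[M] = [M'] + [M'']` for every short exact sequence `0 → M' → M → M'' → 0`. -/
def G0 (R : Type u) [CommRing R] : Type (u + 1) :=
  FreeAbelianGroup (FGMod R) ⧸ AddSubgroup.closure (G0Rel R)

noncomputable instance (R : Type u) [CommRing R] : AddCommGroup (G0 R) :=
  (inferInstance : AddCommGroup (FreeAbelianGroup (FGMod R) ⧸ AddSubgroup.closure (G0Rel R)))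

/-- `α ↦ diag(α, 1)`, from `n × n` matrices to `(n+1) × (n+1)` matrices. -/
def diagOne (A : Type u) [CommRing A] (n : ℕ) :
    Matrix (Fin n) (Fin n) A →* Matrix (Fin (n + 1)) (Fin (n + 1)) A where
  toFun α := (fromBlocks α 0 0 (1 : Matrix (Fin 1) (Fin 1) A)).submatrix
    finSumFinEquiv.symm finSumFinEquiv.symm
  map_one' := by
    rw [fromBlocks_one, submatrix_one_equiv]
  map_mul' α β := by
    rw [submatrix_mul_equiv, fromBlocks_multiply]
    simp

/-- `GL_n(A) → GL_{n+1}(A)`, `α ↦ diag(α, 1)`. -/
def stab (A : Type u) [CommRing A] (n : ℕ) : GL (Fin n) A →* GL (Fin (n + 1)) A :=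
  Units.map (diagOne A n)

/-- The relations of `K₁`. -/
def K1Rel (A : Type u) [CommRing A] : Set (FreeAbelianGroup (Σ n : ℕ, GL (Fin n) A)) :=
  {x | (∃ (n : ℕ) (α β : GL (Fin n) A), x = FreeAbelianGroup.of ⟨n, α * β⟩ -
      FreeAbelianGroup.of ⟨n, α⟩ - FreeAbelianGroup.of ⟨n, β⟩) ∨
    (∃ (n : ℕ) (α : GL (Fin n) A), x = FreeAbelianGroup.of ⟨n + 1, stab A n α⟩ -
      FreeAbelianGroup.of ⟨n, α⟩)}

/-- `K₁(A)`: the abelian group generated by symbols `[α]`, `α ∈ GL_n(A)`, `n ≥ 0`, with the
relations `[αβ] = [α] + [β]` and `[diag(α, 1)] = [α]`. It is the abelianisation of the stable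
general linear group of `A`. -/
def K1 (A : Type u) [CommRing A] : Type u :=
  FreeAbelianGroup (Σ n : ℕ, GL (Fin n) A) ⧸ AddSubgroup.closure (K1Rel A)

noncomputable instance (A : Type u) [CommRing A] : AddCommGroup (K1 A) :=
  (inferInstance : AddCommGroup
    (FreeAbelianGroup (Σ n : ℕ, GL (Fin n) A) ⧸ AddSubgroup.closure (K1Rel A)))

/-- There is a surjective homomorphism from the abelian group `G` to the abelian group `H`. -/
def SurjectsOnto (G H : Type*) [AddCommGroup G] [AddCommGroup H] : Prop :=
  ∃ f : G →+ H, Surjective f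

open MvPolynomial in
/-- The trilinear form `∑ t i j k xᵢ yⱼ zₖ` with integer coefficients `t`, as a polynomial in the
variables `x₀, …`, `y₀, …`, `z₀, …`. -/
noncomputable def triForm {a b c : ℕ} (t : Fin a → Fin b → Fin c → ℤ) :
    MvPolynomial (Fin a ⊕ Fin b ⊕ Fin c) ℤ :=
  ∑ i, ∑ j, ∑ k, C (t i j k) * X (Sum.inl i) * X (Sum.inr (Sum.inl j)) * X (Sum.inr (Sum.inr k))

end Pool.Agent.Helper11
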