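import Pool.Agent.Helper11.Koszul

/-!
# Computing the two-periodic Euler characteristic
-/

namespace Pool.Agent.Helper11

universe u

open Function

variable {S : Type u} [CommRing S] [IsNoetherianRing S]
  {ι₀ ι₁ : Type} [Fintype ι₀] [Fintype ι₁] [DecidableEq ι₀] [DecidableEq ι₁]
  {Γ : Type*} [AddCommGroup Γ]

omit [DecidableEq ι₀] [DecidableEq ι₁] in
/-- the first homology vanishes -/
lemma χ_perH_zero {P : FGMod S → Prop} {χ : FGMod S → Γ} (hχ : IsAdd P χ)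
    (φ : Matrix ι₁ ι₀ S) (ψ : Matrix ι₀ ι₁ S) (M : FGMod S)
    (h : ∀ v, act φ M v = 0 → ∃ w, act ψ M w = v) (hP : P (perH φ ψ M)) :
    χ (perH φ ψ M) = 0 :=
  q_self hχ _ _ (fun v hv => h v hv) hP

omit [DecidableEq ι₀] [DecidableEq ι₁] in
/-- the homology is a quotient of the module -/
lemma χ_perH_eq {P : FGMod S → Prop} {χ : FGMod S → Γ} (hχ : IsAdd P χ)
    (φ : Matrix ι₁ ι₀ S) (ψ : Matrix ι₀ ι₁ S) (M Q : FGMod S) (ε : M →ₗ[S] (ι₀ → M))
    (hε : ∀ m, act φ M (ε m) = 0)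
    (hsurj : ∀ v, act φ M v = 0 → ∃ (m : M) (w : ι₁ → M), v = ε m + act ψ M w)
    (π : M →ₗ[S] Q) (hπ : Surjective π)
    (hker : ∀ m : M, (∃ w, act ψ M w = ε m) ↔ π m = 0)
    (hP : P (perH φ ψ M)) : χ (perH φ ψ M) = χ Q := by
  let f : M →ₗ[S] perH φ ψ M :=
    (Submodule.mkQ _).comp (LinearMap.codRestrict (LinearMap.ker (act φ M)) ε hε)
  have hf : Surjective f := by
    intro x
    obtain ⟨⟨v, hv⟩, rfl⟩ := Submodule.mkQ_surjective _ x
    obtain ⟨m, w, hmw⟩ := hsurj v hv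
    refine ⟨m, ?_⟩
    change (Submodule.Quotient.mk _ : _) = Submodule.Quotient.mk _
    rw [Submodule.Quotient.eq]
    change ε m - v ∈ LinearMap.range (act ψ M)
    refine ⟨-w, ?_⟩
    rw [hmw, map_neg]
    abel
  have hfk : LinearMap.ker f = LinearMap.ker π := by
    ext m
    rw [LinearMap.mem_ker, LinearMap.mem_ker, ← hker m]
    change (Submodule.Quotient.mk _ : _) = 0 ↔ _
    rw [Submodule.Quotient.mk_eq_zero]
    exact Iff.rfl
  refine hχ.iso ?_ hP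
  exact ((f.quotKerEquivOfSurjective hf).symm.trans (Submodule.quotEquivOfEq _ _ hfk)).trans
    (π.quotKerEquivOfSurjective hπ)

/-- the two-periodic Euler characteristic of a regular module -/
lemma perχ_eq {J K : Ideal S} {χ : FGMod S → Γ} (hχ : IsAdd (KilledBy J) χ)
    (φ : Matrix ι₁ ι₀ S) (ψ : Matrix ι₀ ι₁ S) (hJ : ∀ t ∈ J, NullK K φ ψ t)
    (l : List (S × S)) (e : ι₀) (M Q : FGMod S) (hM : KilledBy K M)
    (h1 : ∀ v, act ψ M v = 0 → ∃ w, act φ M w = v)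
    (h2 : ∀ v, act φ M v = 0 → ∃ (m : M) (w : ι₁ → M), v = Pi.single e m + act ψ M w)
    (h3 : ∀ m : M, (∃ w, act ψ M w = Pi.single e m) ↔ m ∈ XM l M)
    (h4 : ∀ m : M, act φ M (Pi.single e m) = 0)
    (π : M →ₗ[S] Q) (hπ : Surjective π) (hker : ∀ m, π m = 0 ↔ m ∈ XM l M) :
    perχ χ φ ψ M = χ Q := by
  unfold perχ
  rw [χ_perH_zero hχ ψ φ M h1 (perH_killed ψ φ (fun t ht => (hJ t ht).symm) M hM), sub_zero]
  exact χ_perH_eq hχ φ ψ M Q (LinearMap.single S (fun _ => M) e) h4 h2 π hπ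
    (fun m => (h3 m).trans (hker m).symm) (perH_killed φ ψ hJ M hM)

end Pool.Agent.Helper11
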