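import Pool.Agent.Helper11.Periodic

/-!
# Koszul matrix factorisations
-/

namespace Pool.Agent.Helper11

universe u

open Function Matrix

variable {S : Type u} [CommRing S]

/-- the submodule `(x₁, …, x_r) M` -/
def XM : List (S × S) → ∀ (M : Type u) [AddCommGroup M] [Module S M], Submodule S M
  | [], _, _, _ => ⊥
  | p :: l, M, _, _ => XM l M ⊔ LinearMap.range (LinearMap.lsmul S M p.1)

/-- `x₁, …, x_r` (read from the end of the list) is weakly regular on `M` -/
def Reg : List (S × S) → ∀ (M : Type u) [AddCommGroup M] [Module S M], Prop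
  | [], _, _, _ => True
  | p :: l, M, _, _ => Reg l M ∧ ∀ m : M, p.1 • m ∈ XM l M → m ∈ XM l M

/-- the sum `∑ xᵢ gᵢ` -/
def curv (l : List (S × S)) : S := (l.map (fun p => p.1 * p.2)).sum

lemma act_blocks {ι κ μ ν : Type} [Fintype ι] [Fintype κ] (A : Matrix μ ι S) (B : Matrix μ κ S)
    (C : Matrix ν ι S) (D : Matrix ν κ S) {M : Type u} [AddCommGroup M] [Module S M]
    (v : ι ⊕ κ → M) :
    act (fromBlocks A B C D) M v = Sum.elim (act A M (v ∘ Sum.inl) + act B M (v ∘ Sum.inr))
      (act C M (v ∘ Sum.inl) + act D M (v ∘ Sum.inr)) := by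
  ext (i | i) <;> simp [act_apply]

lemma act_zero {ι κ : Type} [Fintype ι] {M : Type u} [AddCommGroup M] [Module S M] (v : ι → M) :
    act (0 : Matrix κ ι S) M v = 0 := by
  ext i; simp [act_apply]

theorem exists_kos (l : List (S × S)) :
    ∃ (ι₀ ι₁ : Type) (_ : Fintype ι₀) (_ : Fintype ι₁) (_ : DecidableEq ι₀) (_ : DecidableEq ι₁)
      (φ : Matrix ι₁ ι₀ S) (ψ : Matrix ι₀ ι₁ S) (e : ι₀),
      φ * ψ = curv l • (1 : Matrix ι₁ ι₁ S) ∧ ψ * φ = curv l • (1 : Matrix ι₀ ι₀ S) ∧
      (∀ p ∈ l, NullH φ ψ p.1 ∧ NullH φ ψ p.2) ∧
      (∀ (M : Type u) [AddCommGroup M] [Module S M], (∀ p ∈ l, ∀ m : M, p.2 • m = 0) → Reg l M →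
        (∀ v, act ψ M v = 0 → ∃ w, act φ M w = v) ∧
        (∀ v, act φ M v = 0 → ∃ (m : M) (w : ι₁ → M), v = Pi.single e m + act ψ M w) ∧
        (∀ m : M, (∃ w, act ψ M w = Pi.single e m) ↔ m ∈ XM l M) ∧
        (∀ m : M, act φ M (Pi.single e m) = 0)) := by
  induction l with
  | nil =>
      refine ⟨Unit, Empty, inferInstance, inferInstance, inferInstance, inferInstance, 0, 0, (),
        ?_, ?_, ?_, ?_⟩
      · ext i; exact i.elim
      · simp [curv]
      · simp
      · intro M _ _ _ _
        refine ⟨?_, ?_, ?_, ?_⟩
        · intro v _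
          exact ⟨0, funext fun i => i.elim⟩
        · intro v _
          refine ⟨v (), 0, ?_⟩
          rw [act_zero, add_zero]
          ext i
          simp
        · intro m
          simp only [XM, Submodule.mem_bot, act_zero, exists_const]
          constructor
          · intro h
            have := congrFun h ()
            simpa using this.symm
          · rintro rfl
            simp
        · intro m
          exact act_zero _
  | cons p l ih =>
      obtain ⟨x, g⟩ := p
      obtain ⟨ι₀, ι₁, _, _, _, _, φ, ψ, e, h1, h2, h3, h4⟩ := ih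
      let φ' : Matrix (ι₁ ⊕ ι₀) (ι₀ ⊕ ι₁) S := fromBlocks φ (x • 1) (g • 1) (-ψ)
      let ψ' : Matrix (ι₀ ⊕ ι₁) (ι₁ ⊕ ι₀) S := fromBlocks ψ (x • 1) (g • 1) (-φ)
      refine ⟨ι₀ ⊕ ι₁, ι₁ ⊕ ι₀, inferInstance, inferInstance, inferInstance, inferInstance,
        φ', ψ', Sum.inl e, ?_, ?_, ?_, ?_⟩
      · have hcurv : curv ((x, g) :: l) = x * g + curv l := by simp [curv]
        rw [hcurv]
        simp only [φ', ψ', fromBlocks_multiply, h1, h2, ← fromBlocks_one, fromBlocks_smul]
        congr 1
        · rw [add_smul, smul_mul_smul_comm, mul_one, add_comm]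
        · simp
        · simp
        · rw [add_smul, smul_mul_smul_comm, mul_one, Matrix.neg_mul, Matrix.mul_neg, neg_neg,
            h2, mul_comm g x]
      · have hcurv : curv ((x, g) :: l) = x * g + curv l := by simp [curv]
        rw [hcurv]
        simp only [φ', ψ', fromBlocks_multiply, h1, h2, ← fromBlocks_one, fromBlocks_smul]
        congr 1
        · rw [add_smul, smul_mul_smul_comm, mul_one, add_comm]
        · simp
        · simp
        · rw [add_smul, smul_mul_smul_comm, mul_one, Matrix.neg_mul, Matrix.mul_neg, neg_neg,
            h1, mul_comm g x]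
      · intro p hp
        rcases List.mem_cons.mp hp with rfl | hp
        · refine ⟨⟨fromBlocks 0 0 1 0, fromBlocks 0 0 1 0, ?_, ?_⟩,
            ⟨fromBlocks 0 1 0 0, fromBlocks 0 1 0 0, ?_, ?_⟩⟩ <;>
          · simp only [φ', ψ', fromBlocks_multiply, fromBlocks_add, ← fromBlocks_one,
              fromBlocks_smul]
            congr 1 <;> simp
        · obtain ⟨⟨A, B, hA, hB⟩, ⟨A', B', hA', hB'⟩⟩ := h3 p hp
          refine ⟨⟨fromBlocks A 0 0 (-B), fromBlocks B 0 0 (-A), ?_, ?_⟩,
            ⟨fromBlocks A' 0 0 (-B'), fromBlocks B' 0 0 (-A'), ?_, ?_⟩⟩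
          · simp only [φ', ψ', fromBlocks_multiply, fromBlocks_add, ← fromBlocks_one,
              fromBlocks_smul]
            congr 1
            · simp [hA]
            · simp
            · simp
            · simp [hB]
          · simp only [φ', ψ', fromBlocks_multiply, fromBlocks_add, ← fromBlocks_one,
              fromBlocks_smul]
            congr 1
            · simp [hB]
            · simp
            · simp
            · simp [hA]
          · simp only [φ', ψ', fromBlocks_multiply, fromBlocks_add, ← fromBlocks_one,
              fromBlocks_smul]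
            congr 1
            · simp [hA']
            · simp
            · simp
            · simp [hB']
          · simp only [φ', ψ', fromBlocks_multiply, fromBlocks_add, ← fromBlocks_one,
              fromBlocks_smul]
            congr 1
            · simp [hB']
            · simp
            · simp
            · simp [hA']
      · intro M _ _ hg hreg
        have hg0 : ∀ m : M, g • m = 0 := hg (x, g) (List.mem_cons_self)
        obtain ⟨k1, k2, k3, k4⟩ := h4 M (fun p hp => hg p (List.mem_cons_of_mem _ hp)) hreg.1
        have hreg' : ∀ m : M, x • m ∈ XM l M → m ∈ XM l M := hreg.2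
        have hφ' : ∀ v : ι₀ ⊕ ι₁ → M, act φ' M v =
            Sum.elim (act φ M (v ∘ Sum.inl) + x • (v ∘ Sum.inr)) (- act ψ M (v ∘ Sum.inr)) := by
          intro v
          rw [act_blocks, act_smul_one, act_smul_one, act_neg]
          congr 1
          ext i
          simp [hg0]
        have hψ' : ∀ v : ι₁ ⊕ ι₀ → M, act ψ' M v =
            Sum.elim (act ψ M (v ∘ Sum.inl) + x • (v ∘ Sum.inr)) (- act φ M (v ∘ Sum.inr)) := by
          intro v
          rw [act_blocks, act_smul_one, act_smul_one, act_neg]
          congr 1
          ext i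
          simp [hg0]
        have hsplit : ∀ {α β : Type} (v : α ⊕ β → M), v = Sum.elim (v ∘ Sum.inl) (v ∘ Sum.inr) :=
          fun v => (Sum.elim_comp_inl_inr v).symm
        have hadd : ∀ {α β : Type} (a a' : α → M) (b b' : β → M),
            Sum.elim a b + Sum.elim a' b' = Sum.elim (a + a') (b + b') := by
          intro α β a a' b b'
          ext (i | i) <;> rfl
        have hsingle : ∀ m : M, (Pi.single (Sum.inl e) m : ι₀ ⊕ ι₁ → M) =
            Sum.elim (Pi.single e m) 0 := by
          intro m
          ext (i | i)
          · by_cases h : i = e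
            · subst h; simp
            · simp [Pi.single_apply, h]
          · simp [Pi.single_apply]
        refine ⟨?_, ?_, ?_, ?_⟩
        · -- exactness at the odd spot
          intro v hv
          rw [hψ'] at hv
          set q := v ∘ Sum.inl with hq
          set p := v ∘ Sum.inr with hp
          have e1 : act ψ M q + x • p = 0 := by
            have := congrArg (fun z => z ∘ Sum.inl) hv
            simpa using this
          have e2 : act φ M p = 0 := by
            have := congrArg (fun z => z ∘ Sum.inr) hv
            simpa [funext_iff] using this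
          obtain ⟨m, t, hpt⟩ := k2 p e2
          have e3 : act ψ M (-(q + x • t)) = Pi.single e (x • m) := by
            rw [hpt, smul_add] at e1
            rw [map_neg, map_add, map_smul, Pi.single_smul]
            have : act ψ M q + x • act ψ M t = - (x • Pi.single e m) := by
              rw [eq_neg_iff_add_eq_zero, ← e1]; abel
            rw [this, neg_neg]
          have hm := hreg' m ((k3 (x • m)).mp ⟨_, e3⟩)
          obtain ⟨t', ht'⟩ := (k3 m).mpr hm
          have hp' : p = act ψ M (t' + t) := by rw [hpt, ← ht', map_add]
          have e4 : act ψ M (q + x • (t' + t)) = 0 := by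
            rw [map_add, map_smul, ← hp', e1]
          obtain ⟨s, hs⟩ := k1 _ e4
          refine ⟨Sum.elim s (-(t' + t)), ?_⟩
          rw [hφ', hsplit v, Sum.elim_comp_inl, Sum.elim_comp_inr, ← hq, ← hp]
          congr 1
          · rw [hs, smul_neg]; abel
          · rw [map_neg, neg_neg, hp']
        · intro v hv
          rw [hφ'] at hv
          set p := v ∘ Sum.inl with hp
          set q := v ∘ Sum.inr with hq
          have e1 : act φ M p + x • q = 0 := by
            have := congrArg (fun z => z ∘ Sum.inl) hv
            simpa using this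
          have e2 : act ψ M q = 0 := by
            have := congrArg (fun z => z ∘ Sum.inr) hv
            simpa [funext_iff] using this
          obtain ⟨s, hs⟩ := k1 q e2
          have e3 : act φ M (p + x • s) = 0 := by
            rw [map_add, map_smul, hs, e1]
          obtain ⟨m, t, hmt⟩ := k2 _ e3
          refine ⟨m, Sum.elim t (-s), ?_⟩
          rw [hsingle, hψ', hsplit v, Sum.elim_comp_inl, Sum.elim_comp_inr, ← hp, ← hq,
            hadd]
          congr 1
          · rw [← add_assoc, ← hmt, smul_neg]; abel
          · rw [map_neg, neg_neg, hs, zero_add]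
        · intro m
          rw [hsingle]
          constructor
          · rintro ⟨w, hw⟩
            rw [hψ'] at hw
            have e1 : act ψ M (w ∘ Sum.inl) + x • (w ∘ Sum.inr) = Pi.single e m := by
              have := congrArg (fun z => z ∘ Sum.inl) hw
              simpa only [Sum.elim_comp_inl] using this
            have e2 : act φ M (w ∘ Sum.inr) = 0 := by
              have := congrArg (fun z => z ∘ Sum.inr) hw
              simpa [funext_iff] using this
            obtain ⟨m', t, hmt⟩ := k2 _ e2
            rw [hmt, smul_add, ← Pi.single_smul] at e1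
            have e3 : act ψ M (w ∘ Sum.inl + x • t) = Pi.single e (m - x • m') := by
              rw [map_add, map_smul, Pi.single_sub, ← e1]; abel
            have := (k3 _).mp ⟨_, e3⟩
            have h5 : m = (m - x • m') + x • m' := by abel
            rw [h5]
            exact Submodule.add_mem_sup this ⟨m', rfl⟩
          · intro hm
            obtain ⟨a, ha, _, ⟨b, rfl⟩, hab⟩ := Submodule.mem_sup.mp hm
            obtain ⟨t, ht⟩ := (k3 a).mpr ha
            refine ⟨Sum.elim t (Pi.single e b), ?_⟩
            rw [hψ', Sum.elim_comp_inl, Sum.elim_comp_inr, k4, neg_zero, ht, ← Pi.single_smul,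
              ← Pi.single_add]
            congr 2
        · intro m
          rw [hφ', hsingle, Sum.elim_comp_inl, Sum.elim_comp_inr, k4]
          ext (i | i) <;> simp

end Pool.Agent.Helper11
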