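import Pool.Agent.Helper11.Dehom
import Pool.Agent.Helper11.Surj
import Pool.Agent.Helper11.FFRPoly
import Pool.Agent.Helper11.G0

/-!
# The surjection onto `G₀`
-/

namespace Pool.Agent.Helper11

open MvPolynomial Function

/-- The main construction. -/
theorem pipeline {B : Type} [CommRing B] {τ σ : Type} [Finite τ] [Fintype σ]
    (ev : MvPolynomial τ ℤ →+* B) (hev : Surjective ev) (g : σ → MvPolynomial τ ℤ)
    (i₁ i₂ : τ) (w₁ w₂ : τ → ℕ) (h₁ : w₁ i₁ = 1) (h₂ : w₂ i₂ = 1) (h₂₁ : w₂ i₁ = 0)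
    (hg₁ : ∀ j, homog w₁ (g j) = Polynomial.C (g j) * Polynomial.X ^ 1)
    (hg₂ : ∀ j, homog w₂ (g j) = Polynomial.C (g j) * Polynomial.X ^ 1)
    (hker : RingHom.ker ev = Ideal.span (Set.range g) ⊔ Ideal.span {X i₁ - 1} ⊔
      Ideal.span {X i₂ - 1}) (hF : bigF g ≠ 0)
    (L : Type) [CommRing L] [Algebra (MvPolynomial σ (MvPolynomial τ ℤ)) L]
    [IsLocalization.Away (bigF g) L] :
    ∃ f : K1 L →+ G0 B, Surjective f := by
  -- from `B` to the polynomial ring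
  have a₁ : IsAdd (KilledBy ((⊥ : Ideal B).comap ev)) (fun M => G0.mk (desc ev hev M)) :=
    isAdd_desc ev hev G0.isAdd_mk
  have hk : (⊥ : Ideal B).comap ev = Ideal.span (Set.range g ∪ {X i₁ - 1}) ⊔
      Ideal.span {X i₂ - 1} := by
    rw [Ideal.span_union, ← hker]
    rfl
  rw [hk] at a₁
  -- first dehomogenisation
  obtain ⟨χ₂, a₂, l₂⟩ := dehom_step w₂ i₂ h₂ (Set.range g ∪ {X i₁ - 1}) (by
    rintro p (⟨j, rfl⟩ | rfl)
    · exact ⟨1, hg₂ j⟩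
    · refine ⟨0, ?_⟩
      rw [map_sub, map_one, homog_X, h₂₁, pow_zero, mul_one, mul_one, map_sub, map_one]) a₁
  rw [Ideal.span_union] at a₂ l₂
  -- second dehomogenisation
  obtain ⟨χ₃, a₃, l₃⟩ := dehom_step w₁ i₁ h₁ (Set.range g) (by
    rintro p ⟨j, rfl⟩
    exact ⟨1, hg₁ j⟩) a₂
  -- the hypersurface
  obtain ⟨χ₄, a₄, l₄⟩ := kos_step g a₃
  have a₅ := isAdd_dev a₄
  refine ⟨bdryHom L (bigF g) hF (dev (bigF g) χ₄) a₅, ?_⟩
  rw [← AddMonoidHom.range_eq_top, eq_top_iff, ← G0.closure_mk, AddSubgroup.closure_le]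
  rintro _ ⟨N, rfl⟩
  -- lift
  have hN₁ : KilledBy (Ideal.span (Set.range g ∪ {X i₁ - 1}) ⊔ Ideal.span {X i₂ - 1})
      (restr ev hev N) := by
    rw [← hk]
    exact killedBy_restr ev hev (G0.killedBy_bot N)
  rw [Ideal.span_union] at hN₁
  obtain ⟨M₂, k₂, e₂⟩ := l₂ (restr ev hev N) hN₁
  obtain ⟨M₃, k₃, e₃⟩ := l₃ M₂ k₂
  obtain ⟨M₄, k₄, e₄⟩ := l₄ M₃ k₃
  have key : dev (bigF g) χ₄ M₄ = G0.mk N := by
    rw [dev_of_killedBy a₄ M₄ k₄, e₄, e₃, e₂]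
    exact desc_restr ev hev G0.isAdd_mk N (G0.killedBy_bot N)
  rw [SetLike.mem_coe, ← key]
  have hS : AllFFR (MvPolynomial σ (MvPolynomial τ ℤ)) :=
    AllFFR.of_equiv (sumAlgEquiv ℤ σ τ).toRingEquiv (AllFFR.mvPolynomial (σ ⊕ τ))
  refine mem_range_of_allFFR (bigF g) hF a₅ hS M₄ ⟨1, fun m => ?_⟩
  rw [pow_one]
  exact k₄ _ (Ideal.mem_span_singleton_self _) m

end Pool.Agent.Helper11
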