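import Pool.Agent.Helper11.KosLift

/-!
# The module of polynomials with coefficients in a module
-/

namespace Pool.Agent.Helper11

universe u

open Function MvPolynomial TensorProduct

section

variable {R : Type u} [CommRing R] {σ : Type} {N : Type u} [AddCommGroup N] [Module R N]

open Classical in
variable (σ R N) in
/-- coefficients of an element of the extended module -/
noncomputable def cfEquiv : MvPolynomial σ R ⊗[R] N ≃ₗ[R] ((σ →₀ ℕ) →₀ N) :=
  (TensorProduct.congr (basisMonomials σ R).repr (LinearEquiv.refl R N)).trans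
    (TensorProduct.finsuppScalarLeft R N (σ →₀ ℕ))

open Classical in
lemma cfEquiv_tmul (p : MvPolynomial σ R) (n : N) (α : σ →₀ ℕ) :
    cfEquiv R σ N (p ⊗ₜ n) α = coeff α p • n := by
  rw [cfEquiv, LinearEquiv.trans_apply, TensorProduct.congr_tmul,
    TensorProduct.finsuppScalarLeft_apply_tmul_apply]
  rfl

lemma cfEquiv_symm_single (α : σ →₀ ℕ) (n : N) :
    (cfEquiv R σ N).symm (Finsupp.single α n) = monomial α 1 ⊗ₜ n := by
  rw [LinearEquiv.symm_apply_eq]
  classical
  ext β
  rw [cfEquiv_tmul, coeff_monomial, Finsupp.single_apply]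
  split_ifs <;> simp

lemma cf_sum (z : MvPolynomial σ R ⊗[R] N) :
    z = ∑ α ∈ (cfEquiv R σ N z).support, monomial α 1 ⊗ₜ (cfEquiv R σ N z α) := by
  apply (cfEquiv R σ N).injective
  rw [map_sum]
  conv_lhs => rw [← Finsupp.sum_single (cfEquiv R σ N z), Finsupp.sum]
  refine Finset.sum_congr rfl (fun α _ => ?_)
  rw [← cfEquiv_symm_single, LinearEquiv.apply_symm_apply]

lemma cf_add (z w : MvPolynomial σ R ⊗[R] N) (α : σ →₀ ℕ) :
    cfEquiv R σ N (z + w) α = cfEquiv R σ N z α + cfEquiv R σ N w α := by
  rw [map_add, Finsupp.add_apply]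

lemma cf_X_smul [DecidableEq σ] (i : σ) (z : MvPolynomial σ R ⊗[R] N) (α : σ →₀ ℕ) :
    cfEquiv R σ N ((X i : MvPolynomial σ R) • z) α =
      if i ∈ α.support then cfEquiv R σ N z (α - Finsupp.single i 1) else 0 := by
  induction z using TensorProduct.induction_on with
  | zero => simp
  | tmul p n =>
      rw [TensorProduct.smul_tmul', cfEquiv_tmul, smul_eq_mul, coeff_X_mul', ite_smul, zero_smul,
        cfEquiv_tmul]
  | add z w hz hw =>
      rw [smul_add, cf_add, hz, hw, cf_add]
      split_ifs <;> simp

lemma cf_zero_smul (p : MvPolynomial σ R) (z : MvPolynomial σ R ⊗[R] N) :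
    cfEquiv R σ N (p • z) 0 = constantCoeff p • cfEquiv R σ N z 0 := by
  induction z using TensorProduct.induction_on with
  | zero => simp
  | tmul q n =>
      rw [TensorProduct.smul_tmul', cfEquiv_tmul, smul_eq_mul, cfEquiv_tmul,
        ← constantCoeff_eq, map_mul, mul_smul]
  | add z w hz hw =>
      rw [smul_add, cf_add, hz, hw, cf_add, smul_add]

/-- the pairs `(xⱼ, gⱼ)` -/
noncomputable def lst (g : σ → R) (js : List σ) : List (MvPolynomial σ R × MvPolynomial σ R) :=
  js.map (fun j => (X j, C (g j)))

lemma mem_XM (g : σ → R) (js : List σ) (z : MvPolynomial σ R ⊗[R] N) :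
    z ∈ XM (lst g js) (MvPolynomial σ R ⊗[R] N) ↔
      ∀ α : σ →₀ ℕ, (∀ j ∈ js, α j = 0) → cfEquiv R σ N z α = 0 := by
  classical
  constructor
  · induction js generalizing z with
    | nil =>
        intro hz α _
        have : z = 0 := hz
        rw [this]; simp
    | cons j js ih =>
        intro hz α hα
        obtain ⟨a, ha, _, ⟨b, rfl⟩, rfl⟩ := Submodule.mem_sup.mp hz
        rw [cf_add, ih a ha α (fun i hi => hα i (List.mem_cons_of_mem _ hi)), zero_add]
        change cfEquiv R σ N ((X j : MvPolynomial σ R) • b) α = 0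
        rw [cf_X_smul, if_neg]
        rw [Finsupp.mem_support_iff, not_not]
        exact hα j List.mem_cons_self
  · intro hz
    rw [cf_sum z]
    refine Submodule.sum_mem _ (fun α hα => ?_)
    by_cases h : ∀ j ∈ js, α j = 0
    · exact absurd (hz α h) (Finsupp.mem_support_iff.mp hα)
    · push Not at h
      obtain ⟨j, hj, hαj⟩ := h
      have hmon : (monomial α (1 : R) : MvPolynomial σ R) =
          X j * monomial (α - Finsupp.single j 1) 1 := by
        rw [X, monomial_mul, one_mul]
        congr 1
        rw [add_comm, tsub_add_cancel_of_le]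
        rw [Finsupp.single_le_iff]
        omega
      rw [hmon]
      clear hα hz hmon
      generalize cfEquiv R σ N z α = n
      generalize (monomial (α - Finsupp.single j 1) 1 : MvPolynomial σ R) = p
      induction js with
      | nil => exact absurd hj (List.not_mem_nil)
      | cons i js ih =>
          rcases List.mem_cons.mp hj with rfl | hj
          · apply Submodule.mem_sup_right
            exact ⟨p ⊗ₜ n, by
              change (X j : MvPolynomial σ R) • (p ⊗ₜ[R] n) = _
              rw [TensorProduct.smul_tmul', smul_eq_mul]⟩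
          · exact Submodule.mem_sup_left (ih hj)

lemma reg_lst (g : σ → R) (js : List σ) (hjs : js.Nodup) :
    Reg (lst g js) (MvPolynomial σ R ⊗[R] N) := by
  classical
  induction js with
  | nil => trivial
  | cons j js ih =>
      rw [List.nodup_cons] at hjs
      refine ⟨ih hjs.2, fun m hm => ?_⟩
      change (X j : MvPolynomial σ R) • m ∈ XM (lst g js) _ at hm
      change m ∈ XM (lst g js) _
      rw [mem_XM] at hm ⊢
      intro α hα
      have := hm (α + Finsupp.single j 1) (fun i hi => by
        rw [Finsupp.add_apply, hα i hi, zero_add, Finsupp.single_apply, if_neg]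
        rintro rfl
        exact hjs.1 hi)
      rwa [cf_X_smul, if_pos, add_tsub_cancel_right] at this
      rw [Finsupp.mem_support_iff, Finsupp.add_apply, Finsupp.single_eq_same]
      omega

end

end Pool.Agent.Helper11
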