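import Pool.Agent.Helper11.PolyLift

/-!
# Restriction along a surjective ring homomorphism, and its inverse
-/

namespace Pool.Agent.Helper11

universe u

open Function

variable {S R : Type u} [CommRing S] [CommRing R] (π : S →+* R) (hπ : Surjective π)

/-- restriction of scalars of a module with finiteness -/
noncomputable def restr (N : FGMod R) : FGMod S :=
  letI : Module S N := Module.compHom N π
  haveI : Module.Finite S N := by
    obtain ⟨s, hs⟩ := (inferInstance : Module.Finite R N).fg_top
    refine ⟨⟨s, ?_⟩⟩
    rw [eq_top_iff]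
    rintro x -
    have hx : x ∈ Submodule.span R (s : Set N) := by rw [hs]; trivial
    induction hx using Submodule.span_induction with
    | mem x h => exact Submodule.subset_span h
    | zero => exact Submodule.zero_mem _
    | add x y _ _ hx hy => exact Submodule.add_mem _ hx hy
    | smul r x _ hx =>
        obtain ⟨t, rfl⟩ := hπ r
        exact Submodule.smul_mem (Submodule.span S (s : Set N)) t hx
  FGMod.of S N

/-- the identity map, as a semilinear equivalence -/
noncomputable def restrEquiv (N : FGMod R) : restr π hπ N ≃+ N := AddEquiv.refl _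

lemma restrEquiv_smul (N : FGMod R) (s : S) (x : restr π hπ N) :
    restrEquiv π hπ N (s • x) = π s • restrEquiv π hπ N x := rfl

include hπ in
lemma exists_desc (M : FGMod S) (h : KilledBy (RingHom.ker π) M) :
    ∃ (N : FGMod R) (e : M ≃+ N), ∀ (s : S) (x : M), e (s • x) = π s • e x := by
  let sec : R → S := surjInv hπ
  have hsec : ∀ r, π (sec r) = r := surjInv_eq hπ
  have key : ∀ (s t : S) (x : M), π s = π t → s • x = t • x := by
    intro s t x hst
    rw [← sub_eq_zero, ← sub_smul]
    exact h _ (by rw [RingHom.mem_ker, map_sub, hst, sub_self]) x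
  letI : SMul R M := ⟨fun r x => sec r • x⟩
  have hs : ∀ (r : R) (x : M), r • x = sec r • x := fun _ _ => rfl
  letI : Module R M :=
    { one_smul := fun x => by rw [hs, key (sec 1) 1 x (by rw [hsec, map_one]), one_smul]
      mul_smul := fun a b x => by
        rw [hs, hs, hs, ← mul_smul]
        exact key _ _ _ (by rw [map_mul, hsec, hsec, hsec])
      smul_zero := fun a => by rw [hs, smul_zero]
      smul_add := fun a x y => by rw [hs, hs, hs, smul_add]
      add_smul := fun a b x => by
        rw [hs, hs, hs, ← add_smul]
        exact key _ _ _ (by rw [map_add, hsec, hsec, hsec])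
      zero_smul := fun x => by rw [hs, key (sec 0) 0 x (by rw [hsec, map_zero]), zero_smul] }
  have hsm : ∀ (s : S) (x : M), s • x = π s • x := fun s x => by
    rw [hs]
    exact key _ _ _ (by rw [hsec])
  haveI : Module.Finite R M := by
    obtain ⟨s, hs'⟩ := (inferInstance : Module.Finite S M).fg_top
    refine ⟨⟨s, ?_⟩⟩
    rw [eq_top_iff]
    rintro x -
    have hx : x ∈ Submodule.span S (s : Set M) := by rw [hs']; trivial
    induction hx using Submodule.span_induction with
    | mem x h => exact Submodule.subset_span h
    | zero => exact Submodule.zero_mem _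
    | add x y _ _ hx hy => exact Submodule.add_mem _ hx hy
    | smul r x _ hx =>
        rw [hsm]
        exact Submodule.smul_mem (Submodule.span R (s : Set M)) _ hx
  exact ⟨FGMod.of R M, AddEquiv.refl _, hsm⟩

open Classical in
/-- a module killed by the kernel, as a module over the quotient -/
noncomputable def desc (M : FGMod S) : FGMod R :=
  if h : KilledBy (RingHom.ker π) M then (exists_desc π hπ M h).choose
  else FGMod.of R PUnit.{u+1}

lemma exists_descEquiv (M : FGMod S) (h : KilledBy (RingHom.ker π) M) :
    ∃ e : M ≃+ desc π hπ M, ∀ (s : S) (x : M), e (s • x) = π s • e x := by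
  rw [desc, dif_pos h]
  exact (exists_desc π hπ M h).choose_spec

lemma killedBy_restr {I : Ideal R} {N : FGMod R} (h : KilledBy I N) :
    KilledBy (I.comap π) (restr π hπ N) := by
  intro s hs x
  apply (restrEquiv π hπ N).injective
  rw [restrEquiv_smul, map_zero]
  exact h _ hs _

variable {Γ : Type*} [AddCommGroup Γ] {I : Ideal R} {χ : FGMod R → Γ}

lemma desc_restr (hχ : IsAdd (KilledBy I) χ) (N : FGMod R) (hN : KilledBy I N) :
    χ (desc π hπ (restr π hπ N)) = χ N := by
  have hk : KilledBy (RingHom.ker π) (restr π hπ N) := by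
    intro s hs x
    apply (restrEquiv π hπ N).injective
    rw [restrEquiv_smul, map_zero, (RingHom.mem_ker).mp hs, zero_smul]
  obtain ⟨e, he⟩ := exists_descEquiv π hπ _ hk
  symm
  refine hχ.iso ?_ hN
  refine { (restrEquiv π hπ N).symm.trans e with
    map_smul' := ?_ }
  intro r x
  obtain ⟨s, rfl⟩ := hπ r
  obtain ⟨y, rfl⟩ := (restrEquiv π hπ N).surjective x
  change e ((restrEquiv π hπ N).symm (π s • restrEquiv π hπ N y)) =
    π s • e ((restrEquiv π hπ N).symm (restrEquiv π hπ N y))
  rw [← restrEquiv_smul, AddEquiv.symm_apply_apply, AddEquiv.symm_apply_apply, he]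

theorem isAdd_desc (hχ : IsAdd (KilledBy I) χ) :
    IsAdd (KilledBy (I.comap π)) (fun M => χ (desc π hπ M)) where
  sq := subQuot_killedBy _
  add M' M M'' f g hf hg hfg hM := by
    have hM' := (subQuot_killedBy (I.comap π)).sub M' M f hf hM
    have hM'' := (subQuot_killedBy (I.comap π)).quot M M'' g hg hM
    have hle : RingHom.ker π ≤ I.comap π := fun s hs => by
      rw [Ideal.mem_comap, (RingHom.mem_ker).mp hs]
      exact I.zero_mem
    have hmono : ∀ {T : FGMod S}, KilledBy (I.comap π) T → KilledBy (RingHom.ker π) T :=
      fun h s hs => h s (hle hs)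
    obtain ⟨e', he'⟩ := exists_descEquiv π hπ M' (hmono hM')
    obtain ⟨e, he⟩ := exists_descEquiv π hπ M (hmono hM)
    obtain ⟨e'', he''⟩ := exists_descEquiv π hπ M'' (hmono hM'')
    let f' : desc π hπ M' →ₗ[R] desc π hπ M :=
      { toFun := fun x => e (f (e'.symm x))
        map_add' := fun x y => by simp
        map_smul' := fun r x => by
          obtain ⟨s, rfl⟩ := hπ r
          obtain ⟨y, rfl⟩ := e'.surjective x
          rw [← he', AddEquiv.symm_apply_apply, AddEquiv.symm_apply_apply, map_smul, he]
          rfl }
    let g' : desc π hπ M →ₗ[R] desc π hπ M'' :=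
      { toFun := fun x => e'' (g (e.symm x))
        map_add' := fun x y => by simp
        map_smul' := fun r x => by
          obtain ⟨s, rfl⟩ := hπ r
          obtain ⟨y, rfl⟩ := e.surjective x
          rw [← he, AddEquiv.symm_apply_apply, AddEquiv.symm_apply_apply, map_smul, he'']
          rfl }
    have hf' : ∀ x, f' x = e (f (e'.symm x)) := fun _ => rfl
    have hg' : ∀ x, g' x = e'' (g (e.symm x)) := fun _ => rfl
    refine hχ.add _ _ _ f' g' ?_ ?_ ?_ ?_
    · intro x y hxy
      rw [hf', hf'] at hxy
      exact e'.symm.injective (hf (e.injective hxy))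
    · intro x
      obtain ⟨y, rfl⟩ := e''.surjective x
      obtain ⟨z, rfl⟩ := hg y
      exact ⟨e z, by rw [hg', AddEquiv.symm_apply_apply]⟩
    · intro x
      rw [hg']
      constructor
      · intro h
        rw [e''.map_eq_zero_iff] at h
        obtain ⟨y, hy⟩ := (hfg _).mp h
        refine ⟨e' y, ?_⟩
        rw [hf', AddEquiv.symm_apply_apply, hy, AddEquiv.apply_symm_apply]
      · rintro ⟨y, rfl⟩
        rw [hf', AddEquiv.symm_apply_apply, hfg.apply_apply_eq_zero, map_zero]
    · intro r hr x
      obtain ⟨s, rfl⟩ := hπ r
      obtain ⟨y, rfl⟩ := e.surjective x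
      rw [← he, hM s hr y, map_zero]

end Pool.Agent.Helper11
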