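import Pool.Agent.Helper11.Devissage

/-!
# Additive functions on subquotients
-/

namespace Pool.Agent.Helper11

universe u

open Function

variable {R : Type u} [CommRing R] [IsNoetherianRing R] {Γ : Type*} [AddCommGroup Γ]
  {P : FGMod R → Prop} {χ : FGMod R → Γ}

lemma killedBy_qt_iff {J : Ideal R} {T : FGMod R} {A B : Submodule R T} :
    KilledBy J (qt A B) ↔ ∀ s ∈ J, ∀ x ∈ A, s • x ∈ B := by
  constructor
  · intro h s hs x hx
    have := h s hs (Submodule.Quotient.mk ⟨x, hx⟩)
    rw [← Submodule.Quotient.mk_smul, Submodule.Quotient.mk_eq_zero] at this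
    exact this
  · intro h s hs m
    obtain ⟨⟨m, hm⟩, rfl⟩ := Submodule.mkQ_surjective _ m
    rw [← map_smul, Submodule.mkQ_apply, Submodule.Quotient.mk_eq_zero]
    exact h s hs m hm

section

variable (hχ : IsAdd P χ)
include hχ

lemma q_add {T : FGMod R} {A B C : Submodule R T} (hBA : B ≤ A) (hCB : C ≤ B)
    (h : P (qt A C)) : χ (qt A C) = χ (qt B C) + χ (qt A B) := by
  refine hχ.add (qt B C) (qt A C) (qt A B)
    (Submodule.mapQ _ _ (Submodule.inclusion hBA) ?_)
    (Submodule.factor ?_) ?_ ?_ ?_ h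
  · intro x hx
    exact hx
  · intro x hx
    exact hCB hx
  · rw [injective_iff_map_eq_zero]
    intro x hx
    obtain ⟨x, rfl⟩ := Submodule.mkQ_surjective _ x
    rw [Submodule.mkQ_apply, Submodule.mapQ_apply, Submodule.Quotient.mk_eq_zero] at hx
    rw [Submodule.mkQ_apply, Submodule.Quotient.mk_eq_zero]
    exact hx
  · intro x
    obtain ⟨x, rfl⟩ := Submodule.mkQ_surjective _ x
    exact ⟨Submodule.Quotient.mk x, rfl⟩
  · intro x
    obtain ⟨x, rfl⟩ := Submodule.mkQ_surjective _ x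
    constructor
    · intro hx
      have hx' : (x : T) ∈ B := by
        have : (Submodule.Quotient.mk x : A ⧸ B.submoduleOf A) = 0 := hx
        rw [Submodule.Quotient.mk_eq_zero] at this
        exact this
      exact ⟨Submodule.Quotient.mk ⟨x, hx'⟩, rfl⟩
    · rintro ⟨y, hy⟩
      obtain ⟨y, rfl⟩ := Submodule.mkQ_surjective _ y
      rw [← hy]
      change (Submodule.Quotient.mk _ : A ⧸ B.submoduleOf A) = 0
      rw [Submodule.Quotient.mk_eq_zero]
      exact y.2

lemma q_self {T : FGMod R} (A B : Submodule R T) (h : A ≤ B) (hP : P (qt A B)) :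
    χ (qt A B) = 0 := by
  have : Subsingleton (qt A B) := by
    refine Submodule.Quotient.subsingleton_iff.mpr ?_
    exact Submodule.submoduleOf_eq_top.mpr h
  exact hχ.zero _ hP

lemma q_map {T T' : FGMod R} (f : T' →ₗ[R] T) (hf : Injective f) (A B : Submodule R T')
    (h : P (qt A B)) : χ (qt A B) = χ (qt (A.map f) (B.map f)) := by
  refine hχ.iso ?_ h
  refine Submodule.Quotient.equiv _ _ (Submodule.equivMapOfInjective f hf A) ?_
  ext x
  constructor
  · rintro ⟨y, hy, rfl⟩
    exact ⟨y, hy, rfl⟩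
  · rintro ⟨y, hy, hyx⟩
    obtain ⟨x, a, ha, rfl⟩ := x
    have : y = a := hf hyx
    subst this
    exact ⟨⟨y, ha⟩, hy, rfl⟩

lemma q_quot {T T'' : FGMod R} (g : T →ₗ[R] T'') (A B : Submodule R T) (hBA : B ≤ A)
    (h : P (qt A B)) :
    χ (qt A B) = χ (qt (A ⊓ LinearMap.ker g) (B ⊓ LinearMap.ker g)) +
      χ (qt (A.map g) (B.map g)) := by
  refine hχ.add (qt (A ⊓ LinearMap.ker g) (B ⊓ LinearMap.ker g)) (qt A B)
    (qt (A.map g) (B.map g))
    (Submodule.mapQ _ _ (Submodule.inclusion inf_le_left) ?_)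
    (Submodule.mapQ _ _ (g.submoduleMap A) ?_) ?_ ?_ ?_ h
  · intro x hx
    exact (show (x : T) ∈ B ⊓ LinearMap.ker g from hx).1
  · intro x hx
    exact ⟨x, hx, rfl⟩
  · rw [injective_iff_map_eq_zero]
    intro x hx
    obtain ⟨x, rfl⟩ := Submodule.mkQ_surjective _ x
    rw [Submodule.mkQ_apply, Submodule.mapQ_apply, Submodule.Quotient.mk_eq_zero] at hx
    rw [Submodule.mkQ_apply, Submodule.Quotient.mk_eq_zero]
    exact ⟨hx, x.2.2⟩
  · intro x
    obtain ⟨⟨_, a, ha, rfl⟩, rfl⟩ := Submodule.mkQ_surjective _ x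
    exact ⟨Submodule.Quotient.mk ⟨a, ha⟩, rfl⟩
  · intro x
    obtain ⟨x, rfl⟩ := Submodule.mkQ_surjective _ x
    constructor
    · intro hx
      rw [Submodule.mkQ_apply, Submodule.mapQ_apply, Submodule.Quotient.mk_eq_zero] at hx
      obtain ⟨b, hb, hbx⟩ := hx
      have hbx' : g b = g x := hbx
      refine ⟨Submodule.Quotient.mk ⟨(x : T) - b, A.sub_mem x.2 (hBA hb), ?_⟩, ?_⟩
      · change g ((x : T) - b) = 0
        rw [map_sub, hbx', sub_self]
      · rw [Submodule.mapQ_apply, Submodule.mkQ_apply, Submodule.Quotient.eq]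
        change ((x : T) - b) - x ∈ B
        have : (x : T) - b - x = -b := by abel
        rw [this]
        exact B.neg_mem hb
    · rintro ⟨y, hy⟩
      obtain ⟨y, rfl⟩ := Submodule.mkQ_surjective _ y
      rw [← hy]
      rw [Submodule.mkQ_apply, Submodule.mapQ_apply, Submodule.mapQ_apply,
        Submodule.Quotient.mk_eq_zero]
      refine ⟨0, B.zero_mem, ?_⟩
      rw [map_zero]
      exact (LinearMap.mem_ker.mp y.2.2).symm

end

end Pool.Agent.Helper11
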